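import Pool.Agent.Work.MP_408f4b_gt.Stmts

set_option autoImplicit false

/-!
# Item Arm: half a profile curve gives an arm
-/

namespace Pool.Agent.Work.MP_408f4b_gt

open MeasureTheory Set Filter Topology

namespace IArm

/-! ### an inverse function -/

lemma exists_inverse (τ : ℝ → ℝ) (l : ℝ) (hl : 0 < l) (hc : ContinuousOn τ (Icc 0 l))
    (hmono : StrictMonoOn τ (Icc 0 l)) (h0 : τ 0 = 0) :
    ∃ g : ℝ → ℝ, Continuous g ∧ StrictMono g ∧ (∀ s ∈ Icc 0 l, g (τ s) = s) ∧
      ∀ t ∈ Icc 0 (τ l), g t ∈ Icc 0 l ∧ τ (g t) = t := by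
  set P : ℝ → ℝ := fun s => max 0 (min s l) with hP
  have hPc : Continuous P := by fun_prop
  have hPm : ∀ s, P s ∈ Icc 0 l := fun s =>
    ⟨le_max_left _ _, max_le hl.le (min_le_right _ _)⟩
  have hPmono : Monotone P := fun s s' h => max_le_max le_rfl (min_le_min h le_rfl)
  have hPid : ∀ s ∈ Icc 0 l, P s = s := by
    intro s hs
    simp only [hP]
    rw [min_eq_left hs.2, max_eq_right hs.1]
  have hPmono2 : Monotone (fun s => s - P s) := by
    intro s s' h
    simp only [hP]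
    rcases le_total s 0 with h1 | h1 <;> rcases le_total s l with h2 | h2 <;>
      rcases le_total s' 0 with h3 | h3 <;> rcases le_total s' l with h4 | h4 <;>
      simp [h1, h2, h3, h4, hl.le] <;> linarith
  set F : ℝ → ℝ := fun s => τ (P s) + (s - P s) with hF
  have hFc : Continuous F := by
    have h1 : Continuous (fun s => τ (P s)) :=
      hc.comp_continuous hPc hPm
    exact h1.add (continuous_id.sub hPc)
  have hFmono : StrictMono F := by
    intro s s' h
    simp only [hF]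
    have h1 : τ (P s) ≤ τ (P s') := hmono.monotoneOn (hPm s) (hPm s') (hPmono h.le)
    have h2 : s - P s ≤ s' - P s' := hPmono2 h.le
    rcases (hPmono h.le).lt_or_eq with h3 | h3
    · have h4 : τ (P s) < τ (P s') := hmono (hPm s) (hPm s') h3
      linarith
    · rw [← h3]; linarith
  have hτnn : ∀ s, 0 ≤ τ (P s) := by
    intro s
    rw [← h0]
    exact hmono.monotoneOn ⟨le_rfl, hl.le⟩ (hPm s) (hPm s).1
  have hτle : ∀ s, τ (P s) ≤ τ l := fun s =>
    hmono.monotoneOn (hPm s) ⟨hl.le, le_rfl⟩ (hPm s).2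
  have hFsurj : Function.Surjective F := by
    apply hFc.surjective
    · apply tendsto_atTop_mono (f := fun s => s - l)
      · intro s
        simp only [hF]
        linarith [hτnn s, (hPm s).2]
      · exact tendsto_atTop_add_const_right _ _ tendsto_id
    · refine tendsto_atBot_mono ?_ (tendsto_atBot_add_const_right _ (τ l) tendsto_id)
      intro s
      simp only [hF, id]
      linarith [hτle s, (hPm s).1]
  set e := hFmono.orderIsoOfSurjective F hFsurj with he
  have heF : ∀ s, e s = F s := fun s => rfl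
  have hFτ : ∀ s ∈ Icc 0 l, F s = τ s := by
    intro s hs
    simp only [hF]
    rw [hPid s hs]; ring
  refine ⟨e.symm, e.symm.continuous, e.symm.strictMono, ?_, ?_⟩
  · intro s hs
    rw [← hFτ s hs, ← heF, OrderIso.symm_apply_apply]
  · intro t ht
    have h1 : e.symm t ∈ Icc 0 l := by
      constructor
      · have : e.symm (τ 0) = 0 := by
          rw [← hFτ 0 ⟨le_rfl, hl.le⟩, ← heF, OrderIso.symm_apply_apply]
        rw [← this, h0]
        exact e.symm.monotone ht.1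
      · have : e.symm (τ l) = l := by
          rw [← hFτ l ⟨hl.le, le_rfl⟩, ← heF, OrderIso.symm_apply_apply]
        conv_rhs => rw [← this]
        exact e.symm.monotone ht.2
    refine ⟨h1, ?_⟩
    rw [← hFτ _ h1, ← heF, OrderIso.apply_symm_apply]

/-! ### the radius -/

lemma rad_pos {x y : ℝ → ℝ} {s : ℝ} (hx : 0 < x s) : 0 < rad x y s :=
  Real.sqrt_pos.mpr (by positivity)

lemma rad_sq (x y : ℝ → ℝ) (s : ℝ) : rad x y s ^ 2 = x s ^ 2 + y s ^ 2 :=
  Real.sq_sqrt (by positivity)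

lemma hasDerivAt_rad {x y : ℝ → ℝ} {x' y' s : ℝ} (hx : HasDerivAt x x' s)
    (hy : HasDerivAt y y' s) (h : 0 < x s) :
    HasDerivAt (rad x y) ((x s * x' + y s * y') / rad x y s) s := by
  have h1 : HasDerivAt (fun s => x s ^ 2 + y s ^ 2) (2 * x s * x' + 2 * y s * y') s := by
    have := (hx.fun_pow 2).fun_add (hy.fun_pow 2)
    refine this.congr_deriv ?_
    push_cast
    ring
  have h2 := h1.sqrt (by positivity)
  have h3 : (2 * x s * x' + 2 * y s * y') / (2 * Real.sqrt (x s ^ 2 + y s ^ 2)) =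
      (x s * x' + y s * y') / rad x y s := by
    have : rad x y s = Real.sqrt (x s ^ 2 + y s ^ 2) := rfl
    rw [this]
    have h4 : 0 < Real.sqrt (x s ^ 2 + y s ^ 2) := Real.sqrt_pos.mpr (by positivity)
    field_simp
  rw [h3] at h2
  exact h2

lemma hasDerivAt_tau {x y : ℝ → ℝ} {x' y' s : ℝ} (hx : HasDerivAt x x' s)
    (hy : HasDerivAt y y' s) (h : 0 < x s) (h0 : 0 < rad x y 0) :
    HasDerivAt (fun s => Real.log (rad x y s / rad x y 0))
      ((x s * x' + y s * y') / rad x y s ^ 2) s := by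
  have hr := rad_pos (y := y) h
  have h1 := ((hasDerivAt_rad hx hy h).div_const (rad x y 0)).log (by positivity)
  convert h1 using 1
  field_simp

/-- `c² + m² = r²` -/
lemma cm (X Y X' Y' : ℝ) (h : X' ^ 2 + Y' ^ 2 = 1) :
    (X * X' + Y * Y') ^ 2 + (X * Y' - Y * X') ^ 2 = X ^ 2 + Y ^ 2 := by
  calc (X * X' + Y * Y') ^ 2 + (X * Y' - Y * X') ^ 2 = (X ^ 2 + Y ^ 2) * (X' ^ 2 + Y' ^ 2) := by
        ring
    _ = X ^ 2 + Y ^ 2 := by rw [h, mul_one]

/-- the force at `arctan (Y / X)` -/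
lemma kk_arctan (p q : ℕ) {X Y : ℝ} (hX : 0 < X) (hY : 0 < Y) :
    kk p q (Real.arctan (Y / X)) = ((q : ℝ) - 1) * (X / Y) - ((p : ℝ) - 1) * (Y / X) := by
  have hc : 0 < Real.cos (Real.arctan (Y / X)) := Real.cos_arctan_pos _
  have hs : Real.sin (Real.arctan (Y / X)) = Y / X * Real.cos (Real.arctan (Y / X)) := by
    have := Real.tan_mul_cos hc.ne'
    rw [Real.tan_arctan] at this
    exact this.symm
  unfold kk
  rw [hs]
  generalize Real.cos (Real.arctan (Y / X)) = c at hc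
  congr 2
  · field_simp
  · field_simp

/-- the algebra of the equation for `ψ` -/
lemma alg (P Q X Y X' Y' : ℝ) (hX : 0 < X) (hY : 0 < Y) (hc : 0 < X * X' + Y * Y') :
    ((Q - 1) * X' / Y - (P - 1) * Y' / X) * (X ^ 2 + Y ^ 2) / (X * X' + Y * Y') -
      (X * Y' - Y * X') / (X * X' + Y * Y') =
    (Q - 1) * (X / Y) - (P - 1) * (Y / X) -
      (P + Q - 1) * ((X * Y' - Y * X') / (X * X' + Y * Y')) := by
  have h1 : ((Q - 1) * X' / Y - (P - 1) * Y' / X) * (X ^ 2 + Y ^ 2) - (X * Y' - Y * X') =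
      (X * X' + Y * Y') * ((Q - 1) * (X / Y) - (P - 1) * (Y / X)) -
        (P + Q - 1) * (X * Y' - Y * X') := by
    field_simp
    ring
  rw [← sub_div, h1, sub_div, mul_div_cancel_left₀ _ hc.ne', mul_div_assoc]

lemma sqrt_c {c m R : ℝ} (hc : 0 < c) (hR : 0 < R) (h : c ^ 2 + m ^ 2 = R ^ 2) :
    Real.sqrt (1 - (m / R) ^ 2) = c / R := by
  rw [Real.sqrt_eq_iff_mul_self_eq_of_pos (by positivity)]
  have : 1 - (m / R) ^ 2 = (R ^ 2 - m ^ 2) / R ^ 2 := by field_simp
  have h1 : R ^ 2 - m ^ 2 = c ^ 2 := by linarith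
  rw [this, h1]
  ring

lemma abs_mR {c m R : ℝ} (hc : 0 < c) (hR : 0 < R) (h : c ^ 2 + m ^ 2 = R ^ 2) :
    -1 < m / R ∧ m / R < 1 := by
  have h1 : |m| < R := by
    apply abs_lt_of_sq_lt_sq _ hR.le
    have : 0 < c ^ 2 := by positivity
    linarith
  rw [abs_lt] at h1
  constructor
  · rw [lt_div_iff₀ hR]; linarith
  · rw [div_lt_one hR]; exact h1.2

end IArm

open IArm in
theorem prfArm (hE : claimEqn) : claimArm := by
  intro p q ℓ ε x y hp hq hℓ hε hC h0 hpos hm0
  have hEq := hE p q 0 ℓ x y hp hq hℓ hC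
  obtain ⟨hx2, hy2, hcur⟩ := hC
  have hxd : ∀ s, HasDerivAt x (deriv x s) s := fun s =>
    (hx2.differentiable (by norm_num)).differentiableAt.hasDerivAt
  have hyd : ∀ s, HasDerivAt y (deriv y s) s := fun s =>
    (hy2.differentiable (by norm_num)).differentiableAt.hasDerivAt
  have hx'c : Continuous (deriv x) := hx2.continuous_deriv (by norm_num)
  have hy'c : Continuous (deriv y) := hy2.continuous_deriv (by norm_num)
  have hxc : Continuous x := hx2.continuous
  have hyc : Continuous y := hy2.continuous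
  set c : ℝ → ℝ := fun s => x s * deriv x s + y s * deriv y s with hcdef
  set m : ℝ → ℝ := fun s => x s * deriv y s - y s * deriv x s with hmdef
  have hcc : Continuous c := (hxc.mul hx'c).add (hyc.mul hy'c)
  have hmc : Continuous m := (hxc.mul hy'c).sub (hyc.mul hx'c)
  have hRc : Continuous (rad x y) := ((hxc.pow 2).add (hyc.pow 2)).sqrt
  -- extension of the interval
  obtain ⟨l', hl', hext⟩ : ∃ l' > ℓ, ∀ s ∈ Icc ℓ l', 0 < x s ∧ 0 < y s ∧ 0 < c s := by
    have hl := hcur ℓ ⟨hℓ.le, le_rfl⟩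
    have h1 : ∀ᶠ s in 𝓝 ℓ, 0 < x s ∧ 0 < y s ∧ 0 < c s :=
      (hxc.continuousAt.eventually (lt_mem_nhds hl.1)).and
        ((hyc.continuousAt.eventually (lt_mem_nhds hl.2.1)).and
          (hcc.continuousAt.eventually (lt_mem_nhds (hpos ℓ ⟨hℓ, le_rfl⟩))))
    obtain ⟨δ, hδ, hball⟩ := Metric.eventually_nhds_iff.mp h1
    refine ⟨ℓ + δ / 2, by linarith, fun s hs => hball ?_⟩
    rw [Real.dist_eq, abs_lt]
    constructor
    · linarith [hs.1]
    · linarith [hs.2]
  have hl0 : 0 < l' := hℓ.trans hl'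
  have hxp : ∀ s ∈ Icc 0 l', 0 < x s := by
    intro s hs
    rcases le_total s ℓ with h | h
    · exact (hcur s ⟨hs.1, h⟩).1
    · exact (hext s ⟨h, hs.2⟩).1
  have hyp : ∀ s ∈ Icc 0 l', 0 < y s := by
    intro s hs
    rcases le_total s ℓ with h | h
    · exact (hcur s ⟨hs.1, h⟩).2.1
    · exact (hext s ⟨h, hs.2⟩).2.1
  have hcp : ∀ s ∈ Ioc 0 l', 0 < c s := by
    intro s hs
    rcases le_total s ℓ with h | h
    · exact hpos s ⟨hs.1, h⟩
    · exact (hext s ⟨h, hs.2⟩).2.2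
  have hR0 : 0 < rad x y 0 := rad_pos (hxp 0 ⟨le_rfl, hl0.le⟩)
  have hRp : ∀ s ∈ Icc 0 l', 0 < rad x y s := fun s hs => rad_pos (hxp s hs)
  set τ : ℝ → ℝ := fun s => Real.log (rad x y s / rad x y 0) with hτdef
  have hτd : ∀ s ∈ Icc 0 l', HasDerivAt τ (c s / rad x y s ^ 2) s := fun s hs =>
    hasDerivAt_tau (hxd s) (hyd s) (hxp s hs) hR0
  have hτc : ContinuousOn τ (Icc 0 l') := fun s hs =>
    (hτd s hs).continuousAt.continuousWithinAt
  have hτm : StrictMonoOn τ (Icc 0 l') := by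
    apply strictMonoOn_of_deriv_pos (convex_Icc 0 l') hτc
    intro s hs
    rw [interior_Icc] at hs
    rw [(hτd s ⟨hs.1.le, hs.2.le⟩).deriv]
    have h1 := hcp s ⟨hs.1, hs.2.le⟩
    have h2 := hRp s ⟨hs.1.le, hs.2.le⟩
    positivity
  have hτ0 : τ 0 = 0 := by
    simp only [hτdef]
    rw [div_self hR0.ne', Real.log_one]
  obtain ⟨g, hgc, hgm, hg1, hg2⟩ := exists_inverse τ l' hl0 hτc hτm hτ0
  have hTpos : 0 < τ ℓ := by
    rw [← hτ0]; exact hτm ⟨le_rfl, hl0.le⟩ ⟨hℓ.le, hl'.le⟩ hℓ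
  have hTlt : τ ℓ < τ l' := hτm ⟨hℓ.le, hl'.le⟩ ⟨hl0.le, le_rfl⟩ hl'
  have hg0 : g 0 = 0 := by
    have := hg1 0 ⟨le_rfl, hl0.le⟩
    rwa [hτ0] at this
  have hgl : g (τ ℓ) = ℓ := hg1 ℓ ⟨hℓ.le, hl'.le⟩
  have hgI : ∀ t ∈ Icc 0 (τ ℓ), g t ∈ Icc 0 ℓ := by
    intro t ht
    constructor
    · rw [← hg0]; exact hgm.monotone ht.1
    · rw [← hgl]; exact hgm.monotone ht.2
  have hgI' : ∀ t ∈ Ioc 0 (τ ℓ), g t ∈ Ioc 0 ℓ := by
    intro t ht
    constructor
    · rw [← hg0]; exact hgm ht.1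
    · rw [← hgl]; exact hgm.monotone ht.2
  have hIl : ∀ s ∈ Icc 0 ℓ, s ∈ Icc 0 l' := fun s hs => ⟨hs.1, hs.2.trans hl'.le⟩
  have hgd : ∀ t ∈ Ioc 0 (τ ℓ), HasDerivAt g (c (g t) / rad x y (g t) ^ 2)⁻¹ t := by
    intro t ht
    have h1 := hgI' t ht
    have h2 : g t ∈ Icc 0 l' := hIl _ ⟨h1.1.le, h1.2⟩
    apply HasDerivAt.of_local_left_inverse hgc.continuousAt (hτd _ h2)
    · have h3 := hcp (g t) ⟨h1.1, h2.2⟩
      have h4 := hRp _ h2
      positivity
    · filter_upwards [Ioo_mem_nhds ht.1 (ht.2.trans_lt hTlt)] with t' ht'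
      exact (hg2 t' ⟨ht'.1.le, ht'.2.le⟩).2
  have hcm : ∀ s ∈ Icc 0 ℓ, c s ^ 2 + m s ^ 2 = rad x y s ^ 2 := by
    intro s hs
    rw [rad_sq]
    exact cm _ _ _ _ (hcur s hs).2.2.1
  have hRle : ∀ s ∈ Icc 0 ℓ, -1 ≤ m s / rad x y s ∧ m s / rad x y s ≤ 1 := by
    intro s hs
    have hR := hRp s (hIl s hs)
    have h1 : |m s| ≤ rad x y s := by
      apply abs_le_of_sq_le_sq _ hR.le
      have := hcm s hs
      nlinarith [sq_nonneg (c s)]
    rw [abs_le] at h1
    constructor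
    · rw [le_div_iff₀ hR]; linarith
    · rw [div_le_one hR]; exact h1.2
  refine ⟨fun t => Real.arctan (y (g t) / x (g t)), fun t => Real.arcsin (m (g t) / rad x y (g t)),
    hTpos, ⟨?_, ?_, ?_, ?_, ?_, ?_⟩, ?_, ?_⟩
  · -- continuity of `φ`
    apply Real.continuous_arctan.comp_continuousOn
    apply ContinuousOn.div (hyc.comp hgc).continuousOn (hxc.comp hgc).continuousOn
    intro t ht
    exact (hxp _ (hIl _ (hgI t ht))).ne'
  · -- continuity of `ψ`
    apply Real.continuous_arcsin.comp_continuousOn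
    apply ContinuousOn.div (hmc.comp hgc).continuousOn (hRc.comp hgc).continuousOn
    intro t ht
    exact (hRp _ (hIl _ (hgI t ht))).ne'
  · -- range of `φ`
    intro t ht
    have hX := hxp _ (hIl _ (hgI t ht))
    have hY := hyp _ (hIl _ (hgI t ht))
    exact ⟨Real.arctan_pos.mpr (by positivity), Real.arctan_lt_pi_div_two _⟩
  · -- range of `ψ`
    intro t ht
    have h1 := hgI' t ht
    have h2 : g t ∈ Icc 0 ℓ := ⟨h1.1.le, h1.2⟩
    have h3 := abs_mR (hcp (g t) ⟨h1.1, h1.2.trans hl'.le⟩) (hRp _ (hIl _ h2)) (hcm _ h2)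
    exact ⟨Real.neg_pi_div_two_lt_arcsin.mpr h3.1, Real.arcsin_lt_pi_div_two.mpr h3.2⟩
  · -- derivative of `φ`
    intro t ht
    have h1 := hgI' t ht
    have h2 : g t ∈ Icc 0 ℓ := ⟨h1.1.le, h1.2⟩
    have hX := hxp _ (hIl _ h2)
    have hY := hyp _ (hIl _ h2)
    have hc := hcp (g t) ⟨h1.1, h1.2.trans hl'.le⟩
    have hR := hRp _ (hIl _ h2)
    have h3 : HasDerivAt (fun s => Real.arctan (y s / x s)) (m (g t) / rad x y (g t) ^ 2) (g t) := by
      have h4 := ((hyd (g t)).fun_div (hxd (g t)) hX.ne').arctan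
      refine h4.congr_deriv ?_
      rw [rad_sq]
      simp only [hmdef]
      field_simp
    have h5 := h3.comp t (hgd t ht)
    refine h5.congr_deriv ?_
    rw [Real.tan_arcsin, sqrt_c hc hR (hcm _ h2)]
    generalize c (g t) = cc at hc
    generalize m (g t) = mm
    generalize rad x y (g t) = RR at hR
    field_simp
  · -- derivative of `ψ`
    intro t ht
    have h1 := hgI' t ht
    have h2 : g t ∈ Icc 0 ℓ := ⟨h1.1.le, h1.2⟩
    have hX := hxp _ (hIl _ h2)
    have hY := hyp _ (hIl _ h2)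
    have hc := hcp (g t) ⟨h1.1, h1.2.trans hl'.le⟩
    have hR := hRp _ (hIl _ h2)
    have hcm' := hcm _ h2
    have hb := abs_mR hc hR hcm'
    have hm' : HasDerivAt m (kap p q x y (g t) * c (g t)) (g t) := (hEq (g t) h2).2.2.2.2.2
    have hR' : HasDerivAt (rad x y) (c (g t) / rad x y (g t)) (g t) :=
      hasDerivAt_rad (hxd _) (hyd _) hX
    have h3 := (Real.hasDerivAt_arcsin hb.1.ne' hb.2.ne).comp (g t) (hm'.fun_div hR' hR.ne')
    have h4 := h3.comp t (hgd t ht)
    refine h4.congr_deriv ?_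
    rw [Real.tan_arcsin, sqrt_c hc hR hcm', kk_arctan p q hX hY]
    have h5 := alg p q (x (g t)) (y (g t)) (deriv x (g t)) (deriv y (g t)) hX hY hc
    have h6 : m (g t) / rad x y (g t) / (c (g t) / rad x y (g t)) =
        (x (g t) * deriv y (g t) - y (g t) * deriv x (g t)) /
          (x (g t) * deriv x (g t) + y (g t) * deriv y (g t)) := by
      simp only [hmdef, hcdef]
      field_simp
    rw [h6, ← h5, ← rad_sq]
    have h7 : ((q : ℝ) - 1) * deriv x (g t) / y (g t) - ((p : ℝ) - 1) * deriv y (g t) / x (g t) =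
      kap p q x y (g t) := rfl
    rw [h7]
    have h8 : x (g t) * deriv x (g t) + y (g t) * deriv y (g t) = c (g t) := rfl
    have h9 : x (g t) * deriv y (g t) - y (g t) * deriv x (g t) = m (g t) := rfl
    rw [h8, h9]
    generalize kap p q x y (g t) = κ
    generalize c (g t) = cc at hc
    generalize m (g t) = mm
    generalize rad x y (g t) = RR at hR
    field_simp
  · -- `ψ 0`
    show Real.arcsin (m (g 0) / rad x y (g 0)) = ε * (Real.pi / 2)
    rw [hg0]
    have h1 := hcm 0 ⟨le_rfl, hℓ.le⟩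
    have h2 : c 0 = 0 := h0
    rw [h2] at h1
    have h3 : m 0 ^ 2 = rad x y 0 ^ 2 := by linarith
    have hm0' : 0 < ε * m 0 := hm0
    rcases hε with rfl | rfl
    · have h4 : 0 < m 0 := by linarith
      have h5 : m 0 = rad x y 0 := by
        rcases sq_eq_sq_iff_eq_or_eq_neg.mp h3 with h | h
        · exact h
        · linarith
      rw [h5, div_self hR0.ne', Real.arcsin_one]
      ring
    · have h4 : m 0 < 0 := by linarith
      have h5 : m 0 = - rad x y 0 := by
        rcases sq_eq_sq_iff_eq_or_eq_neg.mp h3 with h | h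
        · linarith
        · exact h
      rw [h5, neg_div, div_self hR0.ne', Real.arcsin_neg_one]
      ring
  · intro s hs
    have hs' := hIl s hs
    have h1 : g (τ s) = s := hg1 s hs'
    refine ⟨⟨?_, hτm.monotoneOn hs' ⟨hℓ.le, hl'.le⟩ hs.2⟩, ?_, ?_⟩
    · have h2 := hτm.monotoneOn ⟨le_rfl, hl0.le⟩ hs' hs.1
      rwa [hτ0] at h2
    · show Real.arctan (y (g (τ s)) / x (g (τ s))) = _
      rw [h1]
    · show rad x y s * Real.sin (Real.arcsin (m (g (τ s)) / rad x y (g (τ s)))) = _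
      rw [h1, Real.sin_arcsin (hRle s hs).1 (hRle s hs).2, mul_div_cancel₀ _ (hRp s hs').ne']

end Pool.Agent.Work.MP_408f4b_gt
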