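import Pool.Agent.Work.MP_408f4b_gt.Stmts

set_option autoImplicit false

namespace Pool.Agent.Work.MP_408f4b_gt

open MeasureTheory Set Filter Topology

namespace IArms

/-- Once above the level `φ₀` (or on it), strictly above it later on. -/
theorem forward {k : ℝ → ℝ} {d T φ₀ : ℝ} {A ψA : ℝ → ℝ} (hA : Arm k d T A ψA)
    (hstar : ∀ t ∈ Ioc 0 T, ψA t ≤ 0 → φ₀ < A t) {t t' : ℝ} (ht : 0 ≤ t) (htt : t < t')
    (ht' : t' ≤ T) (h : φ₀ ≤ A t) : φ₀ < A t' := by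
  have hpos : ∀ s ∈ Ioc 0 T, A s ≤ φ₀ → 0 < Real.tan (ψA s) := by
    intro s hs h1
    have h2 : 0 < ψA s := by
      by_contra h3
      exact absurd (hstar s hs (not_lt.1 h3)) (not_lt.2 h1)
    exact Real.tan_pos_of_pos_of_lt_pi_div_two h2 (hA.rψ s hs).2
  by_contra hcon
  have hle : A t' ≤ φ₀ := not_lt.1 hcon
  have ht'mem : t' ∈ Ioc 0 T := ⟨lt_of_le_of_lt ht htt, ht'⟩
  -- a point with `A < φ₀`
  obtain ⟨s, hts, hst', hAs⟩ : ∃ s, t < s ∧ s ≤ t' ∧ A s < φ₀ := by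
    rcases lt_or_eq_of_le hle with h1 | h1
    · exact ⟨t', htt, le_rfl, h1⟩
    · have h2 : Tendsto (slope A t') (𝓝[<] t') (𝓝 (Real.tan (ψA t'))) :=
        (hasDerivAt_iff_tendsto_slope.1 (hA.dφ t' ht'mem)).mono_left
          (nhdsWithin_mono _ (fun x hx => ne_of_lt hx))
      have h3 : ∀ᶠ s in 𝓝[<] t', 0 < slope A t' s := h2.eventually (lt_mem_nhds (hpos t' ht'mem hle))
      have h4 : ∀ᶠ s in 𝓝[<] t', s ∈ Ioo t t' := Ioo_mem_nhdsLT htt
      obtain ⟨s, hs1, hs2⟩ := (h3.and h4).exists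
      refine ⟨s, hs2.1, hs2.2.le, ?_⟩
      rw [slope_def_field] at hs1
      by_contra h5
      have h6 : 0 ≤ A s - A t' := by linarith [not_lt.1 h5]
      have h7 : s - t' ≤ 0 := by linarith [hs2.2]
      exact absurd hs1 (not_lt.2 (div_nonpos_of_nonneg_of_nonpos h6 h7))
  -- the last point before `s` with `φ₀ ≤ A`
  have hcont : ContinuousOn A (Icc t s) := hA.cφ.mono (Icc_subset_Icc ht (hst'.trans ht'))
  let S : Set ℝ := Icc t s ∩ A ⁻¹' Ici φ₀
  have hSc : IsCompact S :=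
    isCompact_Icc.of_isClosed_subset (hcont.preimage_isClosed_of_isClosed isClosed_Icc isClosed_Ici)
      inter_subset_left
  have hSne : S.Nonempty := ⟨t, ⟨le_rfl, hts.le⟩, h⟩
  have hc := hSc.sSup_mem hSne
  set c := sSup S with hcdef
  have hcφ : φ₀ ≤ A c := hc.2
  have hct : t ≤ c := hc.1.1
  have hcs : c < s := by
    refine lt_of_le_of_ne hc.1.2 ?_
    intro h1
    rw [h1] at hcφ
    exact absurd hAs (not_lt.2 hcφ)
  have hbelow : ∀ r, c < r → r ≤ s → A r < φ₀ := by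
    intro r h1 h2
    by_contra h3
    have h4 : r ∈ S := ⟨⟨hct.trans h1.le, h2⟩, not_lt.1 h3⟩
    exact absurd (le_csSup hSc.bddAbove h4) (not_le.2 h1)
  have hmono : StrictMonoOn A (Icc c s) := by
    refine strictMonoOn_of_deriv_pos (convex_Icc c s) (hcont.mono (Icc_subset_Icc hct le_rfl)) ?_
    intro r hr
    rw [interior_Icc] at hr
    have hrm : r ∈ Ioc 0 T := ⟨lt_of_le_of_lt (ht.trans hct) hr.1, hr.2.le.trans (hst'.trans ht')⟩
    rw [(hA.dφ r hrm).deriv]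
    exact hpos r hrm (hbelow r hr.1 hr.2.le).le
  have h1 := hmono ⟨le_rfl, hcs.le⟩ ⟨hcs.le, le_rfl⟩ hcs
  exact absurd (h1.trans hAs) (not_lt.2 hcφ)

end IArms

theorem prfArms (hP : claimPot) (hStr : claimStr) (hLow : claimLow) : claimArms := by
  have _ := hP
  intro k b φ₀ d T A ψA B ψB hpot hd hT hA hB hAB hA0 hψA hψB hne hψAT hψBT
  obtain ⟨hlt, hψlt⟩ := hStr k b φ₀ d T A ψA B ψB hpot hd hT hA hB hAB hψA hψB hne hψAT hψBT
  obtain ⟨-, hBlt, hstar⟩ := hLow k b φ₀ d T A ψA B ψB hpot hd hT hA hB hAB hA0 hψA hψB hlt hψlt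
    hψAT hψBT
  refine ⟨hBlt, hstar T ⟨hT, le_rfl⟩ hψAT.le, ?_, ?_⟩
  · intro h0 t ht
    exact IArms.forward hA hstar le_rfl ht.1 ht.2 h0.ge
  · intro t ht t' ht' h1 h2
    rcases lt_trichotomy t t' with h | h | h
    · exact absurd (IArms.forward hA hstar ht.1.le h ht'.2 h1.ge) (by rw [h2]; exact lt_irrefl _)
    · exact h
    · exact absurd (IArms.forward hA hstar ht'.1.le h ht.2 h2.ge) (by rw [h1]; exact lt_irrefl _)

end Pool.Agent.Work.MP_408f4b_gt
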