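import Pool.Agent.Work.MP_408f4b_gt.Stmts

set_option autoImplicit false

/-!
# The coordinate functions are Steklov eigenfunctions with eigenvalue one
-/

namespace Pool.Agent.Work.MP_408f4b_gt

open MeasureTheory Set Filter Topology

namespace ICoord

/-- The gradient of the coordinate function. -/
noncomputable def V (p q : ℕ) (i : Fin p) : Amb p q :=
  WithLp.toLp 2 (EuclideanSpace.single i (1 : ℝ), (0 : E q))

theorem inner_V {p q : ℕ} (i : Fin p) (X : Amb p q) : inner ℝ (V p q i) X = X.fst i := by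
  rw [WithLp.prod_inner_apply]
  simp only [V, inner_zero_left, add_zero]
  rw [EuclideanSpace.inner_single_left]
  simp

theorem norm_V {p q : ℕ} (i : Fin p) : ‖V p q i‖ ^ 2 = 1 := by
  rw [WithLp.prod_norm_sq_eq_of_L2]
  simp [V]

theorem fun_eq {p q : ℕ} (i : Fin p) :
    (fun X : Amb p q => X.fst i) = (InnerProductSpace.toDual ℝ (Amb p q)) (V p q i) := by
  funext X
  rw [InnerProductSpace.toDual_apply_apply, inner_V]

theorem contDiff_coord {p q : ℕ} (i : Fin p) (n : WithTop ℕ∞) :
    ContDiff ℝ n (fun X : Amb p q => X.fst i) := by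
  rw [fun_eq]
  exact ContinuousLinearMap.contDiff _

theorem grad_coord {p q : ℕ} (i : Fin p) (X : Amb p q) :
    gradient (fun X : Amb p q => X.fst i) X = V p q i := by
  have h : HasFDerivAt (fun X : Amb p q => X.fst i)
      ((InnerProductSpace.toDual ℝ (Amb p q)) (V p q i)) X := by
    rw [fun_eq]
    exact ContinuousLinearMap.hasFDerivAt _
  exact (hasGradientAt_iff_hasFDerivAt.2 h).gradient

theorem gradSq_coord {p q : ℕ} (P : Profile p q) (i : Fin p) (s : ℝ) (θ : Sph p) (ω : Sph q) :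
    P.gradSq (fun X : Amb p q => X.fst i) s θ ω = 1 - deriv P.y s ^ 2 * (θ : E p) i ^ 2 := by
  unfold Profile.gradSq
  rw [grad_coord, norm_V, inner_V]
  simp only [Profile.nu, WithLp.toLp_fst, PiLp.smul_apply, smul_eq_mul]
  ring

instance fin_sig (n : ℕ) : IsFiniteMeasure (sig n) := by
  unfold sig
  infer_instance

theorem sig_pos {n : ℕ} (hn : 1 ≤ n) : 0 < (sig n).real univ := by
  unfold sig
  rw [Measure.toSphere_real_apply_univ]
  have h1 : 0 < (Module.finrank ℝ (E n) : ℝ) := by
    rw [finrank_euclideanSpace_fin]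
    exact_mod_cast hn
  have h2 : 0 < (volume : Measure (E n)).real (Metric.ball 0 1) := by
    rw [measureReal_def]
    refine ENNReal.toReal_pos ?_ ?_
    · exact (Metric.measure_ball_pos _ _ one_pos).ne'
    · exact measure_ball_lt_top.ne
  exact mul_pos h1 h2

theorem int_sq (hM : claimMom) {p : ℕ} (i : Fin p) (c : ℝ) :
    ∫ θ : Sph p, (1 - c * (θ : E p) i ^ 2) ∂sig p =
      (sig p).real univ - c * ((sig p).real univ / p) := by
  have hi : Integrable (fun θ : Sph p => (θ : E p) i ^ 2) (sig p) := by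
    refine Continuous.integrable_of_hasCompactSupport ?_ ?_
    · fun_prop
    · exact HasCompactSupport.of_compactSpace _
  rw [integral_sub (integrable_const _) (hi.const_mul c), integral_const, integral_const_mul,
    (hM p i).2]
  simp

theorem energy_coord (hM : claimMom) {p q : ℕ} (P : Profile p q) (i : Fin p) (hp : 2 ≤ p) :
    P.energy (fun X : Amb p q => X.fst i) = ((sig p).real univ * (sig q).real univ / p) *
      ∫ s in (0 : ℝ)..P.L, ((p : ℝ) - deriv P.y s ^ 2) * P.w s := by
  unfold Profile.energy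
  rw [← intervalIntegral.integral_const_mul]
  congr 1
  funext s
  have h1 : (∫ θ : Sph p, ∫ ω : Sph q, P.gradSq (fun X : Amb p q => X.fst i) s θ ω ∂sig q ∂sig p)
      = (sig q).real univ * ((sig p).real univ - deriv P.y s ^ 2 * ((sig p).real univ / p)) := by
    simp only [gradSq_coord, integral_const, smul_eq_mul]
    rw [integral_const_mul, int_sq hM]
  rw [h1]
  have hp' : (p : ℝ) ≠ 0 := by
    have : 0 < p := by omega
    exact_mod_cast this.ne'
  field_simp

theorem bdry_coord (hM : claimMom) {p q : ℕ} (P : Profile p q) (i : Fin p) :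
    P.bdry (fun X : Amb p q => X.fst i) = 0 := by
  have h1 : ∀ s : ℝ, (∫ θ : Sph p, ∫ _ω : Sph q, P.x s * (θ : E p) i ∂sig q ∂sig p) = 0 := by
    intro s
    simp only [integral_const, smul_eq_mul]
    rw [integral_const_mul, integral_const_mul, (hM p i).1, mul_zero, mul_zero]
  have h2 : ∀ s : ℝ, (∫ θ : Sph p, ∫ ω : Sph q, (P.pt s θ ω).fst i ∂sig q ∂sig p) = 0 := by
    intro s
    rw [← h1 s]
    rfl
  unfold Profile.bdry
  simp only [h2, zero_mul, add_zero]

theorem bdry_sq (hM : claimMom) {p q : ℕ} (P : Profile p q) (i : Fin p) :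
    P.bdry (fun X : Amb p q => X.fst i ^ 2) = ((sig p).real univ * (sig q).real univ / p) *
      (P.x P.L ^ 2 * P.w P.L + P.x 0 ^ 2 * P.w 0) := by
  have h1 : ∀ s : ℝ, (∫ θ : Sph p, ∫ _ω : Sph q, (P.x s * (θ : E p) i) ^ 2 ∂sig q ∂sig p) =
      ((sig p).real univ * (sig q).real univ / p) * P.x s ^ 2 := by
    intro s
    simp only [integral_const, smul_eq_mul, mul_pow]
    rw [integral_const_mul, integral_const_mul, (hM p i).2]
    ring
  have h2 : ∀ s : ℝ, (∫ θ : Sph p, ∫ ω : Sph q, (P.pt s θ ω).fst i ^ 2 ∂sig q ∂sig p) =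
      ((sig p).real univ * (sig q).real univ / p) * P.x s ^ 2 := by
    intro s
    rw [← h1 s]
    rfl
  unfold Profile.bdry
  simp only [h2]
  ring

theorem cont_dx {p q : ℕ} (P : Profile p q) : Continuous (deriv P.x) :=
  P.x_C2.continuous_deriv (by norm_num)

theorem cont_dy {p q : ℕ} (P : Profile p q) : Continuous (deriv P.y) :=
  P.y_C2.continuous_deriv (by norm_num)

theorem cont_w {p q : ℕ} (P : Profile p q) : Continuous P.w := by
  unfold Profile.w
  exact (P.x_C2.continuous.pow _).mul (P.y_C2.continuous.pow _)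

theorem flux (hE : claimEqn) (hPC : claimPC) {p q : ℕ} (P : Profile p q) (hp : 2 ≤ p)
    (hq : 2 ≤ q) :
    ∫ s in (0 : ℝ)..P.L, ((p : ℝ) - deriv P.y s ^ 2) * P.w s =
      P.x P.L ^ 2 * P.w P.L + P.x 0 ^ 2 * P.w 0 := by
  obtain ⟨hc, _, hw0, hw, _⟩ := hPC p q P
  have hG : ContinuousOn (fun s => (P.w s * deriv P.x s) * P.x s) (Icc 0 P.L) :=
    (((cont_w P).mul (cont_dx P)).mul P.x_C2.continuous).continuousOn
  have hd : ∀ s ∈ Ioo 0 P.L, HasDerivAt (fun s => (P.w s * deriv P.x s) * P.x s)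
      (((p : ℝ) - deriv P.y s ^ 2) * P.w s) s := by
    intro s hs
    obtain ⟨hs0, hsL⟩ := hs
    have ha : s / 2 < P.L := by linarith
    obtain ⟨hxa, hya, _⟩ := P.interior (s / 2) ⟨by linarith, ha⟩
    have hC := hc (s / 2) (by linarith) ha hxa hya
    have hsm : s ∈ Icc (s / 2) P.L := ⟨by linarith, hsL.le⟩
    obtain ⟨_, _, h3, _⟩ := hE p q (s / 2) P.L P.x P.y hp hq ha hC s hsm
    have hx : HasDerivAt P.x (deriv P.x s) s :=
      ((P.x_C2.differentiable (by norm_num)) s).hasDerivAt
    have h4 := h3.mul hx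
    have h5 : (fun s => (P.w s * deriv P.x s) * P.x s) =
        (fun t => wt p q P.x P.y t * deriv P.x t) * P.x := by
      funext t
      rw [hw t]
      rfl
    rw [h5]
    have hx0 : 0 < P.x s := (hC.2.2 s hsm).1
    have harc := P.arclength s ⟨hs0.le, hsL.le⟩
    refine h4.congr_deriv ?_
    rw [hw s]
    field_simp
    linear_combination (wt p q P.x P.y s) * harc
  have hI : IntervalIntegrable (fun s => ((p : ℝ) - deriv P.y s ^ 2) * P.w s) volume 0 P.L :=
    ((continuous_const.sub ((cont_dy P).pow 2)).mul (cont_w P)).intervalIntegrable _ _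
  rw [intervalIntegral.integral_eq_sub_of_hasDerivAt_of_le P.L_pos.le hG hd hI]
  have hL : deriv P.x P.L = P.x P.L := P.final.2.2.2.1
  have h0 : (P.w 0 * deriv P.x 0) * P.x 0 = -(P.x 0 ^ 2 * P.w 0) := by
    rcases P.initial with h | h | h
    · rw [h.2.2.2.1]
      ring
    · rw [hw0 (Or.inl h.1) hp hq]
      ring
    · rw [hw0 (Or.inr h.2.1) hp hq]
      ring
  rw [h0, hL]
  ring

end ICoord

theorem prfCoord (hE : claimEqn) (hPC : claimPC) (hM : claimMom) : claimCoord := by
  intro p q P i hp hq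
  have hSp := ICoord.sig_pos (n := p) (by omega)
  have hSq := ICoord.sig_pos (n := q) (by omega)
  have hp0 : (0 : ℝ) < p := by
    have : 0 < p := by omega
    exact_mod_cast this
  have hc : 0 < (sig p).real univ * (sig q).real univ / p := div_pos (mul_pos hSp hSq) hp0
  refine ⟨ICoord.contDiff_coord i 1, ICoord.bdry_coord hM P i, ?_, ?_⟩
  · rw [ICoord.bdry_sq hM]
    refine mul_pos hc ?_
    have hxL := P.final.1
    have hyL := P.final.2.1
    have hwL : 0 < P.w P.L := mul_pos (pow_pos hxL _) (pow_pos hyL _)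
    have hx0 : 0 ≤ P.x 0 ∧ 0 ≤ P.y 0 := by
      rcases P.initial with h | h | h
      · exact ⟨h.1.le, h.2.1.le⟩
      · exact ⟨h.1.ge, h.2.1.le⟩
      · exact ⟨h.1.le, h.2.1.ge⟩
    have hw0 : 0 ≤ P.w 0 := mul_nonneg (pow_nonneg hx0.1 _) (pow_nonneg hx0.2 _)
    have h1 : 0 < P.x P.L ^ 2 * P.w P.L := mul_pos (pow_pos hxL 2) hwL
    have h2 : 0 ≤ P.x 0 ^ 2 * P.w 0 := mul_nonneg (sq_nonneg _) hw0
    linarith
  · rw [ICoord.energy_coord hM P i hp, ICoord.bdry_sq hM, ICoord.flux hE hPC P hp hq]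

end Pool.Agent.Work.MP_408f4b_gt
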