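import Pool.Agent.Work.MP_408f4b_gt.Stmts

set_option autoImplicit false

/-!
# A chord meets the cone at most once (the general case)
-/

namespace Pool.Agent.Work.MP_408f4b_gt

open MeasureTheory Set Filter Topology

namespace ICross

/-- The conclusion. -/
def Con (p q : ℕ) (L : ℝ) (x y : ℝ → ℝ) : Prop :=
  DD p q x y 0 ≠ 0 ∧ DD p q x y L ≠ 0 ∧
  ∀ s ∈ Icc 0 L, ∀ s' ∈ Icc 0 L, DD p q x y s = 0 → DD p q x y s' = 0 → s = s'

/-- The data of the nearest point. -/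
def Dat (L : ℝ) (x y : ℝ → ℝ) (s₀ : ℝ) : Prop :=
  s₀ ∈ Ioo 0 L ∧ x s₀ * deriv x s₀ + y s₀ * deriv y s₀ = 0 ∧
    (∀ s ∈ Ico 0 s₀, x s * deriv x s + y s * deriv y s < 0) ∧
    (∀ s ∈ Ioc s₀ L, 0 < x s * deriv x s + y s * deriv y s)

theorem DD_swap (p q : ℕ) (x y : ℝ → ℝ) (s : ℝ) : DD q p y x s = -DD p q x y s := by
  unfold DD; ring

theorem DD_rev (p q : ℕ) (L : ℝ) (x y : ℝ → ℝ) (s : ℝ) :
    DD p q (fun s => x (L - s)) (fun s => y (L - s)) s = DD p q x y (L - s) := rfl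

theorem dat_rev {L : ℝ} {x y : ℝ → ℝ} {s₀ : ℝ} (h : Dat L x y s₀) :
    Dat L (fun s => x (L - s)) (fun s => y (L - s)) (L - s₀) := by
  obtain ⟨h1, h2, h3, h4⟩ := h
  refine ⟨⟨by linarith [h1.2], by linarith [h1.1]⟩, ?_, ?_, ?_⟩
  · simp only [deriv_comp_const_sub, sub_sub_cancel]
    linarith
  · intro s hs
    have := h4 (L - s) ⟨by linarith [hs.2], by linarith [hs.1]⟩
    simp only [deriv_comp_const_sub]
    linarith
  · intro s hs
    have := h3 (L - s) ⟨by linarith [hs.2], by linarith [hs.1]⟩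
    simp only [deriv_comp_const_sub]
    linarith

theorem dat_swap {L : ℝ} {x y : ℝ → ℝ} {s₀ : ℝ} (h : Dat L x y s₀) : Dat L y x s₀ := by
  obtain ⟨h1, h2, h3, h4⟩ := h
  exact ⟨h1, by linarith, fun s hs => by linarith [h3 s hs], fun s hs => by linarith [h4 s hs]⟩

theorem con_of_swap {p q : ℕ} {L : ℝ} {x y : ℝ → ℝ} (h : Con q p L y x) : Con p q L x y := by
  obtain ⟨h1, h2, h3⟩ := h
  simp only [DD_swap p q x y, ne_eq, neg_eq_zero] at h1 h2 h3
  exact ⟨h1, h2, h3⟩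

theorem con_of_rev {p q : ℕ} {L : ℝ} {x y : ℝ → ℝ}
    (h : Con p q L (fun s => x (L - s)) (fun s => y (L - s))) : Con p q L x y := by
  obtain ⟨h1, h2, h3⟩ := h
  simp only [DD_rev, sub_zero, sub_self] at h1 h2 h3
  refine ⟨h2, h1, ?_⟩
  intro s hs s' hs' e e'
  have := h3 (L - s) ⟨by linarith [hs.2], by linarith [hs.1]⟩ (L - s')
    ⟨by linarith [hs'.2], by linarith [hs'.1]⟩ (by rwa [sub_sub_cancel]) (by rwa [sub_sub_cancel])
  linarith

theorem core (hS : claimSym) (h0 : claimCross0) {p q : ℕ} {L : ℝ} {x y : ℝ → ℝ} {s₀ : ℝ}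
    (hp : 2 ≤ p) (hq : 2 ≤ q) (hC : Chord p q L x y) (hD : Dat L x y s₀)
    (hm : x s₀ * deriv y s₀ - y s₀ * deriv x s₀ ≠ 0) (hd : 0 ≤ DD p q x y s₀) :
    Con p q L x y := by
  rcases lt_or_gt_of_ne hm with hm | hm
  · apply con_of_rev
    have hR := dat_rev hD
    obtain ⟨h1, h2, h3, h4⟩ := hR
    refine h0 p q L _ _ (L - s₀) hp hq (hS.1 p q L x y hC).1 h1 h2 h3 h4 ?_ ?_
    · simp only [deriv_comp_const_sub, sub_sub_cancel]
      linarith
    · rw [DD_rev, sub_sub_cancel]; exact hd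
  · obtain ⟨h1, h2, h3, h4⟩ := hD
    exact h0 p q L x y s₀ hp hq hC h1 h2 h3 h4 hm hd

end ICross

theorem prfCross (hN : claimNear) (hS : claimSym) (h0 : claimCross0) : claimCross := by
  intro p q L x y hp hq hC
  obtain ⟨s₀, hs₀, h1, h2, h3, h4⟩ := hN p q L x y hp hq hC
  have hD : ICross.Dat L x y s₀ := ⟨hs₀, h1, h2, h3⟩
  have hx : 0 < x s₀ := (hC.curve.2.2 s₀ ⟨hs₀.1.le, hs₀.2.le⟩).1
  have hy : 0 < y s₀ := (hC.curve.2.2 s₀ ⟨hs₀.1.le, hs₀.2.le⟩).2.1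
  have hm : x s₀ * deriv y s₀ - y s₀ * deriv x s₀ ≠ 0 := by
    intro h
    rw [h] at h4
    have : 0 < x s₀ ^ 2 + y s₀ ^ 2 := by positivity
    norm_num at h4
    linarith
  rcases le_total 0 (DD p q x y s₀) with hd | hd
  · exact ICross.core hS h0 hp hq hC hD hm hd
  · apply ICross.con_of_swap
    refine ICross.core hS h0 hq hp (hS.1 p q L x y hC).2 (ICross.dat_swap hD) ?_ ?_
    · intro h; apply hm; linarith
    · rw [ICross.DD_swap]; linarith

end Pool.Agent.Work.MP_408f4b_gt
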