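import Pool.Agent.Work.MP_408f4b_gt.Stmts

/-!
# MP_408f4b_gt, block FL, item Cross0
-/

set_option autoImplicit false

namespace Pool.Agent.Work.MP_408f4b_gt

open MeasureTheory Set Filter Topology

namespace ICross0

lemma rad_sq {X Y : ℝ → ℝ} (s : ℝ) : rad X Y s ^ 2 = X s ^ 2 + Y s ^ 2 := by
  unfold rad
  rw [Real.sq_sqrt (by positivity)]

lemma rad_pos {X Y : ℝ → ℝ} {s : ℝ} (hx : 0 < X s) : 0 < rad X Y s := by
  unfold rad
  exact Real.sqrt_pos.2 (by positivity)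

/-- One half of the chord. -/
lemma half (hArm : claimArm) {p q : ℕ} {ℓ ε : ℝ} {X Y : ℝ → ℝ} (hp : 2 ≤ p) (hq : 2 ≤ q)
    (hℓ : 0 < ℓ) (hε : ε = 1 ∨ ε = -1) (hC : Curve p q 0 ℓ X Y)
    (h0 : X 0 * deriv X 0 + Y 0 * deriv Y 0 = 0)
    (hc : ∀ s ∈ Ioc 0 ℓ, 0 < X s * deriv X s + Y s * deriv Y s)
    (hm : 0 < ε * (X 0 * deriv Y 0 - Y 0 * deriv X 0))
    (hf : X ℓ * deriv Y ℓ - Y ℓ * deriv X ℓ = 0) (hr : rad X Y ℓ = 1) :
    ∃ φ ψ g : ℝ → ℝ, StrictMonoOn g (Icc 0 ℓ) ∧ ContinuousOn g (Icc 0 ℓ) ∧ g 0 = 0 ∧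
      g ℓ = Real.log (1 / rad X Y 0) ∧ 0 < Real.log (1 / rad X Y 0) ∧
      Arm (kk p q) ((p : ℝ) + q - 1) (Real.log (1 / rad X Y 0)) φ ψ ∧ ψ 0 = ε * (Real.pi / 2) ∧
      ψ (Real.log (1 / rad X Y 0)) = 0 ∧
      (∀ s ∈ Icc 0 ℓ, φ (g s) = Real.arctan (Y s / X s)) ∧
      ∀ s, g s = Real.log (rad X Y s / rad X Y 0) := by
  obtain ⟨φ, ψ, hT, hA, hψ0, hs⟩ := hArm p q ℓ ε X Y hp hq hℓ hε hC h0 hc hm
  rw [hr] at hT hA hs
  obtain ⟨hX, hY, hCur⟩ := hC
  have hXc : Continuous X := hX.continuous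
  have hYc : Continuous Y := hY.continuous
  have hpos : ∀ s ∈ Icc 0 ℓ, 0 < rad X Y s := fun s hs' => rad_pos (hCur s hs').1
  have hr0 : 0 < rad X Y 0 := hpos 0 ⟨le_refl _, hℓ.le⟩
  have hradc : Continuous (rad X Y) := by
    unfold rad
    exact Real.continuous_sqrt.comp ((hXc.pow 2).add (hYc.pow 2))
  -- the square of the radius is strictly increasing
  have hmono : StrictMonoOn (fun s => X s ^ 2 + Y s ^ 2) (Icc 0 ℓ) := by
    refine strictMonoOn_of_deriv_pos (convex_Icc 0 ℓ)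
      ((hXc.pow 2).add (hYc.pow 2)).continuousOn fun s hs' => ?_
    rw [interior_Icc] at hs'
    have hdX : HasDerivAt X (deriv X s) s :=
      (hX.differentiable (by norm_num) s).hasDerivAt
    have hdY : HasDerivAt Y (deriv Y s) s :=
      (hY.differentiable (by norm_num) s).hasDerivAt
    have hd : HasDerivAt (fun s => X s ^ 2 + Y s ^ 2) (2 * X s * deriv X s + 2 * Y s * deriv Y s)
        s := by
      refine ((hdX.fun_pow 2).fun_add (hdY.fun_pow 2)).congr_deriv ?_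
      norm_num
    rw [hd.deriv]
    have := hc s ⟨hs'.1, hs'.2.le⟩
    linarith
  have hrmono : StrictMonoOn (rad X Y) (Icc 0 ℓ) := by
    intro a ha b hb hab
    have h1 := hmono ha hb hab
    unfold rad
    exact Real.sqrt_lt_sqrt (by positivity) h1
  refine ⟨φ, ψ, fun s => Real.log (rad X Y s / rad X Y 0), ?_, ?_, ?_, ?_, hT, hA, hψ0, ?_, ?_,
    fun s => rfl⟩
  · intro a ha b hb hab
    have h1 := hrmono ha hb hab
    refine Real.log_lt_log (div_pos (hpos a ha) hr0) ?_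
    exact div_lt_div_of_pos_right h1 hr0
  · refine ContinuousOn.log (hradc.continuousOn.div_const _) fun s hs' => ?_
    exact (div_pos (hpos s hs') hr0).ne'
  · show Real.log (rad X Y 0 / rad X Y 0) = 0
    rw [div_self hr0.ne', Real.log_one]
  · show Real.log (rad X Y ℓ / rad X Y 0) = _
    rw [hr]
  · have h1 := (hs ℓ ⟨hℓ.le, le_refl _⟩).2.2
    rw [hr, hf, one_mul] at h1
    have h2 := hA.rψ (Real.log (1 / rad X Y 0)) ⟨hT, le_refl _⟩
    refine (Real.sin_eq_zero_iff_of_lt_of_lt ?_ ?_).1 h1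
    · linarith [h2.1, Real.pi_pos]
    · linarith [h2.2, Real.pi_pos]
  · intro s hs'
    exact (hs s hs').2.1

/-- Two points with the same radius and the same angle agree. -/
lemma pt_eq {x y x' y' : ℝ} (hx : 0 < x) (hx' : 0 < x')
    (h1 : Real.arctan (y / x) = Real.arctan (y' / x')) (h2 : x ^ 2 + y ^ 2 = x' ^ 2 + y' ^ 2) :
    x = x' ∧ y = y' := by
  have h3 := Real.arctan_injective h1
  obtain ⟨k, hk⟩ : ∃ k : ℝ, k = y / x := ⟨_, rfl⟩
  have e1 : y = k * x := by rw [hk]; field_simp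
  have e2 : y' = k * x' := by rw [hk, h3]; field_simp
  rw [e1, e2] at h2
  have h4 : (x ^ 2 - x' ^ 2) * (1 + k ^ 2) = 0 := by linear_combination h2
  have h5 : x ^ 2 - x' ^ 2 = 0 := by
    rcases mul_eq_zero.1 h4 with h | h
    · exact h
    · nlinarith [sq_nonneg k]
  have h6 : x = x' := by
    have : (x - x') * (x + x') = 0 := by linear_combination h5
    rcases mul_eq_zero.1 this with h | h
    · linarith
    · linarith
  exact ⟨h6, by rw [e1, e2, h6]⟩

lemma rad_eq_of_log {X Y X' Y' : ℝ → ℝ} {s s' r : ℝ} (hr : 0 < r) (h1 : 0 < rad X Y s)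
    (h2 : 0 < rad X' Y' s') (h : Real.log (rad X Y s / r) = Real.log (rad X' Y' s' / r)) :
    X s ^ 2 + Y s ^ 2 = X' s' ^ 2 + Y' s' ^ 2 := by
  have h3 : rad X Y s / r = rad X' Y' s' / r :=
    Real.log_injOn_pos (div_pos h1 hr) (div_pos h2 hr) h
  have h4 : rad X Y s = rad X' Y' s' := by
    rw [div_left_inj' hr.ne'] at h3
    exact h3
  rw [← rad_sq, ← rad_sq, h4]

end ICross0

open ICross0

theorem prfCross0 (hK : claimKK) (_hE : claimEqn) (hArm : claimArm) (hA : claimArms) :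
    claimCross0 := by
  intro p q L x y s₀ hp hq hch hs₀ hc0 hneg hpos hm hD
  obtain ⟨hx2, hy2, hcur⟩ := hch.curve
  obtain ⟨hPot, hKK⟩ := hK p q hp hq
  have hs₀0 := hs₀.1
  have hs₀L := hs₀.2
  have hL := hch.L_pos
  -- the two halves
  have dA : ∀ (f : ℝ → ℝ) (s : ℝ), deriv (fun s => f (s₀ + s)) s = deriv f (s₀ + s) := by
    intro f s
    exact deriv_comp_const_add s₀ s (f := f)
  have dB : ∀ (f : ℝ → ℝ) (s : ℝ), deriv (fun s => f (s₀ - s)) s = -deriv f (s₀ - s) := by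
    intro f s
    exact deriv_comp_const_sub s₀ s (f := f)
  have dA2 : ∀ (f : ℝ → ℝ) (s : ℝ), deriv (deriv (fun s => f (s₀ + s))) s =
      deriv (deriv f) (s₀ + s) := by
    intro f s
    have : deriv (fun s => f (s₀ + s)) = fun s => deriv f (s₀ + s) := funext (dA f)
    rw [this, dA]
  have dB2 : ∀ (f : ℝ → ℝ) (s : ℝ), deriv (deriv (fun s => f (s₀ - s))) s =
      deriv (deriv f) (s₀ - s) := by
    intro f s
    have : deriv (fun s => f (s₀ - s)) = fun s => -deriv f (s₀ - s) := funext (dB f)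
    rw [this]
    have h2 := dB (fun s => deriv f s) s
    rw [deriv.fun_neg, h2, neg_neg]
  have hrL : rad x y L = 1 := by
    unfold rad
    rw [hch.final.1, Real.sqrt_one]
  have hr0 : rad x y 0 = 1 := by
    unfold rad
    rw [hch.initial.1, Real.sqrt_one]
  obtain ⟨φA, ψA, gA, mA, cA, gA0, gAT, hT, armA, ψA0, ψAT, vA, gAe⟩ := half hArm
    (p := p) (q := q) (ℓ := L - s₀) (ε := 1)
    (X := fun s => x (s₀ + s)) (Y := fun s => y (s₀ + s)) hp hq (by linarith) (Or.inl rfl)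
    (by
      refine ⟨hx2.comp (contDiff_const.add contDiff_id), hy2.comp (contDiff_const.add contDiff_id),
        fun s hs => ?_⟩
      obtain ⟨h1, h2, h3, h4⟩ := hcur (s₀ + s) ⟨by linarith [hs.1], by linarith [hs.2]⟩
      rw [dA, dA, dA2, dA2]
      exact ⟨h1, h2, h3, h4⟩)
    (by rw [dA, dA, add_zero]; exact hc0)
    (fun s hs => by
      rw [dA, dA]
      exact hpos _ ⟨by linarith [hs.1], by linarith [hs.2]⟩)
    (by rw [dA, dA, add_zero, one_mul]; exact hm)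
    (by
      rw [dA, dA, add_sub_cancel, hch.final.2.1, hch.final.2.2]
      ring)
    (by
      have : rad (fun s => x (s₀ + s)) (fun s => y (s₀ + s)) (L - s₀) = rad x y (s₀ + (L - s₀)) :=
        rfl
      rw [this, add_sub_cancel, hrL])
  obtain ⟨φB, ψB, gB, mB, cB, gB0, gBT, hT', armB, ψB0, ψBT, vB, gBe⟩ := half hArm
    (p := p) (q := q) (ℓ := s₀) (ε := -1)
    (X := fun s => x (s₀ - s)) (Y := fun s => y (s₀ - s)) hp hq hs₀0 (Or.inr rfl)
    (by
      refine ⟨hx2.comp (contDiff_const.sub contDiff_id), hy2.comp (contDiff_const.sub contDiff_id),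
        fun s hs => ?_⟩
      obtain ⟨h1, h2, h3, h4⟩ := hcur (s₀ - s) ⟨by linarith [hs.2], by linarith [hs.1]⟩
      rw [dB, dB, dB2, dB2]
      refine ⟨h1, h2, by rw [neg_sq, neg_sq]; exact h3, ?_⟩
      have : -(deriv x (s₀ - s)) * deriv (deriv y) (s₀ - s) -
          -(deriv y (s₀ - s)) * deriv (deriv x) (s₀ - s) =
          -(deriv x (s₀ - s) * deriv (deriv y) (s₀ - s) -
          deriv y (s₀ - s) * deriv (deriv x) (s₀ - s)) := by ring
      rw [this, h4]
      ring)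
    (by
      rw [dB, dB, sub_zero]
      linarith)
    (fun s hs => by
      rw [dB, dB]
      have := hneg (s₀ - s) ⟨by linarith [hs.2], by linarith [hs.1]⟩
      linarith)
    (by
      rw [dB, dB, sub_zero]
      linarith)
    (by
      rw [dB, dB, sub_self, hch.initial.2.1, hch.initial.2.2]
      ring)
    (by
      have : rad (fun s => x (s₀ - s)) (fun s => y (s₀ - s)) s₀ = rad x y (s₀ - s₀) := rfl
      rw [this, sub_self, hr0])
  have eA0 : rad (fun s => x (s₀ + s)) (fun s => y (s₀ + s)) 0 = rad x y s₀ := by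
    have : rad (fun s => x (s₀ + s)) (fun s => y (s₀ + s)) 0 = rad x y (s₀ + 0) := rfl
    rw [this, add_zero]
  have eB0 : rad (fun s => x (s₀ - s)) (fun s => y (s₀ - s)) 0 = rad x y s₀ := by
    have : rad (fun s => x (s₀ - s)) (fun s => y (s₀ - s)) 0 = rad x y (s₀ - 0) := rfl
    rw [this, sub_zero]
  rw [eA0] at gAT hT armA ψAT gAe
  rw [eB0] at gBT hT' armB ψBT gBe
  obtain ⟨T, hTe⟩ : ∃ T : ℝ, T = Real.log (1 / rad x y s₀) := ⟨_, rfl⟩
  rw [← hTe] at gAT hT armA ψAT gBT hT' armB ψBT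
  rw [one_mul] at ψA0
  rw [neg_one_mul] at ψB0
  have hrs : 0 < rad x y s₀ := rad_pos (hcur s₀ ⟨hs₀0.le, hs₀L.le⟩).1
  have hd : (0 : ℝ) < (p : ℝ) + q - 1 := by
    have h1 : (2 : ℝ) ≤ p := by exact_mod_cast hp
    have h2 : (2 : ℝ) ≤ q := by exact_mod_cast hq
    linarith
  have vA' : ∀ s ∈ Icc s₀ L, φA (gA (s - s₀)) = Real.arctan (y s / x s) := by
    intro s hs
    have := vA (s - s₀) ⟨by linarith [hs.1], by linarith [hs.2]⟩
    simp only [add_sub_cancel] at this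
    exact this
  have vB' : ∀ s ∈ Icc 0 s₀, φB (gB (s₀ - s)) = Real.arctan (y s / x s) := by
    intro s hs
    have := vB (s₀ - s) ⟨by linarith [hs.2], by linarith [hs.1]⟩
    simp only [sub_sub_cancel] at this
    exact this
  have hφ0 : φA 0 = Real.arctan (y s₀ / x s₀) := by
    have := vA' s₀ ⟨le_refl _, hs₀L.le⟩
    rwa [sub_self, gA0] at this
  have hφ0' : φB 0 = Real.arctan (y s₀ / x s₀) := by
    have := vB' s₀ ⟨hs₀0.le, le_refl _⟩
    rwa [sub_self, gB0] at this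
  have hle : φA 0 ≤ ang p q := by
    rw [hφ0]
    have h1 := hKK (x s₀) (y s₀) (hcur s₀ ⟨hs₀0.le, hs₀L.le⟩).1 (hcur s₀ ⟨hs₀0.le, hs₀L.le⟩).2.1
    rcases hD.lt_or_eq with h | h
    · exact (h1.1.2 h).le
    · exact (h1.2.2 h.symm).le
  have hne : ∀ t ∈ Ioc 0 T, φA t ≠ φB t := by
    intro t ht heq
    obtain ⟨s, hs, hst⟩ : t ∈ gA '' Icc 0 (L - s₀) := by
      have := intermediate_value_Icc (by linarith : (0 : ℝ) ≤ L - s₀) cA
      rw [gA0, gAT] at this
      exact this ⟨ht.1.le, ht.2⟩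
    obtain ⟨s', hs', hst'⟩ : t ∈ gB '' Icc 0 s₀ := by
      have := intermediate_value_Icc hs₀0.le cB
      rw [gB0, gBT] at this
      exact this ⟨ht.1.le, ht.2⟩
    have h1 := vA s hs
    have h2 := vB s' hs'
    rw [hst] at h1
    rw [hst', ← heq, h1] at h2
    have c1 := hcur (s₀ + s) ⟨by linarith [hs.1], by linarith [hs.2]⟩
    have c2 := hcur (s₀ - s') ⟨by linarith [hs'.2], by linarith [hs'.1]⟩
    have h3 : Real.log (rad (fun s => x (s₀ + s)) (fun s => y (s₀ + s)) s / rad x y s₀) =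
        Real.log (rad (fun s => x (s₀ - s)) (fun s => y (s₀ - s)) s' / rad x y s₀) := by
      rw [← gAe, ← gBe, hst, hst']
    have h4 := rad_eq_of_log hrs (rad_pos (X := fun s => x (s₀ + s)) c1.1)
      (rad_pos (X := fun s => x (s₀ - s)) c2.1) h3
    obtain ⟨h5, h6⟩ := pt_eq c1.1 c2.1 h2 h4
    have h7 := hch.injOn (x₁ := s₀ + s) ⟨by linarith [hs.1], by linarith [hs.2]⟩
      (x₂ := s₀ - s') ⟨by linarith [hs'.2], by linarith [hs'.1]⟩ (Prod.ext h5 h6)
    have h8 : s = 0 := by linarith [hs.1, hs'.1]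
    rw [h8, gA0] at hst
    linarith [ht.1]
  obtain ⟨r1, r2, r3, r4⟩ := hA (kk p q) (bb p q) (ang p q) ((p : ℝ) + q - 1) T φA ψA φB ψB hPot
    hd hT armA armB (hφ0.trans hφ0'.symm) hle ψA0 ψB0 hne ψAT ψBT
  have zero_iff : ∀ s ∈ Icc 0 L, (DD p q x y s = 0 ↔ Real.arctan (y s / x s) = ang p q) := by
    intro s hs
    exact ((hKK (x s) (y s) (hcur s hs).1 (hcur s hs).2.1).2).symm
  have gBpos : ∀ s ∈ Ico 0 s₀, gB (s₀ - s) ∈ Ioc 0 T := by
    intro s hs
    constructor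
    · rw [← gB0]
      exact mB ⟨le_refl _, hs₀0.le⟩ ⟨by linarith [hs.2], by linarith [hs.1]⟩ (by linarith [hs.2])
    · rw [← gBT]
      exact mB.monotoneOn ⟨by linarith [hs.2], by linarith [hs.1]⟩ ⟨hs₀0.le, le_refl _⟩
        (by linarith [hs.1])
  have gApos : ∀ s ∈ Ioc s₀ L, gA (s - s₀) ∈ Ioc 0 T := by
    intro s hs
    constructor
    · rw [← gA0]
      exact mA ⟨le_refl _, by linarith⟩ ⟨by linarith [hs.1], by linarith [hs.2]⟩
        (by linarith [hs.1])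
    · rw [← gAT]
      exact mA.monotoneOn ⟨by linarith [hs.1], by linarith [hs.2]⟩ ⟨by linarith, le_refl _⟩
        (by linarith [hs.2])
  have hlow : ∀ s ∈ Ico 0 s₀, DD p q x y s ≠ 0 := by
    intro s hs h
    rw [zero_iff s ⟨hs.1, by linarith [hs.2]⟩, ← vB' s ⟨hs.1, hs.2.le⟩] at h
    have := r1 _ (gBpos s hs)
    linarith
  refine ⟨hlow 0 ⟨le_refl _, hs₀0⟩, ?_, ?_⟩
  · intro h
    rw [zero_iff L ⟨hL.le, le_refl _⟩, ← vA' L ⟨hs₀L.le, le_refl _⟩, gAT] at h
    linarith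
  · have key : ∀ s ∈ Icc 0 L, DD p q x y s = 0 → s₀ ≤ s := by
      intro s hs h
      by_contra hlt
      push Not at hlt
      exact hlow s ⟨hs.1, hlt⟩ h
    have ang_of : ∀ s ∈ Icc 0 L, DD p q x y s = 0 → φA (gA (s - s₀)) = ang p q := by
      intro s hs h
      rw [vA' s ⟨key s hs h, hs.2⟩, ← zero_iff s hs]
      exact h
    have at0 : DD p q x y s₀ = 0 → ∀ s ∈ Icc 0 L, DD p q x y s = 0 → s = s₀ := by
      intro h s hs h'
      have h1 := ang_of s₀ ⟨hs₀0.le, hs₀L.le⟩ h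
      rw [sub_self, gA0] at h1
      by_contra hne'
      have h2 : s₀ < s := lt_of_le_of_ne (key s hs h') (fun e => hne' e.symm)
      have h3 := r3 h1 _ (gApos s ⟨h2, hs.2⟩)
      rw [ang_of s hs h'] at h3
      exact lt_irrefl _ h3
    intro s hs s' hs' h h'
    rcases (key s hs h).eq_or_lt with e | hlt
    · rw [← e] at h
      rw [← e, at0 h s' hs' h']
    · rcases (key s' hs' h').eq_or_lt with e' | hlt'
      · rw [← e'] at h'
        rw [← e', at0 h' s hs h]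
      · have h1 := r4 _ (gApos s ⟨hlt, hs.2⟩) _ (gApos s' ⟨hlt', hs'.2⟩) (ang_of s hs h)
          (ang_of s' hs' h')
        have h2 := mA.injOn (x₁ := s - s₀) ⟨by linarith, by linarith [hs.2]⟩
          (x₂ := s' - s₀) ⟨by linarith, by linarith [hs'.2]⟩ h1
        linarith

end Pool.Agent.Work.MP_408f4b_gt
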