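import Pool.Agent.Work.MP_408f4b_gt.Stmts

/-!
# The Efron-Stein inequality
-/

set_option autoImplicit false

namespace Pool.Agent.Work.MP_408f4b_gt

open MeasureTheory Set Filter Topology

namespace IES

/-- Linearity of the integral. -/
theorem int3 {X : Type} [MeasurableSpace X] {μ : Measure X} {a b c : X → ℝ}
    (ha : Integrable a μ) (hb : Integrable b μ) (hc : Integrable c μ) (k : ℝ) :
    ∫ x, (a x - k * b x + c x) ∂μ = ∫ x, a x ∂μ - k * ∫ x, b x ∂μ + ∫ x, c x ∂μ := by
  have h1 : Integrable (fun x => k * b x) μ := hb.const_mul k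
  have h2 : Integrable (fun x => a x - k * b x) μ := ha.sub h1
  rw [integral_add h2 hc, integral_sub ha h1, integral_const_mul]

/-- Jensen's inequality for the square and a probability measure. -/
theorem jensen {X : Type} [MeasurableSpace X] {μ : Measure X} [IsProbabilityMeasure μ]
    {h : X → ℝ} (h1 : Integrable h μ) (h2 : Integrable (fun x => h x ^ 2) μ) :
    (∫ x, h x ∂μ) ^ 2 ≤ ∫ x, h x ^ 2 ∂μ := by
  set c := ∫ x, h x ∂μ with hc
  have h0 : 0 ≤ ∫ x, (h x - c) ^ 2 ∂μ := integral_nonneg fun x => sq_nonneg _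
  have h3 : ∫ x, (h x - c) ^ 2 ∂μ = ∫ x, h x ^ 2 ∂μ - c ^ 2 := by
    have h4 : (fun x => (h x - c) ^ 2) = fun x => h x ^ 2 - (2 * c) * h x + c ^ 2 := by
      funext x
      ring
    rw [h4, int3 h2 h1 (integrable_const _), integral_const, ← hc, probReal_univ, one_smul]
    ring
  linarith

/-- A square integrable function is integrable. -/
theorem int_of_sq {X : Type} [MeasurableSpace X] {μ : Measure X} [IsProbabilityMeasure μ]
    {h : X → ℝ} (hm : Measurable h) (h2 : Integrable (fun x => h x ^ 2) μ) : Integrable h μ :=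
  ((memLp_two_iff_integrable_sq hm.aestronglyMeasurable).2 h2).integrable one_le_two

section two

variable {X Y : Type} [MeasurableSpace X] [MeasurableSpace Y] {μ : Measure X} {ν : Measure Y}
  [IsProbabilityMeasure μ] [IsProbabilityMeasure ν] {F : X × Y → ℝ}

theorem meas_m (hF : Measurable F) : Measurable (fun y => ∫ x, F (x, y) ∂μ) :=
  (hF.stronglyMeasurable.integral_prod_left').measurable

theorem meas_n (hF : Measurable F) : Measurable (fun x => ∫ y, F (x, y) ∂ν) :=
  (hF.stronglyMeasurable.integral_prod_right').measurable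

theorem ae_jen (hF : Measurable F) (h2 : Integrable (fun z => F z ^ 2) (μ.prod ν)) :
    ∀ᵐ y ∂ν, (∫ x, F (x, y) ∂μ) ^ 2 ≤ ∫ x, F (x, y) ^ 2 ∂μ := by
  filter_upwards [h2.prod_left_ae] with y hy
  exact jensen (int_of_sq (hF.comp (measurable_id.prodMk measurable_const)) hy) hy

theorem sq_int (hF : Measurable F) (h2 : Integrable (fun z => F z ^ 2) (μ.prod ν)) :
    Integrable (fun y => (∫ x, F (x, y) ∂μ) ^ 2) ν := by
  refine Integrable.mono' h2.integral_prod_right ((meas_m hF).pow_const 2).aestronglyMeasurable ?_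
  filter_upwards [ae_jen hF h2] with y hy
  rw [Real.norm_of_nonneg (sq_nonneg _)]
  exact hy

theorem sq_le (hF : Measurable F) (h2 : Integrable (fun z => F z ^ 2) (μ.prod ν)) :
    ∫ y, (∫ x, F (x, y) ∂μ) ^ 2 ∂ν ≤ ∫ z, F z ^ 2 ∂(μ.prod ν) := by
  rw [integral_prod_symm _ h2]
  exact integral_mono_ae (sq_int hF h2) h2.integral_prod_right (ae_jen hF h2)

theorem sq_int' (hF : Measurable F) (h2 : Integrable (fun z => F z ^ 2) (μ.prod ν)) :
    Integrable (fun x => (∫ y, F (x, y) ∂ν) ^ 2) μ :=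
  sq_int (F := F ∘ Prod.swap) (hF.comp measurable_swap) h2.swap

/-- The inequality for two variables. -/
theorem two (hF : Measurable F) (h2 : Integrable (fun z => F z ^ 2) (μ.prod ν)) :
    ∫ z, F z ^ 2 ∂(μ.prod ν) - (∫ z, F z ∂(μ.prod ν)) ^ 2 ≤
      ∫ y, (∫ x, F (x, y) ^ 2 ∂μ - (∫ x, F (x, y) ∂μ) ^ 2) ∂ν +
      ∫ x, (∫ y, F (x, y) ^ 2 ∂ν - (∫ y, F (x, y) ∂ν) ^ 2) ∂μ := by
  have hI : Integrable F (μ.prod ν) := int_of_sq hF h2
  set m : Y → ℝ := fun y => ∫ x, F (x, y) ∂μ with hm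
  set n : X → ℝ := fun x => ∫ y, F (x, y) ∂ν with hn
  set M : ℝ := ∫ z, F z ∂(μ.prod ν) with hM
  have hm2 : Integrable (fun y => m y ^ 2) ν := sq_int hF h2
  have hn2 : Integrable (fun x => n x ^ 2) μ := sq_int' hF h2
  have hm1 : Integrable m ν := int_of_sq (meas_m hF) hm2
  have hn1 : Integrable n μ := int_of_sq (meas_n hF) hn2
  have e1 : ∫ y, (∫ x, F (x, y) ^ 2 ∂μ - m y ^ 2) ∂ν =
      ∫ z, F z ^ 2 ∂(μ.prod ν) - ∫ y, m y ^ 2 ∂ν := by
    rw [integral_sub h2.integral_prod_right hm2, integral_prod_symm _ h2]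
  have e2 : ∫ x, (∫ y, F (x, y) ^ 2 ∂ν - n x ^ 2) ∂μ =
      ∫ z, F z ^ 2 ∂(μ.prod ν) - ∫ x, n x ^ 2 ∂μ := by
    rw [integral_sub h2.integral_prod_left hn2, integral_prod _ h2]
  have em : ∫ y, m y ∂ν = M := (integral_prod_symm _ hI).symm
  have en : ∫ x, n x ∂μ = M := (integral_prod _ hI).symm
  -- the function `F - n`
  have hLF : MemLp F 2 (μ.prod ν) := (memLp_two_iff_integrable_sq hF.aestronglyMeasurable).2 h2
  have hnm : Measurable n := meas_n hF
  have hLn : MemLp (fun z : X × Y => n z.1) 2 (μ.prod ν) :=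
    (memLp_two_iff_integrable_sq (hnm.comp measurable_fst).aestronglyMeasurable).2
      (hn2.comp_fst ν)
  have hLG : MemLp (fun z : X × Y => F z - n z.1) 2 (μ.prod ν) := hLF.sub hLn
  have hGm : Measurable (fun z : X × Y => F z - n z.1) := hF.sub (hnm.comp measurable_fst)
  have hG2 : Integrable (fun z : X × Y => (F z - n z.1) ^ 2) (μ.prod ν) :=
    (memLp_two_iff_integrable_sq hGm.aestronglyMeasurable).1 hLG
  have hFn : Integrable (fun z : X × Y => F z * n z.1) (μ.prod ν) := hLF.integrable_mul hLn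
  have eFn : ∫ z, F z * n z.1 ∂(μ.prod ν) = ∫ x, n x ^ 2 ∂μ := by
    rw [integral_prod _ hFn]
    refine integral_congr_ae (Eventually.of_forall fun x => ?_)
    show ∫ y, F (x, y) * n x ∂ν = n x ^ 2
    rw [integral_mul_const]
    show n x * n x = n x ^ 2
    ring
  have en2 : ∫ z : X × Y, n z.1 ^ 2 ∂(μ.prod ν) = ∫ x, n x ^ 2 ∂μ := by
    rw [integral_fun_fst (fun x => n x ^ 2), probReal_univ, one_smul]
  have eG : ∫ z : X × Y, (F z - n z.1) ^ 2 ∂(μ.prod ν) =
      ∫ z, F z ^ 2 ∂(μ.prod ν) - ∫ x, n x ^ 2 ∂μ := by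
    have h4 : (fun z : X × Y => (F z - n z.1) ^ 2) =
        fun z => F z ^ 2 - 2 * (F z * n z.1) + n z.1 ^ 2 := by
      funext z
      ring
    rw [h4, int3 h2 hFn (hn2.comp_fst ν), eFn, en2]
    ring
  have eM : ∫ y, (∫ x, (F (x, y) - n x) ∂μ) ^ 2 ∂ν = ∫ y, m y ^ 2 ∂ν - M ^ 2 := by
    have h5 : ∫ y, (∫ x, (F (x, y) - n x) ∂μ) ^ 2 ∂ν = ∫ y, (m y - M) ^ 2 ∂ν := by
      refine integral_congr_ae ?_
      filter_upwards [hI.prod_left_ae] with y hy
      rw [integral_sub hy hn1, en]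
    have h4 : (fun y => (m y - M) ^ 2) = fun y => m y ^ 2 - (2 * M) * m y + M ^ 2 := by
      funext y
      ring
    rw [h5, h4, int3 hm2 hm1 (integrable_const _), integral_const, em, probReal_univ, one_smul]
    ring
  have hJ := sq_le hGm hG2
  rw [eG] at hJ
  have hJ' : ∫ y, m y ^ 2 ∂ν - M ^ 2 ≤ ∫ z, F z ^ 2 ∂(μ.prod ν) - ∫ x, n x ^ 2 ∂μ := by
    rw [← eM]
    exact hJ
  have e3 : (∫ y, (∫ x, F (x, y) ^ 2 ∂μ - (∫ x, F (x, y) ∂μ) ^ 2) ∂ν) =
      ∫ z, F z ^ 2 ∂(μ.prod ν) - ∫ y, m y ^ 2 ∂ν := e1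
  have e4 : (∫ x, (∫ y, F (x, y) ^ 2 ∂ν - (∫ y, F (x, y) ∂ν) ^ 2) ∂μ) =
      ∫ z, F z ^ 2 ∂(μ.prod ν) - ∫ x, n x ^ 2 ∂μ := e2
  rw [e3, e4]
  linarith

end two

theorem meas_upd (n : ℕ) (i : Fin n) :
    Measurable (fun z : (Fin n → ℝ) × ℝ => Function.update z.1 i z.2) := by
  rw [measurable_pi_iff]
  intro j
  by_cases hj : j = i
  · subst hj
    simp only [Function.update_self]
    exact measurable_snd
  · simp only [Function.update_of_ne hj]
    exact (measurable_pi_apply j).comp measurable_fst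

/-- Resampling one coordinate. -/
theorem mp_upd (n : ℕ) (i : Fin n) (μ : Measure ℝ) [IsProbabilityMeasure μ] :
    MeasurePreserving (fun z : (Fin n → ℝ) × ℝ => Function.update z.1 i z.2)
      ((Measure.pi fun _ : Fin n => μ).prod μ) (Measure.pi fun _ : Fin n => μ) := by
  refine ⟨meas_upd n i, ?_⟩
  symm
  apply Measure.pi_eq
  intro s hs
  rw [Measure.map_apply (meas_upd n i) (MeasurableSet.univ_pi hs)]
  have h1 : (fun z : (Fin n → ℝ) × ℝ => Function.update z.1 i z.2) ⁻¹' (Set.pi univ s) =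
      (Set.pi univ (Function.update s i univ)) ×ˢ (s i) := by
    ext z
    simp only [mem_preimage, Set.mem_pi, mem_univ, true_implies, mem_prod]
    constructor
    · intro h
      refine ⟨fun j => ?_, ?_⟩
      · by_cases hj : j = i
        · subst hj
          rw [Function.update_self]
          exact mem_univ _
        · have h3 := h j
          rw [Function.update_of_ne hj] at h3 ⊢
          exact h3
      · have h3 := h i
        rwa [Function.update_self] at h3
    · rintro ⟨h1, h2⟩ j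
      by_cases hj : j = i
      · subst hj
        rw [Function.update_self]
        exact h2
      · have h3 := h1 j
        rw [Function.update_of_ne hj] at h3 ⊢
        exact h3
  rw [h1, Measure.prod_prod, Measure.pi_pi,
    ← Finset.mul_prod_erase Finset.univ (fun j => μ (Function.update s i univ j))
      (Finset.mem_univ i),
    ← Finset.mul_prod_erase Finset.univ (fun j => μ (s j)) (Finset.mem_univ i),
    Function.update_self, measure_univ, one_mul, mul_comm]
  congr 1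
  refine Finset.prod_congr rfl fun j hj => ?_
  rw [Function.update_of_ne (Finset.ne_of_mem_erase hj)]

/-- The variance in the direction `i`. -/
noncomputable def HH (μ : Measure ℝ) {n : ℕ} (F : (Fin n → ℝ) → ℝ) (i : Fin n)
    (x : Fin n → ℝ) : ℝ :=
  ∫ t, F (Function.update x i t) ^ 2 ∂μ - (∫ t, F (Function.update x i t) ∂μ) ^ 2

theorem HH_int {n : ℕ} {μ : Measure ℝ} [IsProbabilityMeasure μ] {F : (Fin n → ℝ) → ℝ}
    (hF : Measurable F) (h2 : Integrable (fun x => F x ^ 2) (Measure.pi fun _ : Fin n => μ))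
    (i : Fin n) : Integrable (HH μ F i) (Measure.pi fun _ : Fin n => μ) := by
  have hm := mp_upd n i μ
  have h3 : Integrable (fun z : (Fin n → ℝ) × ℝ => F (Function.update z.1 i z.2) ^ 2)
      ((Measure.pi fun _ : Fin n => μ).prod μ) :=
    hm.integrable_comp_of_integrable h2
  have h4 : Measurable (fun z : (Fin n → ℝ) × ℝ => F (Function.update z.1 i z.2)) :=
    hF.comp (meas_upd n i)
  exact h3.integral_prod_left.sub (sq_int' h4 h3)

/-- Splitting off the first coordinate. -/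
noncomputable def ce (n : ℕ) : ℝ × (Fin n → ℝ) ≃ᵐ (Fin (n + 1) → ℝ) :=
  (MeasurableEquiv.piFinSuccAbove (fun _ : Fin (n + 1) => ℝ) 0).symm

theorem ce_apply (n : ℕ) (z : ℝ × (Fin n → ℝ)) :
    ce n z = (Fin.cons z.1 z.2 : Fin (n + 1) → ℝ) := by
  show (Fin.insertNth 0 z.1 z.2 : Fin (n + 1) → ℝ) = _
  rw [Fin.insertNth_zero']

theorem mp_ce (n : ℕ) (μ : Measure ℝ) [IsProbabilityMeasure μ] :
    MeasurePreserving (ce n) (μ.prod (Measure.pi fun _ : Fin n => μ))
      (Measure.pi fun _ : Fin (n + 1) => μ) :=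
  (measurePreserving_piFinSuccAbove (fun _ : Fin (n + 1) => μ) 0).symm _

theorem HH_zero (n : ℕ) (μ : Measure ℝ) (F : (Fin (n + 1) → ℝ) → ℝ) (z : ℝ × (Fin n → ℝ)) :
    HH μ F 0 (ce n z) = ∫ t, F (Fin.cons t z.2 : Fin (n + 1) → ℝ) ^ 2 ∂μ -
      (∫ t, F (Fin.cons t z.2 : Fin (n + 1) → ℝ) ∂μ) ^ 2 := by
  unfold HH
  simp only [ce_apply, Fin.update_cons_zero]

theorem HH_succ (n : ℕ) (μ : Measure ℝ) (F : (Fin (n + 1) → ℝ) → ℝ) (i : Fin n)
    (z : ℝ × (Fin n → ℝ)) : HH μ F i.succ (ce n z) =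
      HH μ (fun y : Fin n → ℝ => F (Fin.cons z.1 y : Fin (n + 1) → ℝ)) i z.2 := by
  unfold HH
  have h : ∀ t : ℝ, Function.update (Fin.cons z.1 z.2 : Fin (n + 1) → ℝ) i.succ t =
      (Fin.cons z.1 (Function.update z.2 i t) : Fin (n + 1) → ℝ) := fun t => by
    rw [Fin.cons_update]
  simp only [ce_apply, h]

theorem main (μ : Measure ℝ) [IsProbabilityMeasure μ] : ∀ (n : ℕ) (F : (Fin n → ℝ) → ℝ),
    Measurable F → Integrable (fun x => F x ^ 2) (Measure.pi fun _ : Fin n => μ) →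
    ∫ x, F x ^ 2 ∂(Measure.pi fun _ : Fin n => μ) -
      (∫ x, F x ∂(Measure.pi fun _ : Fin n => μ)) ^ 2 ≤
      ∑ i, ∫ x, HH μ F i x ∂(Measure.pi fun _ : Fin n => μ) := by
  intro n
  induction n with
  | zero =>
    intro F hF h2
    have h0 : F = fun _ => F default := by
      funext x
      exact congrArg F (Subsingleton.elim _ _)
    rw [h0]
    simp
  | succ n ih =>
    intro F hF h2
    have hmp := mp_ce n μ
    set π : Measure (Fin n → ℝ) := Measure.pi fun _ : Fin n => μ with hπ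
    have hF' : Measurable (fun z : ℝ × (Fin n → ℝ) => F (ce n z)) := hF.comp (ce n).measurable
    have h2' : Integrable (fun z : ℝ × (Fin n → ℝ) => F (ce n z) ^ 2) (μ.prod π) :=
      hmp.integrable_comp_of_integrable h2
    have e1 : ∫ x, F x ^ 2 ∂(Measure.pi fun _ : Fin (n + 1) => μ) =
        ∫ z, F (ce n z) ^ 2 ∂(μ.prod π) := (hmp.integral_comp' (fun x => F x ^ 2)).symm
    have e2 : ∫ x, F x ∂(Measure.pi fun _ : Fin (n + 1) => μ) =
        ∫ z, F (ce n z) ∂(μ.prod π) := (hmp.integral_comp' F).symm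
    have hT := two hF' h2'
    rw [e1, e2]
    refine hT.trans ?_
    rw [Fin.sum_univ_succ]
    refine add_le_add (le_of_eq ?_) ?_
    · rw [← hmp.integral_comp' (HH μ F 0)]
      simp only [HH_zero]
      rw [integral_fun_snd (fun y : Fin n → ℝ => ∫ t, F (Fin.cons t y : Fin (n + 1) → ℝ) ^ 2 ∂μ -
        (∫ t, F (Fin.cons t y : Fin (n + 1) → ℝ) ∂μ) ^ 2), probReal_univ, one_smul]
      simp only [ce_apply]
    · have hK : ∀ i : Fin n, Integrable (fun z : ℝ × (Fin n → ℝ) => HH μ F i.succ (ce n z))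
          (μ.prod π) := fun i => hmp.integrable_comp_of_integrable (HH_int hF h2 i.succ)
      have e3 : ∑ i : Fin n, ∫ x, HH μ F i.succ x ∂(Measure.pi fun _ : Fin (n + 1) => μ) =
          ∫ t, (∑ i : Fin n, ∫ y, HH μ F i.succ (ce n (t, y)) ∂π) ∂μ := by
        rw [integral_finsetSum _ fun i _ => (hK i).integral_prod_left]
        refine Finset.sum_congr rfl fun i _ => ?_
        rw [← hmp.integral_comp' (HH μ F i.succ), integral_prod _ (hK i)]
      rw [e3]
      refine integral_mono_ae (h2'.integral_prod_left.sub (sq_int' hF' h2'))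
        (integrable_finsetSum _ fun i _ => (hK i).integral_prod_left) ?_
      filter_upwards [h2'.prod_right_ae] with t ht
      have h5 := ih (fun y : Fin n → ℝ => F (ce n (t, y)))
        (hF'.comp (measurable_const.prodMk measurable_id)) ht
      refine h5.trans (le_of_eq (Finset.sum_congr rfl fun i _ => ?_))
      refine integral_congr_ae (Eventually.of_forall fun y => ?_)
      show HH μ (fun y => F (ce n (t, y))) i y = HH μ F i.succ (ce n (t, y))
      rw [HH_succ]
      simp only [ce_apply]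

end IES

theorem prfES : claimES := by
  intro n μ hμ F hF h2
  exact IES.main μ n F hF h2

end Pool.Agent.Work.MP_408f4b_gt
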