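import Pool.Agent.Work.MP_408f4b_gt.Stmts

set_option autoImplicit false

namespace Pool.Agent.Work.MP_408f4b_gt

open MeasureTheory Set

namespace IEqn

theorem hasDeriv1 {x : ℝ → ℝ} (hx : ContDiff ℝ 2 x) (s : ℝ) : HasDerivAt x (deriv x s) s :=
  ((hx.differentiable two_ne_zero) s).hasDerivAt

theorem cd1 {x : ℝ → ℝ} (hx : ContDiff ℝ 2 x) : ContDiff ℝ 1 (deriv x) := by
  have h : ContDiff ℝ (1 + 1) x := by
    have : ((1 : WithTop ℕ∞) + 1) = 2 := by norm_num
    rw [this]; exact hx
  exact (contDiff_succ_iff_deriv.1 h).2.2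

theorem hasDeriv2 {x : ℝ → ℝ} (hx : ContDiff ℝ 2 x) (s : ℝ) :
    HasDerivAt (deriv x) (deriv (deriv x) s) s :=
  (((cd1 hx).differentiable one_ne_zero) s).hasDerivAt

theorem cont2 {x : ℝ → ℝ} (hx : ContDiff ℝ 2 x) : Continuous (deriv (deriv x)) :=
  (cd1 hx).continuous_deriv le_rfl

/-- the velocity and the acceleration are orthogonal. -/
theorem orth {a b : ℝ} {x y : ℝ → ℝ} (hab : a < b) (hx : ContDiff ℝ 2 x) (hy : ContDiff ℝ 2 y)
    (h1 : ∀ s ∈ Icc a b, deriv x s ^ 2 + deriv y s ^ 2 = 1) :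
    ∀ s ∈ Icc a b, deriv x s * deriv (deriv x) s + deriv y s * deriv (deriv y) s = 0 := by
  have hi : ∀ s ∈ Ioo a b,
      deriv x s * deriv (deriv x) s + deriv y s * deriv (deriv y) s = 0 := by
    intro s hs
    have h2 : HasDerivAt (fun t => deriv x t ^ 2 + deriv y t ^ 2)
        (2 * deriv x s * deriv (deriv x) s + 2 * deriv y s * deriv (deriv y) s) s := by
      have e1 : HasDerivAt (fun t => deriv x t ^ 2) (2 * deriv x s * deriv (deriv x) s) s := by
        have := (hasDeriv2 hx s).fun_pow 2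
        simpa using this
      have e2 : HasDerivAt (fun t => deriv y t ^ 2) (2 * deriv y s * deriv (deriv y) s) s := by
        have := (hasDeriv2 hy s).fun_pow 2
        simpa using this
      exact e1.fun_add e2
    have h3 : (fun t => deriv x t ^ 2 + deriv y t ^ 2) =ᶠ[nhds s] fun _ => 1 := by
      filter_upwards [Ioo_mem_nhds hs.1 hs.2] with t ht
      exact h1 t ⟨ht.1.le, ht.2.le⟩
    have h4 := (hasDerivAt_const s (1 : ℝ)).congr_of_eventuallyEq h3
    have h5 := h2.unique h4
    linarith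
  intro s hs
  have hc : Continuous fun s => deriv x s * deriv (deriv x) s + deriv y s * deriv (deriv y) s :=
    ((cd1 hx).continuous.mul (cont2 hx)).add ((cd1 hy).continuous.mul (cont2 hy))
  have hcl : closure (Ioo a b) ⊆
      {s | deriv x s * deriv (deriv x) s + deriv y s * deriv (deriv y) s = 0} :=
    closure_minimal hi (isClosed_eq hc continuous_const)
  rw [closure_Ioo hab.ne] at hcl
  exact hcl hs

end IEqn

theorem prfEqn : claimEqn := by
  intro p q a b x y hp hq hab hC s hs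
  obtain ⟨hx, hy, hrest⟩ := hC
  obtain ⟨k, rfl⟩ : ∃ k, p = k + 2 := ⟨p - 2, by omega⟩
  obtain ⟨l, rfl⟩ : ∃ l, q = l + 2 := ⟨q - 2, by omega⟩
  obtain ⟨hX, hY, h1, h3⟩ := hrest s hs
  have h2 := IEqn.orth hab hx hy (fun s hs => (hrest s hs).2.2.1) s hs
  have hX0 : x s ≠ 0 := hX.ne'
  have hY0 : y s ≠ 0 := hY.ne'
  have hkap : kap (k + 2) (l + 2) x y s =
      ((l : ℝ) + 1) * deriv x s / y s - ((k : ℝ) + 1) * deriv y s / x s := by
    unfold kap; push_cast; ring
  have h3' : deriv x s * deriv (deriv y) s - deriv y s * deriv (deriv x) s =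
      kap (k + 2) (l + 2) x y s := by
    rw [h3]; rfl
  have ha : deriv (deriv x) s = -(kap (k + 2) (l + 2) x y s) * deriv y s := by
    linear_combination (-deriv (deriv x) s) * h1 + deriv x s * h2 - deriv y s * h3'
  have hb : deriv (deriv y) s = kap (k + 2) (l + 2) x y s * deriv x s := by
    linear_combination (-deriv (deriv y) s) * h1 + deriv y s * h2 + deriv x s * h3'
  have dx := IEqn.hasDeriv1 hx s
  have dy := IEqn.hasDeriv1 hy s
  have ddx := IEqn.hasDeriv2 hx s
  have ddy := IEqn.hasDeriv2 hy s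
  have hw : ∀ t, wt (k + 2) (l + 2) x y t = x t ^ (k + 1) * y t ^ (l + 1) := fun t => rfl
  have dw : HasDerivAt (fun t => x t ^ (k + 1) * y t ^ (l + 1))
      ((((k : ℝ) + 1) * x s ^ k * deriv x s) * y s ^ (l + 1) +
        x s ^ (k + 1) * (((l : ℝ) + 1) * y s ^ l * deriv y s)) s := by
    have e1 : HasDerivAt (fun t => x t ^ (k + 1)) (((k : ℝ) + 1) * x s ^ k * deriv x s) s := by
      have := dx.fun_pow (k + 1)
      simpa using this
    have e2 : HasDerivAt (fun t => y t ^ (l + 1)) (((l : ℝ) + 1) * y s ^ l * deriv y s) s := by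
      have := dy.fun_pow (l + 1)
      simpa using this
    exact e1.fun_mul e2
  rw [ha] at ddx
  rw [hb] at ddy
  simp only [hw]
  have g1 : HasDerivAt (fun t => x t ^ (k + 1) * y t ^ (l + 1) * deriv x t)
      ((((k + 2 : ℕ) : ℝ) - 1) * (x s ^ (k + 1) * y s ^ (l + 1)) / x s) s := by
    refine (dw.fun_mul ddx).congr_deriv ?_
    rw [hkap]
    push_cast
    field_simp
    linear_combination (((k : ℝ) + 1) * x s ^ (k + 1) * y s ^ (l + 2)) * h1
  have g2 : HasDerivAt (fun t => x t ^ (k + 1) * y t ^ (l + 1) * deriv y t)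
      ((((l + 2 : ℕ) : ℝ) - 1) * (x s ^ (k + 1) * y s ^ (l + 1)) / y s) s := by
    refine (dw.fun_mul ddy).congr_deriv ?_
    rw [hkap]
    push_cast
    field_simp
    linear_combination (((l : ℝ) + 1) * x s ^ (k + 2) * y s ^ (l + 1)) * h1
  refine ⟨ddx, ddy, g1, g2, ?_, ?_⟩
  · have e : (fun t => x t ^ (k + 1) * y t ^ (l + 1) * (x t * deriv x t + y t * deriv y t)) =
        fun t => x t * (x t ^ (k + 1) * y t ^ (l + 1) * deriv x t) +
          y t * (x t ^ (k + 1) * y t ^ (l + 1) * deriv y t) := by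
      funext t; ring
    rw [e]
    refine ((dx.fun_mul g1).fun_add (dy.fun_mul g2)).congr_deriv ?_
    push_cast
    field_simp
    linear_combination h1
  · refine ((dx.fun_mul ddy).fun_sub (dy.fun_mul ddx)).congr_deriv ?_
    ring

end Pool.Agent.Work.MP_408f4b_gt
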