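import Pool.Agent.Work.MP_408f4b_gt.Stmts

set_option autoImplicit false

/-!
# The Gaussian Poincaré inequality in dimension one
-/

namespace Pool.Agent.Work.MP_408f4b_gt

open MeasureTheory Set Filter Topology

namespace IG1

/-- the Gaussian density -/
noncomputable def rho (t : ℝ) : ℝ := (Real.sqrt (2 * Real.pi))⁻¹ * Real.exp (-(1 / 2) * t ^ 2)

theorem pdf_eq (t : ℝ) : ProbabilityTheory.gaussianPDFReal 0 1 t = rho t := by
  rw [ProbabilityTheory.gaussianPDFReal, rho]
  simp only [NNReal.coe_one, mul_one, sub_zero]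
  congr 2
  ring

theorem int_eq (φ : ℝ → ℝ) :
    ∫ t, φ t ∂(ProbabilityTheory.gaussianReal 0 1) = ∫ t, rho t * φ t := by
  rw [ProbabilityTheory.integral_gaussianReal_eq_integral_smul (by norm_num)]
  simp only [pdf_eq, smul_eq_mul]

theorem c_pos : 0 < (Real.sqrt (2 * Real.pi))⁻¹ := by
  have := Real.pi_pos
  positivity

theorem rho_pos (t : ℝ) : 0 < rho t := mul_pos c_pos (Real.exp_pos _)

theorem rho_le (t : ℝ) : rho t ≤ (Real.sqrt (2 * Real.pi))⁻¹ := by
  unfold rho
  have h : Real.exp (-(1 / 2) * t ^ 2) ≤ 1 := by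
    rw [Real.exp_le_one_iff]
    nlinarith [sq_nonneg t]
  calc _ ≤ (Real.sqrt (2 * Real.pi))⁻¹ * 1 := mul_le_mul_of_nonneg_left h c_pos.le
    _ = _ := mul_one _

theorem rho_deriv (t : ℝ) : HasDerivAt rho (-t * rho t) t := by
  have h1 : HasDerivAt (fun t : ℝ => -(1 / 2) * t ^ 2) (-(1 / 2) * (2 * t)) t := by
    have := (hasDerivAt_pow 2 t).const_mul (-(1 / 2) : ℝ)
    simpa using this
  have h2 : HasDerivAt rho _ t := (h1.exp).const_mul (Real.sqrt (2 * Real.pi))⁻¹
  refine h2.congr_deriv ?_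
  rw [rho]
  ring

theorem rho_cont : Continuous rho := by
  rw [continuous_iff_continuousAt]
  exact fun t => (rho_deriv t).continuousAt

theorem rho_int : Integrable rho := by
  unfold rho
  exact (integrable_exp_neg_mul_sq (by norm_num : (0 : ℝ) < 1 / 2)).const_mul _

theorem rho_int2 : Integrable (fun t => rho t * t ^ 2) := by
  have h := (integrable_rpow_mul_exp_neg_mul_sq (by norm_num : (0 : ℝ) < 1 / 2)
    (by norm_num : (-1 : ℝ) < 2)).const_mul (Real.sqrt (2 * Real.pi))⁻¹
  refine h.congr (ae_of_all _ fun t => ?_)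
  show (Real.sqrt (2 * Real.pi))⁻¹ * (t ^ (2 : ℝ) * Real.exp (-(1 / 2) * t ^ 2)) = rho t * t ^ 2
  rw [Real.rpow_two, rho]
  ring

/-- domination -/
theorem dom {C : ℝ} {φ : ℝ → ℝ} (hm : Continuous φ) (h : ∀ t, |φ t| ≤ C * (1 + t ^ 2)) :
    Integrable (fun t => rho t * φ t) := by
  have h1 : Integrable (fun t => C * (rho t + rho t * t ^ 2)) :=
    (rho_int.add rho_int2).const_mul C
  refine h1.mono' (rho_cont.mul hm).aestronglyMeasurable (ae_of_all _ fun t => ?_)
  rw [Real.norm_eq_abs, abs_mul, abs_of_pos (rho_pos t)]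
  calc rho t * |φ t| ≤ rho t * (C * (1 + t ^ 2)) :=
        mul_le_mul_of_nonneg_left (h t) (rho_pos t).le
    _ = _ := by ring

section half
variable {g g' : ℝ → ℝ} {C : ℝ}

theorem bound (hg : ∀ t, HasDerivAt g (g' t) t) (h0 : g 0 = 0) (hb : ∀ t, |g' t| ≤ C) (t : ℝ) :
    |g t| ≤ C * |t| := by
  have h := Convex.norm_image_sub_le_of_norm_deriv_le (f := g) (C := C) (s := univ) (x := 0)
    (y := t) (fun x _ => (hg x).differentiableAt) (fun x _ => by
      rw [(hg x).deriv, Real.norm_eq_abs]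
      exact hb x) convex_univ (mem_univ _) (mem_univ _)
  rwa [h0, sub_zero, sub_zero, Real.norm_eq_abs, Real.norm_eq_abs] at h

theorem sq_bound (hg : ∀ t, HasDerivAt g (g' t) t) (h0 : g 0 = 0)
    (hb : ∀ t, |g' t| ≤ C) (t : ℝ) : g t ^ 2 ≤ C ^ 2 * t ^ 2 := by
  have h := bound hg h0 hb t
  rw [← sq_abs (g t), ← sq_abs t, ← mul_pow]
  exact pow_le_pow_left₀ (abs_nonneg _) h 2

theorem half (hC : 0 ≤ C) (hg : ∀ t, HasDerivAt g (g' t) t) (hg' : Continuous g')
    (h0 : g 0 = 0) (hb : ∀ t, |g' t| ≤ C) :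
    ∫ t in Ioi (0 : ℝ), rho t * g t ^ 2 ≤ ∫ t in Ioi (0 : ℝ), rho t * g' t ^ 2 := by
  have hgc : Continuous g := continuous_iff_continuousAt.2 fun t => (hg t).continuousAt
  have hsq := sq_bound hg h0 hb
  have hsq' : ∀ t, g' t ^ 2 ≤ C ^ 2 := fun t => by
    rw [← sq_abs (g' t)]
    exact pow_le_pow_left₀ (abs_nonneg _) (hb t) 2
  have hC2 : 0 ≤ C ^ 2 := sq_nonneg C
  have hI1 : Integrable (fun t => rho t * g t ^ 2) := by
    refine dom (C := C ^ 2) (hgc.pow 2) fun t => ?_
    rw [abs_of_nonneg (sq_nonneg _)]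
    have := hsq t
    nlinarith
  have hI2 : Integrable (fun t => rho t * g' t ^ 2) := by
    refine dom (C := C ^ 2) (hg'.pow 2) fun t => ?_
    rw [abs_of_nonneg (sq_nonneg _)]
    have h1 := hsq' t
    have h2 : 0 ≤ C ^ 2 * t ^ 2 := by positivity
    linarith
  set D : ℝ → ℝ := fun t => -(rho t * g t ^ 2) + 2 * rho t * g t * g' t / t
    - rho t * g t ^ 2 / t ^ 2 with hD
  have hder : ∀ t ∈ Ioi (0 : ℝ), HasDerivAt (fun t => rho t * g t ^ 2 / t) (D t) t := by
    intro t ht
    have ht0 : t ≠ 0 := ne_of_gt ht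
    have h1 := (((rho_deriv t).mul ((hg t).pow 2)).div (hasDerivAt_id t) ht0)
    refine h1.congr_deriv ?_
    rw [hD]
    simp only [id, Pi.pow_apply, Pi.mul_apply]
    field_simp
    ring
  have hDc : ContinuousOn D (Ioi 0) := by
    rw [hD]
    refine ContinuousOn.sub (ContinuousOn.add ?_ ?_) ?_
    · exact ((rho_cont.mul (hgc.pow 2)).neg).continuousOn
    · refine ContinuousOn.div ?_ continuousOn_id fun t ht => ne_of_gt ht
      exact (((continuous_const.mul rho_cont).mul hgc).mul hg').continuousOn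
    · refine ContinuousOn.div ?_ (continuousOn_id.pow 2) fun t ht => pow_ne_zero 2 (ne_of_gt ht)
      exact (rho_cont.mul (hgc.pow 2)).continuousOn
  have hDb : ∀ t ∈ Ioi (0 : ℝ), ‖D t‖ ≤ 3 * C ^ 2 * (rho t + rho t * t ^ 2) := by
    intro t ht
    have ht0 : (0 : ℝ) < t := ht
    have hr := rho_pos t
    have hgt : |g t| ≤ C * t := by
      have := bound hg h0 hb t
      rwa [abs_of_pos ht0] at this
    have e1 : |rho t * g t ^ 2| ≤ C ^ 2 * (rho t * t ^ 2) := by
      rw [abs_of_nonneg (by positivity)]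
      have := mul_le_mul_of_nonneg_left (hsq t) hr.le
      linarith
    have e2 : |2 * rho t * g t * g' t / t| ≤ 2 * C ^ 2 * rho t := by
      rw [abs_div, abs_of_pos ht0, div_le_iff₀ ht0, abs_mul, abs_mul,
        abs_of_pos (by positivity : 0 < 2 * rho t)]
      have h1 : |g t| * |g' t| ≤ (C * t) * C :=
        mul_le_mul hgt (hb t) (abs_nonneg _) (by positivity)
      have h2 := mul_le_mul_of_nonneg_left h1 (by positivity : 0 ≤ 2 * rho t)
      linarith
    have e3 : |rho t * g t ^ 2 / t ^ 2| ≤ C ^ 2 * rho t := by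
      rw [abs_div, abs_of_nonneg (by positivity : 0 ≤ rho t * g t ^ 2),
        abs_of_pos (by positivity : 0 < t ^ 2), div_le_iff₀ (by positivity)]
      have := mul_le_mul_of_nonneg_left (hsq t) hr.le
      linarith
    rw [Real.norm_eq_abs, hD]
    have h4 := abs_sub (-(rho t * g t ^ 2) + 2 * rho t * g t * g' t / t)
      (rho t * g t ^ 2 / t ^ 2)
    have h5 := abs_add_le (-(rho t * g t ^ 2)) (2 * rho t * g t * g' t / t)
    rw [abs_neg] at h5
    have h6 : 0 ≤ C ^ 2 * (rho t * t ^ 2) := by positivity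
    refine h4.trans ?_
    linarith
  have hDi : IntegrableOn D (Ioi 0) := by
    have h1 : Integrable (fun t => 3 * C ^ 2 * (rho t + rho t * t ^ 2)) :=
      (rho_int.add rho_int2).const_mul _
    refine (h1.integrableOn (s := Ioi 0)).mono' (hDc.aestronglyMeasurable measurableSet_Ioi) ?_
    exact (ae_restrict_iff' measurableSet_Ioi).2 (ae_of_all _ hDb)
  have hnorm : ∀ t, |rho t * g t ^ 2 / t| ≤ rho t * (C ^ 2 * |t|) := by
    intro t
    by_cases ht : t = 0
    · rw [ht, div_zero, abs_zero, mul_zero, mul_zero]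
    · have ht' : 0 < |t| := abs_pos.2 ht
      rw [abs_div, div_le_iff₀ ht', abs_of_nonneg (mul_nonneg (rho_pos t).le (sq_nonneg _))]
      have h1 := mul_le_mul_of_nonneg_left (hsq t) (rho_pos t).le
      have h2 : t ^ 2 = |t| * |t| := by rw [← sq, sq_abs]
      rw [h2] at h1
      linarith
  have hc0 : ContinuousWithinAt (fun t => rho t * g t ^ 2 / t) (Ici 0) 0 := by
    have h1 : Tendsto (fun t => rho t * g t ^ 2 / t) (𝓝 (0 : ℝ)) (𝓝 0) := by
      refine squeeze_zero_norm (a := fun t => (Real.sqrt (2 * Real.pi))⁻¹ * (C ^ 2 * |t|))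
        (fun t => ?_) ?_
      · rw [Real.norm_eq_abs]
        exact (hnorm t).trans (mul_le_mul_of_nonneg_right (rho_le t) (by positivity))
      · have h2 : Continuous (fun t : ℝ => (Real.sqrt (2 * Real.pi))⁻¹ * (C ^ 2 * |t|)) := by
          fun_prop
        have h3 := h2.tendsto 0
        simpa using h3
    have h4 : (fun t => rho t * g t ^ 2 / t) 0 = 0 := by simp
    refine ContinuousAt.continuousWithinAt ?_
    unfold ContinuousAt
    rw [h4]
    exact h1
  have hinf : Tendsto (fun t => rho t * g t ^ 2 / t) atTop (𝓝 0) := by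
    have h1 : Tendsto (fun t : ℝ => ((Real.sqrt (2 * Real.pi))⁻¹ * C ^ 2) *
        (t ^ 1 * Real.exp (-t))) atTop (𝓝 0) := by
      have := (Real.tendsto_pow_mul_exp_neg_atTop_nhds_zero 1).const_mul
        ((Real.sqrt (2 * Real.pi))⁻¹ * C ^ 2)
      rwa [mul_zero] at this
    refine squeeze_zero_norm' ?_ h1
    filter_upwards [eventually_ge_atTop (2 : ℝ)] with t ht
    rw [Real.norm_eq_abs]
    refine (hnorm t).trans ?_
    have ht0 : 0 < t := by linarith
    rw [abs_of_pos ht0, rho]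
    have h2 : Real.exp (-(1 / 2) * t ^ 2) ≤ Real.exp (-t) := by
      rw [Real.exp_le_exp]
      nlinarith
    have hc := c_pos
    calc (Real.sqrt (2 * Real.pi))⁻¹ * Real.exp (-(1 / 2) * t ^ 2) * (C ^ 2 * t)
        ≤ (Real.sqrt (2 * Real.pi))⁻¹ * Real.exp (-t) * (C ^ 2 * t) :=
          mul_le_mul_of_nonneg_right (mul_le_mul_of_nonneg_left h2 hc.le) (by positivity)
      _ = _ := by ring
  have hzero : ∫ t in Ioi (0 : ℝ), D t = 0 := by
    have h1 := integral_Ioi_of_hasDerivAt_of_tendsto hc0 hder hDi hinf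
    rw [h1]
    simp
  have hle : ∫ t in Ioi (0 : ℝ), (rho t * g t ^ 2 + D t) ≤
      ∫ t in Ioi (0 : ℝ), rho t * g' t ^ 2 := by
    refine setIntegral_mono_on (hI1.integrableOn.add hDi) hI2.integrableOn measurableSet_Ioi
      fun t ht => ?_
    have ht0 : t ≠ 0 := ne_of_gt ht
    have h1 : rho t * g' t ^ 2 - (rho t * g t ^ 2 + D t) = rho t * (g' t - g t / t) ^ 2 := by
      rw [hD]
      field_simp
      ring
    have h2 : 0 ≤ rho t * (g' t - g t / t) ^ 2 := mul_nonneg (rho_pos t).le (sq_nonneg _)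
    linarith
  rw [integral_add hI1.integrableOn hDi, hzero, add_zero] at hle
  exact hle

end half

theorem rho_neg (t : ℝ) : rho (-t) = rho t := by
  unfold rho
  rw [neg_sq]

/-- the inequality for functions vanishing at the origin -/
theorem full {g g' : ℝ → ℝ} {C : ℝ} (hC : 0 ≤ C) (hg : ∀ t, HasDerivAt g (g' t) t)
    (hg' : Continuous g') (h0 : g 0 = 0) (hb : ∀ t, |g' t| ≤ C) :
    Integrable (fun t => rho t * g t ^ 2) ∧
    ∫ t, rho t * g t ^ 2 ≤ ∫ t, rho t * g' t ^ 2 := by
  have hgc : Continuous g := continuous_iff_continuousAt.2 fun t => (hg t).continuousAt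
  have hsq := sq_bound hg h0 hb
  have hC2 : 0 ≤ C ^ 2 := sq_nonneg C
  have hI1 : Integrable (fun t => rho t * g t ^ 2) := by
    refine dom (C := C ^ 2) (hgc.pow 2) fun t => ?_
    rw [abs_of_nonneg (sq_nonneg _)]
    have := hsq t
    nlinarith
  have hI2 : Integrable (fun t => rho t * g' t ^ 2) := by
    refine dom (C := C ^ 2) (hg'.pow 2) fun t => ?_
    rw [abs_of_nonneg (sq_nonneg _)]
    have h1 : g' t ^ 2 ≤ C ^ 2 := by
      rw [← sq_abs (g' t)]
      exact pow_le_pow_left₀ (abs_nonneg _) (hb t) 2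
    have h2 : 0 ≤ C ^ 2 * t ^ 2 := by positivity
    linarith
  refine ⟨hI1, ?_⟩
  have h1 := half hC hg hg' h0 hb
  have h2 := half (g := fun t => g (-t)) (g' := fun t => -g' (-t)) hC (fun t => by
    have h3 := (hg (-t)).comp t (hasDerivAt_neg t)
    refine h3.congr_deriv ?_
    ring) (hg'.comp continuous_neg).neg (by simp [h0]) (fun t => by
      rw [abs_neg]
      exact hb (-t))
  have h4 : ∫ t in Ioi (0 : ℝ), rho t * g (-t) ^ 2 = ∫ t in Iic (0 : ℝ), rho t * g t ^ 2 := by
    have := integral_comp_neg_Ioi (0 : ℝ) (fun t => rho t * g t ^ 2)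
    rw [neg_zero] at this
    rw [← this]
    simp only [rho_neg]
  have h5 : ∫ t in Ioi (0 : ℝ), rho t * (-g' (-t)) ^ 2 = ∫ t in Iic (0 : ℝ), rho t * g' t ^ 2 := by
    have := integral_comp_neg_Ioi (0 : ℝ) (fun t => rho t * g' t ^ 2)
    rw [neg_zero] at this
    rw [← this]
    simp only [rho_neg, neg_sq]
  rw [h4, h5] at h2
  rw [← intervalIntegral.integral_Iic_add_Ioi hI1.integrableOn hI1.integrableOn (b := 0),
    ← intervalIntegral.integral_Iic_add_Ioi hI2.integrableOn hI2.integrableOn (b := 0)]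
  exact add_le_add h2 h1

end IG1

open IG1 in
theorem prfG1 : claimG1 := by
  intro f C hf hb
  have hC : 0 ≤ C := (abs_nonneg _).trans (hb 0)
  have hd : ∀ t, HasDerivAt f (deriv f t) t := fun t =>
    ((hf.differentiable (by norm_num)) t).hasDerivAt
  have hdc : Continuous (deriv f) := hf.continuous_deriv (by norm_num)
  obtain ⟨hI, hle⟩ := full (g := fun t => f t - f 0) (g' := deriv f) hC
    (fun t => (hd t).sub_const (f 0)) hdc (sub_self _) hb
  have hgc : Continuous (fun t => f t - f 0) := hf.continuous.sub continuous_const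
  have hI1 : Integrable (fun t => rho t * (f t - f 0)) := by
    refine dom (C := C) hgc fun t => ?_
    have h1 := bound (g := fun t => f t - f 0) (fun t => (hd t).sub_const (f 0)) (sub_self _) hb t
    refine h1.trans (mul_le_mul_of_nonneg_left ?_ hC)
    rcases abs_cases t with h | h <;> nlinarith [sq_nonneg (t - 1), sq_nonneg (t + 1)]
  rw [int_eq, int_eq, int_eq]
  have hone : ∫ t, rho t = 1 := by
    have h1 := int_eq (fun _ => (1 : ℝ))
    simp only [mul_one] at h1
    rw [← h1]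
    simp
  have e1 : ∫ t, rho t * f t = (∫ t, rho t * (f t - f 0)) + f 0 := by
    have h1 : (fun t => rho t * f t) = fun t => rho t * (f t - f 0) + f 0 * rho t := by
      funext t; ring
    rw [h1, integral_add hI1 (rho_int.const_mul _), integral_const_mul, hone, mul_one]
  have e2 : ∫ t, rho t * f t ^ 2 = (∫ t, rho t * (f t - f 0) ^ 2)
      + 2 * f 0 * (∫ t, rho t * (f t - f 0)) + f 0 ^ 2 := by
    have h1 : (fun t => rho t * f t ^ 2) = fun t => (rho t * (f t - f 0) ^ 2
        + 2 * f 0 * (rho t * (f t - f 0))) + f 0 ^ 2 * rho t := by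
      funext t; ring
    have h3 : Integrable (fun t => rho t * (f t - f 0) ^ 2
        + 2 * f 0 * (rho t * (f t - f 0))) := hI.add (hI1.const_mul _)
    rw [h1, integral_add h3 (rho_int.const_mul _),
      integral_add hI (hI1.const_mul _), integral_const_mul, integral_const_mul, hone, mul_one]
  rw [e1, e2]
  nlinarith [sq_nonneg (∫ t, rho t * (f t - f 0))]

end Pool.Agent.Work.MP_408f4b_gt
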