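import Pool.Agent.Work.MP_408f4b_gt.Stmts

set_option autoImplicit false

namespace Pool.Agent.Work.MP_408f4b_gt

open MeasureTheory Set Filter Topology ProbabilityTheory

namespace IGP

/-- the line through `x` in the direction `i` -/
lemma line_eq (n : ℕ) (x : Fin n → ℝ) (i : Fin n) (t : ℝ) :
    (WithLp.toLp 2 (Function.update x i t) : E n) =
      WithLp.toLp 2 (Function.update x i 0) + t • EuclideanSpace.single i (1 : ℝ) := by
  ext j
  by_cases hj : j = i
  · subst hj
    simp
  · simp [hj]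

lemma line_contDiff (n : ℕ) (x : Fin n → ℝ) (i : Fin n) :
    ContDiff ℝ 1 (fun t : ℝ => (WithLp.toLp 2 (Function.update x i t) : E n)) := by
  have : (fun t : ℝ => (WithLp.toLp 2 (Function.update x i t) : E n)) =
      fun t => WithLp.toLp 2 (Function.update x i 0) + t • EuclideanSpace.single i (1 : ℝ) := by
    ext1 t
    exact line_eq n x i t
  rw [this]
  fun_prop

lemma line_deriv (n : ℕ) (x : Fin n → ℝ) (i : Fin n) (t : ℝ) :
    HasDerivAt (fun t : ℝ => (WithLp.toLp 2 (Function.update x i t) : E n))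
      (EuclideanSpace.single i (1 : ℝ)) t := by
  have : (fun t : ℝ => (WithLp.toLp 2 (Function.update x i t) : E n)) =
      fun t => WithLp.toLp 2 (Function.update x i 0) + t • EuclideanSpace.single i (1 : ℝ) := by
    ext1 t
    exact line_eq n x i t
  rw [this]
  have h := ((hasDerivAt_id t).smul_const (EuclideanSpace.single i (1 : ℝ) : E n)).const_add
    (WithLp.toLp 2 (Function.update x i 0) : E n)
  simpa using h

lemma openNe (n : ℕ) : IsOpen {x : E n | x ≠ 0} := isOpen_ne

lemma hom_zero (n : ℕ) (F : E n → ℝ) (hF : ∀ (r : ℝ) (x : E n), 0 ≤ r → F (r • x) = r * F x) :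
    F 0 = 0 := by
  have := hF 0 0 le_rfl
  simpa using this

lemma sphere_sub (n : ℕ) : Metric.sphere (0 : E n) 1 ⊆ {x | x ≠ 0} := by
  intro x hx h0
  rw [mem_sphere_zero_iff_norm, h0, norm_zero] at hx
  exact zero_ne_one hx

lemma unit_mem (n : ℕ) (x : E n) (hx : x ≠ 0) : ‖x‖⁻¹ • x ∈ Metric.sphere (0 : E n) 1 := by
  rw [mem_sphere_zero_iff_norm, norm_smul, norm_inv, norm_norm, inv_mul_cancel₀]
  exact norm_ne_zero_iff.2 hx

lemma exists_M (n : ℕ) (F : E n → ℝ) (hc : ContDiffOn ℝ 1 F {x | x ≠ 0})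
    (hF : ∀ (r : ℝ) (x : E n), 0 ≤ r → F (r • x) = r * F x) :
    ∃ M : ℝ, 0 ≤ M ∧ ∀ x, |F x| ≤ M * ‖x‖ := by
  obtain ⟨M, hM⟩ := (isCompact_sphere (0 : E n) 1).exists_bound_of_continuousOn
    (hc.continuousOn.mono (sphere_sub n))
  refine ⟨|M|, abs_nonneg _, fun x => ?_⟩
  by_cases hx : x = 0
  · rw [hx, hom_zero n F hF]
    simp
  · have h1 : F x = ‖x‖ * F (‖x‖⁻¹ • x) := by
      rw [← hF _ _ (norm_nonneg x), smul_smul, mul_inv_cancel₀ (norm_ne_zero_iff.2 hx), one_smul]
    have h2 := hM _ (unit_mem n x hx)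
    rw [h1, abs_mul, abs_norm, mul_comm]
    rw [Real.norm_eq_abs] at h2
    exact mul_le_mul_of_nonneg_right (h2.trans (le_abs_self M)) (norm_nonneg x)

lemma cont (n : ℕ) (F : E n → ℝ) (hc : ContDiffOn ℝ 1 F {x | x ≠ 0})
    (hF : ∀ (r : ℝ) (x : E n), 0 ≤ r → F (r • x) = r * F x) : Continuous F := by
  obtain ⟨M, hM0, hM⟩ := exists_M n F hc hF
  rw [continuous_iff_continuousAt]
  intro x
  by_cases hx : x = 0
  · subst hx
    rw [ContinuousAt, hom_zero n F hF]
    have h1 : Tendsto (fun x : E n => M * ‖x‖) (𝓝 0) (𝓝 0) := by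
      have : Continuous (fun x : E n => M * ‖x‖) := by fun_prop
      have h := this.tendsto 0
      simpa using h
    exact squeeze_zero_norm (fun x => by rw [Real.norm_eq_abs]; exact hM x) h1
  · exact hc.continuousOn.continuousAt ((openNe n).mem_nhds hx)

lemma fderiv_hom (n : ℕ) (F : E n → ℝ) (hc : ContDiffOn ℝ 1 F {x | x ≠ 0})
    (hF : ∀ (r : ℝ) (x : E n), 0 ≤ r → F (r • x) = r * F x) (r : ℝ) (hr : 0 < r) (x : E n)
    (hx : x ≠ 0) : fderiv ℝ F (r • x) = fderiv ℝ F x := by
  have h1 : (fun y : E n => F (r • y)) = fun y => r • F y := by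
    ext y
    rw [hF r y hr.le, smul_eq_mul]
  have hd : DifferentiableAt ℝ F x :=
    (hc.differentiableOn one_ne_zero).differentiableAt ((openNe n).mem_nhds hx)
  have h2 : fderiv ℝ (fun y : E n => F (r • y)) x = r • fderiv ℝ F (r • x) := fderiv_comp_smul r
  have h3 : fderiv ℝ (fun y : E n => r • F y) x = r • fderiv ℝ F x := fderiv_const_smul hd r
  rw [h1, h3] at h2
  have h4 := congrArg (fun L => r⁻¹ • L) h2
  simp only [smul_smul, inv_mul_cancel₀ hr.ne', one_smul] at h4
  exact h4.symm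

lemma exists_C (n : ℕ) (F : E n → ℝ) (hc : ContDiffOn ℝ 1 F {x | x ≠ 0})
    (hF : ∀ (r : ℝ) (x : E n), 0 ≤ r → F (r • x) = r * F x) :
    ∃ C : ℝ, 0 ≤ C ∧ ∀ x, ‖fderiv ℝ F x‖ ≤ C := by
  have hcd : ContinuousOn (fderiv ℝ F) {x | x ≠ 0} :=
    hc.continuousOn_fderiv_of_isOpen (openNe n) le_rfl
  obtain ⟨M, hM⟩ := (isCompact_sphere (0 : E n) 1).exists_bound_of_continuousOn
    (hcd.mono (sphere_sub n))
  refine ⟨max |M| ‖fderiv ℝ F 0‖, (abs_nonneg _).trans (le_max_left _ _), fun x => ?_⟩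
  by_cases hx : x = 0
  · rw [hx]
    exact le_max_right _ _
  · have h1 : fderiv ℝ F x = fderiv ℝ F (‖x‖⁻¹ • x) :=
      (fderiv_hom n F hc hF _ (inv_pos.2 (norm_pos_iff.2 hx)) x hx).symm
    rw [h1]
    exact ((hM _ (unit_mem n x hx)).trans (le_abs_self M)).trans (le_max_left _ _)

lemma norm_grad (n : ℕ) (F : E n → ℝ) (x : E n) :
    ‖gradient F x‖ ^ 2 = ∑ i, (fderiv ℝ F x (EuclideanSpace.single i (1 : ℝ))) ^ 2 := by
  rw [EuclideanSpace.real_norm_sq_eq]
  refine Finset.sum_congr rfl fun i _ => ?_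
  have h1 : (gradient F x) i = inner ℝ (gradient F x) (EuclideanSpace.single i (1 : ℝ)) := by
    rw [EuclideanSpace.inner_single_right]
    simp
  rw [h1, inner_gradient_left]

lemma ae_ne (n : ℕ) : ∀ᵐ x ∂(Measure.pi fun _ : Fin n => gaussianReal 0 1), ∀ j, x j ≠ 0 := by
  have : NullSingletonClass (gaussianReal 0 1) := nullSingletonClass_gaussianReal one_ne_zero
  rw [ae_all_iff]
  intro j
  exact Measure.ae_eval_ne (μ := fun _ : Fin n => gaussianReal 0 1) j 0

lemma line_ne (n : ℕ) (hn : 2 ≤ n) (x : Fin n → ℝ) (hx : ∀ j, x j ≠ 0) (i : Fin n) (t : ℝ) :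
    (WithLp.toLp 2 (Function.update x i t) : E n) ≠ 0 := by
  have : Nontrivial (Fin n) := Fin.nontrivial_iff_two_le.2 hn
  obtain ⟨j, hj⟩ := exists_ne i
  intro h
  have h1 := congrArg (fun y : E n => y j) h
  simp [Function.update_of_ne hj] at h1
  exact hx j h1

end IGP

open IGP in
theorem prfGP (hG : claimG1) (hU : claimUpd) (hE : claimES) : claimGP := by
  intro n F hn hc hF
  obtain ⟨M, hM0, hM⟩ := exists_M n F hc hF
  obtain ⟨C, hC0, hC⟩ := exists_C n F hc hF
  have hFc := cont n F hc hF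
  set μ : Measure (Fin n → ℝ) := Measure.pi fun _ : Fin n => gaussianReal 0 1 with hμ
  have hto : Measurable (fun x : Fin n → ℝ => (WithLp.toLp 2 x : E n)) := by fun_prop
  have hstd : stdGaussian (E n) = μ.map (fun x : Fin n → ℝ => (WithLp.toLp 2 x : E n)) :=
    map_pi_eq_stdGaussian.symm
  have hmap : ∀ G : E n → ℝ, Measurable G →
      ∫ x, G x ∂(stdGaussian (E n)) = ∫ x, G (WithLp.toLp 2 x) ∂μ := by
    intro G hGm
    rw [hstd, integral_map hto.aemeasurable hGm.aestronglyMeasurable]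
  -- the partial derivatives
  set D : Fin n → (Fin n → ℝ) → ℝ := fun i x =>
    fderiv ℝ F (WithLp.toLp 2 x) (EuclideanSpace.single i (1 : ℝ)) with hD
  have hDm : ∀ i, Measurable (D i) := fun i =>
    (measurable_fderiv_apply_const ℝ F (EuclideanSpace.single i (1 : ℝ))).comp hto
  have hDb : ∀ i x, |D i x| ≤ C := by
    intro i x
    have h1 := (fderiv ℝ F (WithLp.toLp 2 x : E n)).le_opNorm (EuclideanSpace.single i (1 : ℝ))
    rw [Real.norm_eq_abs] at h1
    refine h1.trans ?_
    simpa using hC (WithLp.toLp 2 x)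
  have hDb2 : ∀ i x, D i x ^ 2 ≤ C ^ 2 := by
    intro i x
    rw [← sq_abs]
    exact pow_le_pow_left₀ (abs_nonneg _) (hDb i x) 2
  have hDint : ∀ i, Integrable (fun x => D i x ^ 2) μ := by
    intro i
    refine Integrable.of_bound ((hDm i).pow_const 2).aestronglyMeasurable (C ^ 2)
      (Filter.Eventually.of_forall fun x => ?_)
    rw [Real.norm_eq_abs, abs_of_nonneg (sq_nonneg _)]
    exact hDb2 i x
  -- integrability of the square
  have hF2 : Integrable (fun x => F x ^ 2) (stdGaussian (E n)) := by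
    have h1 : Integrable (fun x : E n => ‖x‖ ^ 2) (stdGaussian (E n)) := by
      have := (IsGaussian.memLp_two_id (μ := stdGaussian (E n))).integrable_norm_pow (by norm_num)
      simpa using this
    refine (h1.const_mul (M ^ 2)).mono' (hFc.measurable.pow_const 2).aestronglyMeasurable
      (Filter.Eventually.of_forall fun x => ?_)
    rw [Real.norm_eq_abs, abs_of_nonneg (sq_nonneg _), ← sq_abs, ← mul_pow]
    exact pow_le_pow_left₀ (abs_nonneg _) (hM x) 2
  have hf2 : Integrable (fun x : Fin n → ℝ => F (WithLp.toLp 2 x) ^ 2) μ := by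
    rw [hstd] at hF2
    exact (integrable_map_measure (hFc.measurable.pow_const 2).aestronglyMeasurable
      hto.aemeasurable).1 hF2
  -- Efron-Stein
  have hES := hE n (gaussianReal 0 1) inferInstance (fun x => F (WithLp.toLp 2 x))
    (hFc.measurable.comp hto) hf2
  -- each term
  have hterm : ∀ i : Fin n, ∫ x, (∫ t, F (WithLp.toLp 2 (Function.update x i t)) ^ 2
      ∂(gaussianReal 0 1) - (∫ t, F (WithLp.toLp 2 (Function.update x i t))
      ∂(gaussianReal 0 1)) ^ 2) ∂μ ≤ ∫ x, D i x ^ 2 ∂μ := by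
    intro i
    have hUi := hU n i (gaussianReal 0 1) inferInstance
    have hint2 : Integrable (fun z : (Fin n → ℝ) × ℝ => D i (Function.update z.1 i z.2) ^ 2)
        (μ.prod (gaussianReal 0 1)) :=
      hUi.integrable_comp_of_integrable (hDint i)
    have h1 : ∫ x, D i x ^ 2 ∂μ = ∫ x, (∫ t, D i (Function.update x i t) ^ 2
        ∂(gaussianReal 0 1)) ∂μ := by
      rw [← integral_prod (fun z : (Fin n → ℝ) × ℝ => D i (Function.update z.1 i z.2) ^ 2) hint2]
      conv_lhs => rw [hμ, ← hUi.map_eq]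
      rw [integral_map hUi.measurable.aemeasurable
        ((hDm i).pow_const 2).aestronglyMeasurable]
    have h2 : Integrable (fun x => ∫ t, D i (Function.update x i t) ^ 2
        ∂(gaussianReal 0 1)) μ := hint2.integral_prod_left
    rw [h1]
    have h3 : ∀ᵐ x ∂μ, (∫ t, F (WithLp.toLp 2 (Function.update x i t)) ^ 2
      ∂(gaussianReal 0 1) - (∫ t, F (WithLp.toLp 2 (Function.update x i t))
      ∂(gaussianReal 0 1)) ^ 2) ≤ ∫ t, D i (Function.update x i t) ^ 2 ∂(gaussianReal 0 1) := by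
      filter_upwards [ae_ne n] with x hx
      have hcd : ContDiff ℝ 1 (fun t : ℝ => F (WithLp.toLp 2 (Function.update x i t))) :=
        hc.comp_contDiff (line_contDiff n x i) (fun t => line_ne n hn x hx i t)
      have hder : ∀ t : ℝ, deriv (fun t : ℝ => F (WithLp.toLp 2 (Function.update x i t))) t =
          D i (Function.update x i t) := by
        intro t
        have hd : DifferentiableAt ℝ F (WithLp.toLp 2 (Function.update x i t)) :=
          (hc.differentiableOn one_ne_zero).differentiableAt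
            ((openNe n).mem_nhds (line_ne n hn x hx i t))
        exact (hd.hasFDerivAt.comp_hasDerivAt t (line_deriv n x i t)).deriv
      have h4 := hG _ C hcd (fun t => by rw [hder t]; exact hDb i _)
      simp_rw [hder] at h4
      exact h4
    by_cases hu : Integrable (fun x => ∫ t, F (WithLp.toLp 2 (Function.update x i t)) ^ 2
      ∂(gaussianReal 0 1) - (∫ t, F (WithLp.toLp 2 (Function.update x i t))
      ∂(gaussianReal 0 1)) ^ 2) μ
    · exact integral_mono_ae hu h2 h3
    · rw [integral_undef hu]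
      exact integral_nonneg fun x => integral_nonneg fun t => sq_nonneg _
  have hsum : ∑ i, ∫ x, D i x ^ 2 ∂μ = ∫ x, ‖gradient F x‖ ^ 2 ∂(stdGaussian (E n)) := by
    rw [← integral_finsetSum _ (fun i _ => hDint i)]
    have hgm : Measurable (fun x => ‖gradient F x‖ ^ 2) := by
      have : (fun x => ‖gradient F x‖ ^ 2) = fun x =>
          ∑ i, (fderiv ℝ F x (EuclideanSpace.single i (1 : ℝ))) ^ 2 := by
        ext x
        exact norm_grad n F x
      rw [this]
      exact Finset.measurable_sum _ fun i _ =>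
        (measurable_fderiv_apply_const ℝ F (EuclideanSpace.single i (1 : ℝ))).pow_const 2
    rw [hmap _ hgm]
    congr 1
    ext x
    rw [norm_grad]
  rw [hmap _ (hFc.measurable.pow_const 2), hmap _ hFc.measurable, ← hsum]
  exact hES.trans (Finset.sum_le_sum fun i _ => hterm i)

end Pool.Agent.Work.MP_408f4b_gt
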