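import Pool.Agent.Work.MP_408f4b_gt.Stmts

set_option autoImplicit false

/-!
# The sector of the invariant functions
-/

namespace Pool.Agent.Work.MP_408f4b_gt

open MeasureTheory Set Filter Topology

namespace IInv

lemma cont_DD {p q : ℕ} {x y : ℝ → ℝ} (hx : Continuous x) (hy : Continuous y) :
    Continuous (DD p q x y) := by
  have : DD p q x y = fun s => ((q : ℝ) - 1) * x s ^ 2 - ((p : ℝ) - 1) * y s ^ 2 := rfl
  rw [this]
  fun_prop

lemma cont_wt {p q : ℕ} {x y : ℝ → ℝ} (hx : Continuous x) (hy : Continuous y) :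
    Continuous (wt p q x y) := by
  have : wt p q x y = fun s => x s ^ (p - 1) * y s ^ (q - 1) := rfl
  rw [this]
  fun_prop

lemma deriv_DD {p q : ℕ} {x y : ℝ → ℝ} (hx : ContDiff ℝ 2 x) (hy : ContDiff ℝ 2 y) (s : ℝ) :
    deriv (DD p q x y) s =
      ((q : ℝ) - 1) * (2 * x s * deriv x s) - ((p : ℝ) - 1) * (2 * y s * deriv y s) := by
  have h1 : HasDerivAt x (deriv x s) s := (hx.differentiable (by norm_num) s).hasDerivAt
  have h2 : HasDerivAt y (deriv y s) s := (hy.differentiable (by norm_num) s).hasDerivAt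
  have h3 : HasDerivAt (fun s => ((q : ℝ) - 1) * x s ^ 2 - ((p : ℝ) - 1) * y s ^ 2)
      (((q : ℝ) - 1) * (2 * x s * deriv x s) - ((p : ℝ) - 1) * (2 * y s * deriv y s)) s := by
    have := ((h1.fun_pow 2).const_mul ((q : ℝ) - 1)).fun_sub
      ((h2.fun_pow 2).const_mul ((p : ℝ) - 1))
    simpa using this
  have : DD p q x y = fun s => ((q : ℝ) - 1) * x s ^ 2 - ((p : ℝ) - 1) * y s ^ 2 := rfl
  rw [this]
  exact h3.deriv

lemma not_pos (hSu : claimSuper) {p q : ℕ} {L : ℝ} {x y : ℝ → ℝ} (hp : 2 ≤ p) (hq : 2 ≤ q)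
    (h : Chord p q L x y) (hD : ∀ s ∈ Icc 0 L, 0 < DD p q x y s) : False := by
  obtain ⟨hx, hy, hc⟩ := h.curve
  have h1 := (hSu p q 0 L x y hp hq h.L_pos h.curve
    (fun s hs => hD s (Ioc_subset_Icc_self hs)) h.final.2.1 h.final.2.2).1
  have hL := h.L_pos
  have h0m : (0 : ℝ) ∈ Icc 0 L := ⟨le_rfl, hL.le⟩
  have hLm : L ∈ Icc 0 L := ⟨hL.le, le_rfl⟩
  have hdx : Continuous (deriv x) := hx.continuous_deriv (by norm_num)
  have hdy : Continuous (deriv y) := hy.continuous_deriv (by norm_num)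
  have hcD : Continuous (DD p q x y) := cont_DD hx.continuous hy.continuous
  have hcw : Continuous (wt p q x y) := cont_wt hx.continuous hy.continuous
  have hcd : Continuous (deriv (DD p q x y)) := by
    have : deriv (DD p q x y) = fun s => ((q : ℝ) - 1) * (2 * x s * deriv x s) -
        ((p : ℝ) - 1) * (2 * y s * deriv y s) := funext (deriv_DD hx hy)
    rw [this]
    have := hx.continuous
    have := hy.continuous
    fun_prop
  have hD0 := hD 0 h0m
  have hDL := hD L hLm
  have hs0 : 0 < Real.sqrt (DD p q x y 0) := Real.sqrt_pos.2 hD0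
  have hsL : 0 < Real.sqrt (DD p q x y L) := Real.sqrt_pos.2 hDL
  have hG : Tendsto (fun s => wt p q x y s * (deriv (DD p q x y) s /
      (2 * Real.sqrt (DD p q x y s)))) (𝓝[>] 0) (𝓝 (wt p q x y 0 * (deriv (DD p q x y) 0 /
      (2 * Real.sqrt (DD p q x y 0))))) := by
    have : ContinuousAt (fun s => wt p q x y s * (deriv (DD p q x y) s /
      (2 * Real.sqrt (DD p q x y s)))) 0 := by
      refine hcw.continuousAt.mul (hcd.continuousAt.div
        (continuous_const.mul hcD.sqrt).continuousAt ?_)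
      positivity
    exact this.tendsto.mono_left nhdsWithin_le_nhds
  have hle := ge_of_tendsto hG (b := wt p q x y L * Real.sqrt (DD p q x y L))
    (by filter_upwards [Ioc_mem_nhdsGT hL] with s hs using h1 s hs)
  have hw0 : 0 < wt p q x y 0 := by
    have := hc 0 h0m
    exact mul_pos (pow_pos this.1 _) (pow_pos this.2.1 _)
  have hwL : 0 < wt p q x y L := by
    have := hc L hLm
    exact mul_pos (pow_pos this.1 _) (pow_pos this.2.1 _)
  have hd0 : deriv (DD p q x y) 0 = -(2 * DD p q x y 0) := by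
    rw [deriv_DD hx hy, h.initial.2.1, h.initial.2.2]
    unfold DD
    ring
  have hneg : deriv (DD p q x y) 0 / (2 * Real.sqrt (DD p q x y 0)) < 0 := by
    rw [hd0]
    exact div_neg_of_neg_of_pos (by linarith) (by positivity)
  have h2 : wt p q x y 0 * (deriv (DD p q x y) 0 / (2 * Real.sqrt (DD p q x y 0))) < 0 :=
    mul_neg_of_pos_of_neg hw0 hneg
  have h3 : 0 < wt p q x y L * Real.sqrt (DD p q x y L) := mul_pos hwL hsL
  linarith

lemma DD_swap (p q : ℕ) (x y : ℝ → ℝ) (s : ℝ) : DD q p y x s = -DD p q x y s := by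
  unfold DD
  ring

/-- A continuous function without zeros on a preconnected set has a constant sign. -/
lemma sign_const {f : ℝ → ℝ} (hf : Continuous f) {S : Set ℝ} (hS : IsPreconnected S)
    (hne : ∀ s ∈ S, f s ≠ 0) : (∀ s ∈ S, 0 < f s) ∨ ∀ s ∈ S, f s < 0 := by
  by_contra hcon
  push Not at hcon
  obtain ⟨⟨a, ha, hfa⟩, b, hb, hfb⟩ := hcon
  have := hS.intermediate_value ha hb hf.continuousOn
  obtain ⟨c, hc, hfc⟩ := this ⟨hfa, hfb⟩
  exact hne c hc hfc

lemma exists_zero (hSu : claimSuper) (hS : claimSym) {p q : ℕ} {L : ℝ} {x y : ℝ → ℝ}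
    (hp : 2 ≤ p) (hq : 2 ≤ q) (h : Chord p q L x y) : ∃ s ∈ Icc 0 L, DD p q x y s = 0 := by
  by_contra hcon
  push Not at hcon
  have hcD : Continuous (DD p q x y) := cont_DD h.curve.1.continuous h.curve.2.1.continuous
  rcases sign_const hcD isPreconnected_Icc hcon with h1 | h1
  · exact not_pos hSu hp hq h h1
  · refine not_pos hSu hq hp (hS.1 p q L x y h).2 ?_
    intro s hs
    rw [DD_swap]
    have := h1 s hs
    linarith

lemma half (hSu : claimSuper) (hS : claimSym) {p q : ℕ} {L : ℝ} {x y : ℝ → ℝ} {s₁ : ℝ}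
    (hp : 2 ≤ p) (hq : 2 ≤ q) (h : Chord p q L x y) (h0 : 0 ≤ s₁) (h1 : s₁ < L)
    (hne : ∀ s ∈ Ioc s₁ L, DD p q x y s ≠ 0) :
    ∫ s in s₁..L, (wt p q x y s)⁻¹ ≤ (wt p q x y L)⁻¹ := by
  obtain ⟨hx, hy, hc⟩ := h.curve
  have hcD : Continuous (DD p q x y) := cont_DD hx.continuous hy.continuous
  have hcur : Curve p q s₁ L x y := ⟨hx, hy, fun s hs => hc s ⟨h0.trans hs.1, hs.2⟩⟩
  rcases sign_const hcD isPreconnected_Ioc hne with h2 | h2
  · exact (hSu p q s₁ L x y hp hq h1 hcur h2 h.final.2.1 h.final.2.2).2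
  · have h3 := (hSu q p s₁ L y x hq hp h1 (hS.2.1 p q s₁ L x y hcur) (fun s hs => by
      rw [DD_swap]; have := h2 s hs; linarith) h.final.2.2 h.final.2.1).2
    have h4 : ∀ s, wt q p y x s = wt p q x y s := hS.2.2 p q x y
    simp only [h4] at h3
    exact h3

end IInv

open IInv in
theorem prfInv (hC : claimCross) (hSu : claimSuper) (hS : claimSym) : claimInv := by
  intro p q L x y hp hq h
  obtain ⟨hc0, hcL, hcu⟩ := hC p q L x y hp hq h
  obtain ⟨s₁, hs₁, hz⟩ := exists_zero hSu hS hp hq h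
  have hpos0 : 0 < s₁ := lt_of_le_of_ne hs₁.1 (fun he => hc0 (he ▸ hz))
  have hltL : s₁ < L := lt_of_le_of_ne hs₁.2 (fun he => hcL (he ▸ hz))
  refine ⟨⟨s₁, ⟨hs₁, hz⟩, fun s hs => hcu s hs.1 s₁ hs₁ hs.2 hz⟩, ?_⟩
  have hcw : Continuous (wt p q x y) := cont_wt h.curve.1.continuous h.curve.2.1.continuous
  have hwpos : ∀ s ∈ Icc 0 L, 0 < wt p q x y s := fun s hs => by
    have := h.curve.2.2 s hs
    exact mul_pos (pow_pos this.1 _) (pow_pos this.2.1 _)
  have hcont : ContinuousOn (fun s => (wt p q x y s)⁻¹) (Icc 0 L) :=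
    hcw.continuousOn.inv₀ (fun s hs => (hwpos s hs).ne')
  have hright := half hSu hS hp hq h hpos0.le hltL (fun s hs he => by
    have := hcu s ⟨hpos0.le.trans hs.1.le, hs.2⟩ s₁ hs₁ he hz
    exact absurd this hs.1.ne')
  have hrev := (hS.1 p q L x y h).1
  have hleft := half hSu hS hp hq hrev (s₁ := L - s₁) (by linarith) (by linarith)
    (fun s hs he => by
      have h1 : L - s ∈ Icc 0 L := ⟨by linarith [hs.2], by linarith [hs.1, hs₁.2]⟩
      have h2 : DD p q x y (L - s) = 0 := he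
      have := hcu (L - s) h1 s₁ hs₁ h2 hz
      linarith [hs.1])
  have hleft' : ∫ s in (0 : ℝ)..s₁, (wt p q x y s)⁻¹ ≤ (wt p q x y 0)⁻¹ := by
    have e1 : ∫ s in (L - s₁)..L, (wt p q (fun s => x (L - s)) (fun s => y (L - s)) s)⁻¹ =
        ∫ s in (0 : ℝ)..s₁, (wt p q x y s)⁻¹ := by
      have := intervalIntegral.integral_comp_sub_left (fun s => (wt p q x y s)⁻¹) L
        (a := L - s₁) (b := L)
      simp only [sub_self, sub_sub_cancel] at this
      exact this
    have e2 : wt p q (fun s => x (L - s)) (fun s => y (L - s)) L = wt p q x y 0 := by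
      unfold wt
      simp
    rw [e1, e2] at hleft
    exact hleft
  have hi1 : IntervalIntegrable (fun s => (wt p q x y s)⁻¹) volume 0 s₁ := by
    refine ContinuousOn.intervalIntegrable ?_
    rw [uIcc_of_le hpos0.le]
    exact hcont.mono (Icc_subset_Icc le_rfl hs₁.2)
  have hi2 : IntervalIntegrable (fun s => (wt p q x y s)⁻¹) volume s₁ L := by
    refine ContinuousOn.intervalIntegrable ?_
    rw [uIcc_of_le hltL.le]
    exact hcont.mono (Icc_subset_Icc hs₁.1 le_rfl)
  rw [← intervalIntegral.integral_add_adjacent_intervals hi1 hi2]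
  linarith

end Pool.Agent.Work.MP_408f4b_gt
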