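import Pool.Agent.Work.MP_408f4b_gt.Stmts

set_option autoImplicit false

/-!
# The force and the potential of the problem
-/

namespace Pool.Agent.Work.MP_408f4b_gt

open MeasureTheory Set Filter Topology

namespace IKK

theorem cos_pos' {u : ℝ} (hu : u ∈ Ioo 0 (Real.pi / 2)) : 0 < Real.cos u :=
  Real.cos_pos_of_mem_Ioo ⟨by have := Real.pi_pos; linarith [hu.1], hu.2⟩

theorem sin_pos' {u : ℝ} (hu : u ∈ Ioo 0 (Real.pi / 2)) : 0 < Real.sin u :=
  Real.sin_pos_of_mem_Ioo ⟨hu.1, by have := Real.pi_pos; linarith [hu.2]⟩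

theorem anti' {Q P : ℝ} (hQ : 0 < Q) (hP : 0 < P) :
    StrictAntiOn (fun u => Q * (Real.cos u / Real.sin u) - P * (Real.sin u / Real.cos u))
      (Ioo 0 (Real.pi / 2)) := by
  intro u hu v hv huv
  have cu := cos_pos' hu
  have su := sin_pos' hu
  have cv := cos_pos' hv
  have sv := sin_pos' hv
  have h1 : Real.cos v < Real.cos u :=
    Real.cos_lt_cos_of_nonneg_of_le_pi_div_two hu.1.le hv.2.le huv
  have h2 : Real.sin u < Real.sin v :=
    Real.sin_lt_sin_of_lt_of_le_pi_div_two (by have := Real.pi_pos; linarith [hu.1]) hv.2.le huv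
  have h3 : Real.cos v / Real.sin v < Real.cos u / Real.sin u := by
    rw [div_lt_div_iff₀ sv su]
    nlinarith
  have h4 : Real.sin u / Real.cos u < Real.sin v / Real.cos v := by
    rw [div_lt_div_iff₀ cu cv]
    nlinarith
  have h5 := mul_lt_mul_of_pos_left h3 hQ
  have h6 := mul_lt_mul_of_pos_left h4 hP
  show Q * (Real.cos v / Real.sin v) - P * (Real.sin v / Real.cos v) <
    Q * (Real.cos u / Real.sin u) - P * (Real.sin u / Real.cos u)
  linarith

end IKK

open IKK in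
theorem prfKK : claimKK := by
  intro p q hp hq
  obtain ⟨a, rfl⟩ : ∃ a, p = a + 2 := ⟨p - 2, by omega⟩
  obtain ⟨b, rfl⟩ : ∃ b, q = b + 2 := ⟨q - 2, by omega⟩
  have eP : ((a + 2 : ℕ) : ℝ) - 1 = (a : ℝ) + 1 := by push_cast; ring
  have eQ : ((b + 2 : ℕ) : ℝ) - 1 = (b : ℝ) + 1 := by push_cast; ring
  have hP : (0 : ℝ) < (a : ℝ) + 1 := by positivity
  have hQ : (0 : ℝ) < (b : ℝ) + 1 := by positivity
  have hr : 0 < ((b : ℝ) + 1) / ((a : ℝ) + 1) := div_pos hQ hP
  have hs : 0 < Real.sqrt (((b : ℝ) + 1) / ((a : ℝ) + 1)) := Real.sqrt_pos.2 hr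
  have hang : ang (a + 2) (b + 2) = Real.arctan (Real.sqrt (((b : ℝ) + 1) / ((a : ℝ) + 1))) := by
    unfold ang
    rw [eP, eQ]
  have hmem : ang (a + 2) (b + 2) ∈ Ioo 0 (Real.pi / 2) := by
    rw [hang]
    exact ⟨Real.arctan_pos.2 hs, Real.arctan_lt_pi_div_two _⟩
  have hkk : ∀ u, kk (a + 2) (b + 2) u = ((b : ℝ) + 1) * (Real.cos u / Real.sin u) -
      ((a : ℝ) + 1) * (Real.sin u / Real.cos u) := by
    intro u
    unfold kk
    rw [eP, eQ]
  have e1 : a + 2 - 1 = a + 1 := by omega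
  have e2 : b + 2 - 1 = b + 1 := by omega
  have hbb : bb (a + 2) (b + 2) = fun u => (Real.cos u ^ (a + 1) * Real.sin u ^ (b + 1)) ^ 2 /
      (Real.cos (ang (a + 2) (b + 2)) ^ (a + 1) * Real.sin (ang (a + 2) (b + 2)) ^ (b + 1)) ^ 2 := by
    funext u
    unfold bb
    rw [e1, e2]
  have hC : 0 < (Real.cos (ang (a + 2) (b + 2)) ^ (a + 1) *
      Real.sin (ang (a + 2) (b + 2)) ^ (b + 1)) ^ 2 :=
    pow_pos (mul_pos (pow_pos (cos_pos' hmem) _) (pow_pos (sin_pos' hmem) _)) _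
  refine ⟨⟨hmem, ?_, ?_, ?_, ?_, ?_⟩, ?_⟩
  · have h := anti' hQ hP
    intro u hu v hv huv
    rw [hkk, hkk]
    exact h hu hv huv
  · rw [hkk]
    have ht : Real.tan (ang (a + 2) (b + 2)) = Real.sqrt (((b : ℝ) + 1) / ((a : ℝ) + 1)) := by
      rw [hang, Real.tan_arctan]
    have h1 : Real.sin (ang (a + 2) (b + 2)) / Real.cos (ang (a + 2) (b + 2)) =
        Real.sqrt (((b : ℝ) + 1) / ((a : ℝ) + 1)) := by
      rw [← Real.tan_eq_sin_div_cos, ht]
    have h2 : Real.cos (ang (a + 2) (b + 2)) / Real.sin (ang (a + 2) (b + 2)) =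
        (Real.sqrt (((b : ℝ) + 1) / ((a : ℝ) + 1)))⁻¹ := by
      rw [← h1, inv_div]
    rw [h1, h2]
    have h3 : Real.sqrt (((b : ℝ) + 1) / ((a : ℝ) + 1)) ^ 2 = ((b : ℝ) + 1) / ((a : ℝ) + 1) :=
      Real.sq_sqrt hr.le
    set w := Real.sqrt (((b : ℝ) + 1) / ((a : ℝ) + 1)) with hw
    have h4 : w ^ 2 * ((a : ℝ) + 1) = (b : ℝ) + 1 := by
      rw [h3]
      field_simp
    rw [sub_eq_zero, ← h4]
    field_simp
  · intro u hu
    have cu := cos_pos' hu
    have su := sin_pos' hu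
    rw [hbb, hkk]
    have d1 : HasDerivAt (fun u => Real.cos u ^ (a + 1))
        (((a + 1 : ℕ) : ℝ) * Real.cos u ^ a * (-Real.sin u)) u := by
      have := (Real.hasDerivAt_cos u).pow (a + 1)
      rw [Nat.add_sub_cancel] at this
      exact this
    have d2 : HasDerivAt (fun u => Real.sin u ^ (b + 1))
        (((b + 1 : ℕ) : ℝ) * Real.sin u ^ b * Real.cos u) u := by
      have := (Real.hasDerivAt_sin u).pow (b + 1)
      rw [Nat.add_sub_cancel] at this
      exact this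
    have d3 := ((d1.mul d2).pow 2).div_const ((Real.cos (ang (a + 2) (b + 2)) ^ (a + 1) *
      Real.sin (ang (a + 2) (b + 2)) ^ (b + 1)) ^ 2)
    refine d3.congr_deriv ?_
    have hC' := hC.ne'
    generalize (Real.cos (ang (a + 2) (b + 2)) ^ (a + 1) *
      Real.sin (ang (a + 2) (b + 2)) ^ (b + 1)) ^ 2 = C at hC'
    simp only [Pi.mul_apply]
    push_cast
    have c0 := cu.ne'
    have s0 := su.ne'
    field_simp
    ring
  · intro u hu
    rw [hbb]
    exact div_pos (pow_pos (mul_pos (pow_pos (cos_pos' hu) _) (pow_pos (sin_pos' hu) _)) _) hC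
  · rw [hbb]
    exact div_self hC.ne'
  · intro x y hx hy
    have hyx : 0 < y / x := div_pos hy hx
    have hx2 : 0 < x ^ 2 := by positivity
    rw [hang, eP, eQ]
    constructor
    · rw [Real.arctan_lt_arctan_iff, Real.lt_sqrt hyx.le, div_pow, div_lt_div_iff₀ hx2 hP]
      constructor <;> intro h <;> linarith
    · rw [Real.arctan_inj, eq_comm, Real.sqrt_eq_iff_mul_self_eq hr.le hyx.le, ← sq, div_pow,
        div_eq_div_iff hP.ne' hx2.ne']
      constructor <;> intro h <;> linarith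

end Pool.Agent.Work.MP_408f4b_gt
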