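import Pool.Agent.Work.MP_408f4b_gt.Stmts

set_option autoImplicit false

/-!
# The lower arm descends until the end
-/

namespace Pool.Agent.Work.MP_408f4b_gt

open Set Filter Topology

namespace ILow

/-! ### real analysis -/

theorem left_lt {f : ℝ → ℝ} {f' t : ℝ} (h : HasDerivAt f f' t) (hf : 0 < f') :
    ∀ᶠ s in 𝓝[<] t, f s < f t := by
  have h1 := (hasDerivAt_iff_tendsto_slope.1 h).eventually (lt_mem_nhds hf)
  have h2 : ∀ᶠ s in 𝓝[<] t, 0 < slope f t s :=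
    h1.filter_mono (nhdsWithin_mono t fun s hs => ne_of_lt hs)
  filter_upwards [h2, self_mem_nhdsWithin] with s hs1 hs2
  rw [slope_def_field] at hs1
  have hs3 : s - t < 0 := sub_neg.2 hs2
  by_contra hc
  push Not at hc
  have : (f s - f t) / (s - t) ≤ 0 := div_nonpos_of_nonneg_of_nonpos (by linarith) hs3.le
  linarith

theorem right_gt {f : ℝ → ℝ} {f' t : ℝ} (h : HasDerivAt f f' t) (hf : 0 < f') :
    ∀ᶠ s in 𝓝[>] t, f t < f s := by
  have h1 := (hasDerivAt_iff_tendsto_slope.1 h).eventually (lt_mem_nhds hf)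
  have h2 : ∀ᶠ s in 𝓝[>] t, 0 < slope f t s :=
    h1.filter_mono (nhdsWithin_mono t fun s hs => ne_of_gt hs)
  filter_upwards [h2, self_mem_nhdsWithin] with s hs1 hs2
  rw [slope_def_field] at hs1
  have hs3 : 0 < s - t := sub_pos.2 hs2
  by_contra hc
  push Not at hc
  have : (f s - f t) / (s - t) ≤ 0 := div_nonpos_of_nonpos_of_nonneg (by linarith) hs3.le
  linarith

theorem right_lt {f : ℝ → ℝ} {f' t : ℝ} (h : HasDerivAt f f' t) (hf : f' < 0) :
    ∀ᶠ s in 𝓝[>] t, f s < f t := by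
  have h1 := right_gt (f := fun s => -f s) h.neg (by linarith : 0 < -f')
  filter_upwards [h1] with s hs
  linarith

theorem tendsto_left {f : ℝ → ℝ} {a c t : ℝ} (hf : ContinuousOn f (Icc a c)) (ht : t ∈ Icc a c)
    (hat : a < t) : Tendsto f (𝓝[<] t) (𝓝 (f t)) := by
  refine (hf t ht).mono_left (nhdsWithin_le_of_mem ?_)
  exact Filter.mem_of_superset (Ioo_mem_nhdsLT hat) fun s hs => ⟨hs.1.le, hs.2.le.trans ht.2⟩

theorem tendsto_right {f : ℝ → ℝ} {a c t : ℝ} (hf : ContinuousOn f (Icc a c)) (ht : t ∈ Icc a c)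
    (htc : t < c) : Tendsto f (𝓝[>] t) (𝓝 (f t)) := by
  refine (hf t ht).mono_left (nhdsWithin_le_of_mem ?_)
  exact Filter.mem_of_superset (Ioo_mem_nhdsGT htc) fun s hs => ⟨ht.1.trans hs.1.le, hs.2.le⟩

theorem le_left {f : ℝ → ℝ} {a c t y : ℝ} (hf : ContinuousOn f (Icc a c)) (ht : t ∈ Icc a c)
    (hat : a < t) (h : ∀ s ∈ Ioo a t, f s ≤ y) : f t ≤ y :=
  le_of_tendsto (tendsto_left hf ht hat)
    (Filter.mem_of_superset (Ioo_mem_nhdsLT hat) fun s hs => h s hs)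

theorem ge_left {f : ℝ → ℝ} {a c t y : ℝ} (hf : ContinuousOn f (Icc a c)) (ht : t ∈ Icc a c)
    (hat : a < t) (h : ∀ s ∈ Ioo a t, y ≤ f s) : y ≤ f t :=
  ge_of_tendsto (tendsto_left hf ht hat)
    (Filter.mem_of_superset (Ioo_mem_nhdsLT hat) fun s hs => h s hs)

theorem ge_right {f : ℝ → ℝ} {a c t y : ℝ} (hf : ContinuousOn f (Icc a c)) (ht : t ∈ Icc a c)
    (htc : t < c) (h : ∀ s ∈ Ioo t c, y ≤ f s) : y ≤ f t :=
  ge_of_tendsto (tendsto_right hf ht htc)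
    (Filter.mem_of_superset (Ioo_mem_nhdsGT htc) fun s hs => h s hs)

theorem least {f : ℝ → ℝ} {a c : ℝ} (hf : ContinuousOn f (Icc a c))
    (h : ∃ t ∈ Icc a c, 0 ≤ f t) :
    ∃ t ∈ Icc a c, 0 ≤ f t ∧ ∀ s ∈ Ico a t, f s < 0 := by
  have h1 : IsCompact (Icc a c ∩ f ⁻¹' Ici 0) :=
    isCompact_Icc.of_isClosed_subset (hf.preimage_isClosed_of_isClosed isClosed_Icc isClosed_Ici)
      inter_subset_left
  obtain ⟨t, ht⟩ := h1.exists_isLeast (by
    obtain ⟨t, h2, h3⟩ := h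
    exact ⟨t, h2, h3⟩)
  refine ⟨t, ht.1.1, ht.1.2, fun s hs => ?_⟩
  by_contra hc
  push Not at hc
  have := ht.2 (show s ∈ Icc a c ∩ f ⁻¹' Ici 0 from ⟨⟨hs.1, hs.2.le.trans ht.1.1.2⟩, hc⟩)
  linarith [hs.2]

theorem greatest {f : ℝ → ℝ} {a c : ℝ} (hf : ContinuousOn f (Icc a c))
    (h : ∃ t ∈ Icc a c, 0 ≤ f t) :
    ∃ t ∈ Icc a c, 0 ≤ f t ∧ ∀ s ∈ Ioc t c, f s < 0 := by
  have h1 : IsCompact (Icc a c ∩ f ⁻¹' Ici 0) :=
    isCompact_Icc.of_isClosed_subset (hf.preimage_isClosed_of_isClosed isClosed_Icc isClosed_Ici)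
      inter_subset_left
  obtain ⟨t, ht⟩ := h1.exists_isGreatest (by
    obtain ⟨t, h2, h3⟩ := h
    exact ⟨t, h2, h3⟩)
  refine ⟨t, ht.1.1, ht.1.2, fun s hs => ?_⟩
  by_contra hc
  push Not at hc
  have := ht.2 (show s ∈ Icc a c ∩ f ⁻¹' Ici 0 from ⟨⟨ht.1.1.1.trans hs.1.le, hs.2⟩, hc⟩)
  linarith [hs.1]

theorem mono {F F' : ℝ → ℝ} {a c : ℝ} (hF : ContinuousOn F (Icc a c))
    (hd : ∀ s ∈ Ioo a c, HasDerivAt F (F' s) s) (h : ∀ s ∈ Ioo a c, 0 ≤ F' s) :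
    MonotoneOn F (Icc a c) := by
  refine monotoneOn_of_deriv_nonneg (convex_Icc a c) hF ?_ ?_
  · intro s hs
    rw [interior_Icc] at hs
    exact (hd s hs).differentiableAt.differentiableWithinAt
  · intro s hs
    rw [interior_Icc] at hs
    rw [(hd s hs).deriv]
    exact h s hs

theorem anti {F F' : ℝ → ℝ} {a c : ℝ} (hF : ContinuousOn F (Icc a c))
    (hd : ∀ s ∈ Ioo a c, HasDerivAt F (F' s) s) (h : ∀ s ∈ Ioo a c, F' s ≤ 0) :
    AntitoneOn F (Icc a c) := by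
  refine antitoneOn_of_deriv_nonpos (convex_Icc a c) hF ?_ ?_
  · intro s hs
    rw [interior_Icc] at hs
    exact (hd s hs).differentiableAt.differentiableWithinAt
  · intro s hs
    rw [interior_Icc] at hs
    rw [(hd s hs).deriv]
    exact h s hs

theorem smono {F F' : ℝ → ℝ} {a c : ℝ} (hF : ContinuousOn F (Icc a c))
    (hd : ∀ s ∈ Ioo a c, HasDerivAt F (F' s) s) (h : ∀ s ∈ Ioo a c, 0 < F' s) :
    StrictMonoOn F (Icc a c) := by
  refine strictMonoOn_of_deriv_pos (convex_Icc a c) hF ?_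
  intro s hs
  rw [interior_Icc] at hs
  rw [(hd s hs).deriv]
  exact h s hs

theorem santi {F F' : ℝ → ℝ} {a c : ℝ} (hF : ContinuousOn F (Icc a c))
    (hd : ∀ s ∈ Ioo a c, HasDerivAt F (F' s) s) (h : ∀ s ∈ Ioo a c, F' s < 0) :
    StrictAntiOn F (Icc a c) := by
  refine strictAntiOn_of_deriv_neg (convex_Icc a c) hF ?_
  intro s hs
  rw [interior_Icc] at hs
  rw [(hd s hs).deriv]
  exact h s hs

/-! ### arms -/

section arm
variable {k b : ℝ → ℝ} {φ₀ d T : ℝ} {φ ψ : ℝ → ℝ}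

theorem cos_pos' (h : Arm k d T φ ψ) {t : ℝ} (ht : t ∈ Ioc 0 T) : 0 < Real.cos (ψ t) :=
  Real.cos_pos_of_mem_Ioo (h.rψ t ht)

theorem cos_tan (h : Arm k d T φ ψ) {t : ℝ} (ht : t ∈ Ioc 0 T) :
    Real.cos (ψ t) * Real.tan (ψ t) = Real.sin (ψ t) := by
  rw [mul_comm]
  exact Real.tan_mul_cos (cos_pos' h ht).ne'

theorem dψ0 (h : Arm k d T φ ψ) {t : ℝ} (ht : t ∈ Ioc 0 T) (h0 : ψ t = 0) :
    HasDerivAt ψ (k (φ t)) t := by
  have := h.dψ t ht
  rwa [h0, Real.tan_zero, mul_zero, sub_zero] at this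

theorem dsin (h : Arm k d T φ ψ) {t : ℝ} (ht : t ∈ Ioc 0 T) :
    HasDerivAt (fun s => Real.exp (d * s) * Real.sin (ψ s))
      (Real.exp (d * t) * (Real.cos (ψ t) * k (φ t))) t := by
  have h1 : HasDerivAt (fun s => Real.exp (d * s)) (Real.exp (d * t) * d) t := by
    simpa using ((hasDerivAt_id t).const_mul d).exp
  have h2 := h1.mul (h.dψ t ht).sin
  refine h2.congr_deriv ?_
  have h3 := cos_tan h ht
  linear_combination (-(Real.exp (d * t) * d)) * h3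

theorem dsin2 (h : Arm k d T φ ψ) {t : ℝ} (ht : t ∈ Ioc 0 T) :
    HasDerivAt (fun s => Real.exp (2 * d * s) * Real.sin (ψ s) ^ 2)
      (2 * Real.exp (2 * d * t) * (Real.sin (ψ t) * Real.cos (ψ t)) * k (φ t)) t := by
  have h1 : HasDerivAt (fun s => Real.exp (2 * d * s)) (Real.exp (2 * d * t) * (2 * d)) t := by
    simpa using ((hasDerivAt_id t).const_mul (2 * d)).exp
  have h2 := h1.mul ((h.dψ t ht).sin.pow 2)
  refine h2.congr_deriv ?_
  have h3 := cos_tan h ht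
  simp only [Pi.pow_apply]
  push_cast
  linear_combination (-(2 * Real.exp (2 * d * t) * Real.sin (ψ t) * d)) * h3

theorem csin (h : Arm k d T φ ψ) : ContinuousOn (fun s => Real.exp (d * s) * Real.sin (ψ s))
    (Icc 0 T) :=
  (by fun_prop : Continuous fun s : ℝ => Real.exp (d * s)).continuousOn.mul
    (Real.continuous_sin.comp_continuousOn h.cψ)

theorem csin2 (h : Arm k d T φ ψ) :
    ContinuousOn (fun s => Real.exp (2 * d * s) * Real.sin (ψ s) ^ 2) (Icc 0 T) :=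
  (by fun_prop : Continuous fun s : ℝ => Real.exp (2 * d * s)).continuousOn.mul
    ((Real.continuous_sin.comp_continuousOn h.cψ).pow 2)

theorem tan_neg' (h : Arm k d T φ ψ) {t : ℝ} (ht : t ∈ Ioc 0 T) (h0 : ψ t < 0) :
    Real.tan (ψ t) < 0 := Real.tan_neg_of_neg_of_pi_div_two_lt h0 (h.rψ t ht).1

theorem tan_pos' (h : Arm k d T φ ψ) {t : ℝ} (ht : t ∈ Ioc 0 T) (h0 : 0 < ψ t) :
    0 < Real.tan (ψ t) := Real.tan_pos_of_pos_of_lt_pi_div_two h0 (h.rψ t ht).2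

theorem SS_one {d : ℝ} {φ ψ : ℝ → ℝ} {b : ℝ → ℝ} {t : ℝ} (hb : b (φ t) = 1) :
    SS b d φ ψ t = Real.exp (2 * d * t) * Real.sin (ψ t) ^ 2 := by
  unfold SS
  rw [hb, Real.sin_sq]
  ring

theorem SS_zero {d : ℝ} {φ ψ : ℝ → ℝ} {b : ℝ → ℝ} (hc : Real.cos (ψ 0) = 0) :
    SS b d φ ψ 0 = 1 := by
  unfold SS
  rw [hc]
  simp

/-- the arm below the rest point with negative angle -/
theorem fact1 (hk : ∀ u ∈ Ioo 0 (Real.pi / 2), u < φ₀ → 0 < k u) (h : Arm k d T φ ψ)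
    (h0 : φ 0 ≤ φ₀) (hψ0 : ψ 0 = -(Real.pi / 2)) {t : ℝ} (ht : t ∈ Ioc 0 T)
    (hneg : ∀ s ∈ Ioo 0 t, ψ s < 0) :
    φ t < φ₀ ∧ ψ t ≤ 0 ∧ Real.exp (2 * d * t) * Real.sin (ψ t) ^ 2 ≤ 1 := by
  have hsub : Icc 0 t ⊆ Icc 0 T := Icc_subset_Icc_right ht.2
  have hioo : ∀ s ∈ Ioo 0 t, s ∈ Ioc 0 T := fun s hs => ⟨hs.1, hs.2.le.trans ht.2⟩
  have h1 : StrictAntiOn φ (Icc 0 t) := santi (F' := fun s => Real.tan (ψ s)) (h.cφ.mono hsub)
    (fun s hs => h.dφ s (hioo s hs)) fun s hs => tan_neg' h (hioo s hs) (hneg s hs)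
  have h2 : ∀ s ∈ Ioc 0 t, φ s < φ₀ := fun s hs =>
    (h1 ⟨le_rfl, ht.1.le⟩ ⟨hs.1.le, hs.2⟩ hs.1).trans_le h0
  have h3 : MonotoneOn (fun s => Real.exp (d * s) * Real.sin (ψ s)) (Icc 0 t) :=
    mono ((csin h).mono hsub) (fun s hs => dsin h (hioo s hs)) fun s hs =>
      mul_nonneg (Real.exp_pos _).le (mul_nonneg (cos_pos' h (hioo s hs)).le
        (hk _ (h.rφ s ⟨hs.1.le, hs.2.le.trans ht.2⟩) (h2 s ⟨hs.1, hs.2.le⟩)).le)
  have h4 := h3 ⟨le_rfl, ht.1.le⟩ ⟨ht.1.le, le_rfl⟩ ht.1.le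
  have h5 : ψ t ≤ 0 := le_left h.cψ ⟨ht.1.le, ht.2⟩ ht.1 fun s hs => (hneg s hs).le
  refine ⟨h2 t ⟨ht.1, le_rfl⟩, h5, ?_⟩
  simp only [mul_zero, Real.exp_zero, hψ0, Real.sin_neg, Real.sin_pi_div_two, one_mul] at h4
  have h6 : Real.exp (d * t) * Real.sin (ψ t) ≤ 0 :=
    mul_nonpos_of_nonneg_of_nonpos (Real.exp_pos _).le
      (Real.sin_nonpos_of_nonpos_of_neg_pi_le h5 (by
        have := (h.rψ t ht).1
        linarith [Real.pi_pos]))
  have h7 : Real.exp (2 * d * t) = Real.exp (d * t) * Real.exp (d * t) := by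
    rw [← Real.exp_add]
    congr 1
    ring
  rw [h7]
  nlinarith [h4, h6]

/-- an arm below the rest point which has angle zero turns up and goes up -/
theorem goUp (hk : ∀ u ∈ Ioo 0 (Real.pi / 2), u < φ₀ → 0 < k u) (h : Arm k d T φ ψ)
    {t c : ℝ} (ht : 0 < t) (htc : t < c) (hc : c ≤ T) (h0 : ψ t = 0)
    (hlow : ∀ s ∈ Icc t c, φ s < φ₀) : 0 < ψ c := by
  have hIoc : ∀ s ∈ Icc t c, s ∈ Ioc 0 T := fun s hs => ⟨ht.trans_le hs.1, hs.2.trans hc⟩
  have hkpos : ∀ s ∈ Icc t c, 0 < k (φ s) := fun s hs =>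
    hk _ (h.rφ s ⟨(hIoc s hs).1.le, (hIoc s hs).2⟩) (hlow s hs)
  by_contra hcon
  push Not at hcon
  have e1 := right_gt (dψ0 h (hIoc t ⟨le_rfl, htc.le⟩) h0) (hkpos t ⟨le_rfl, htc.le⟩)
  obtain ⟨s0, hs0, hs0'⟩ := (e1.and (Ioo_mem_nhdsGT htc)).exists
  rw [h0] at hs0
  have hcont : ContinuousOn (fun s => -ψ s) (Icc s0 c) :=
    (h.cψ.mono (Icc_subset_Icc (ht.trans hs0'.1).le hc)).neg
  obtain ⟨t3, ht3, hge, hlt⟩ := least hcont ⟨c, ⟨hs0'.2.le, le_rfl⟩, by simpa using hcon⟩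
  have hs03 : s0 < t3 := by
    rcases lt_or_eq_of_le ht3.1 with h1 | h1
    · exact h1
    · rw [← h1] at hge
      linarith
  have h3z : ψ t3 = 0 := by
    have h4 : -ψ t3 ≤ 0 := le_left (f := fun s => -ψ s) hcont ht3 hs03 fun s hs => (hlt s ⟨hs.1.le, hs.2⟩).le
    linarith
  have h3m : t3 ∈ Icc t c := ⟨hs0'.1.le.trans ht3.1, ht3.2⟩
  have e2 := left_lt (dψ0 h (hIoc t3 h3m) h3z) (hkpos t3 h3m)
  obtain ⟨s, hs, hs'⟩ := (e2.and (Ioo_mem_nhdsLT hs03)).exists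
  rw [h3z] at hs
  have := hlt s ⟨hs'.1.le, hs'.2⟩
  linarith

end arm

end ILow

open ILow in
theorem prfLow (hP : claimPot) (hS : claimSS) : claimLow := by
  intro k b φ₀ d T A ψA B ψB hpot hd hT hA hB h0 h0le hψA0 hψB0 hBA hψ hψAT hψBT
  have hpi := Real.pi_pos
  obtain ⟨P1, P2, P3, P4⟩ := hP k b φ₀ hpot
  obtain ⟨SA1, SA2, SA3, SA4⟩ := hS k b φ₀ d T A ψA hpot hd hT hA
  obtain ⟨SB1, SB2, SB3, SB4⟩ := hS k b φ₀ d T B ψB hpot hd hT hB
  have hcA : Real.cos (ψA 0) = 0 := by rw [hψA0, Real.cos_pi_div_two]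
  have hcB : Real.cos (ψB 0) = 0 := by rw [hψB0, Real.cos_neg, Real.cos_pi_div_two]
  have SA5 := SA4 hcA
  have SB5 := SB4 hcB
  have hB0 : B 0 ≤ φ₀ := h0 ▸ h0le
  -- the first zero of `ψB`
  obtain ⟨t1, ht1, ht1ge, ht1lt⟩ := least hB.cψ ⟨T, ⟨hT.le, le_rfl⟩, hψBT.ge⟩
  have ht1pos : 0 < t1 := by
    rcases lt_or_eq_of_le ht1.1 with h1 | h1
    · exact h1
    · rw [← h1, hψB0] at ht1ge
      linarith
  have ht1z : ψB t1 = 0 :=
    le_antisymm (le_left hB.cψ ht1 ht1pos fun s hs => (ht1lt s ⟨hs.1.le, hs.2⟩).le) ht1ge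
  -- fact 1
  have F1 : ∀ t ∈ Ioc 0 t1, B t < φ₀ ∧ ψB t ≤ 0 ∧
      Real.exp (2 * d * t) * Real.sin (ψB t) ^ 2 ≤ 1 := fun t ht =>
    fact1 P2 hB hB0 hψB0 ⟨ht.1, ht.2.trans ht1.2⟩ fun s hs =>
      ht1lt s ⟨hs.1.le, hs.2.trans_le ht.2⟩
  -- fact 2
  have F2 : ∀ t ∈ Ioc 0 t1, A t = φ₀ → 0 < ψA t := by
    intro t ht hAt
    by_contra hcon
    push Not at hcon
    have htT : t ∈ Ioc 0 T := ⟨ht.1, ht.2.trans ht1.2⟩
    have h1 := SA5 t ⟨htT.1.le, htT.2⟩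
    rw [SS_one (by rw [hAt]; exact hpot.one)] at h1
    have hpe : 0 < Real.exp (2 * d * t) := Real.exp_pos _
    rcases lt_or_eq_of_le htT.2 with h2 | h2
    · have h3 := hψ t ⟨ht.1, h2⟩
      have h4 : Real.sin (ψB t) < Real.sin (ψA t) :=
        Real.sin_lt_sin_of_lt_of_le_pi_div_two (hB.rψ t htT).1.le (hA.rψ t htT).2.le h3
      have h5 : Real.sin (ψA t) ≤ 0 := Real.sin_nonpos_of_nonpos_of_neg_pi_le hcon (by
        have := (hA.rψ t htT).1
        linarith)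
      have h6 := (F1 t ht).2.2
      have h7 : Real.sin (ψA t) ^ 2 < Real.sin (ψB t) ^ 2 := by nlinarith
      have h8 := mul_lt_mul_of_pos_left h7 hpe
      linarith
    · rw [h2, hψAT, Real.sin_zero] at h1
      norm_num at h1
  -- fact 3
  have F3 : ∀ t ∈ Ioc 0 t1, ψA t ≤ 0 → φ₀ < A t := by
    intro t ht hψt
    by_contra hcon
    push Not at hcon
    have hsub : Icc 0 t1 ⊆ Icc 0 T := Icc_subset_Icc_right ht1.2
    have hcont : ContinuousOn (fun s => min (-ψA s) (φ₀ - A s)) (Icc 0 t1) :=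
      continuous_min.comp_continuousOn
        ((hA.cψ.mono hsub).neg.prodMk (continuousOn_const.sub (hA.cφ.mono hsub)))
    obtain ⟨t0, ht0, hge, hlt⟩ := least hcont ⟨t, ⟨ht.1.le, ht.2⟩, le_min (by linarith)
      (by linarith)⟩
    have hge1 : ψA t0 ≤ 0 := by
      have := hge.trans (min_le_left _ _)
      linarith
    have hge2 : A t0 ≤ φ₀ := by
      have := hge.trans (min_le_right _ _)
      linarith
    have ht0pos : 0 < t0 := by
      rcases lt_or_eq_of_le ht0.1 with h1 | h1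
      · exact h1
      · rw [← h1, hψA0] at hge1
        linarith
    have ht0T : t0 ∈ Ioc 0 T := ⟨ht0pos, ht0.2.trans ht1.2⟩
    rcases lt_or_eq_of_le hge2 with h2 | h2
    · have e1 : ∀ᶠ s in 𝓝[<] t0, A s < φ₀ :=
        (tendsto_left hA.cφ ⟨ht0T.1.le, ht0T.2⟩ ht0pos).eventually (gt_mem_nhds h2)
      have e2 : ∀ᶠ s in 𝓝[<] t0, ψA s < 0 := by
        rcases lt_or_eq_of_le hge1 with h3 | h3
        · exact (tendsto_left hA.cψ ⟨ht0T.1.le, ht0T.2⟩ ht0pos).eventually (gt_mem_nhds h3)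
        · have h4 := left_lt (dψ0 hA ht0T h3) (P2 _ (hA.rφ t0 ⟨ht0T.1.le, ht0T.2⟩) h2)
          rwa [h3] at h4
      obtain ⟨s, ⟨hs1, hs2⟩, hs3⟩ := ((e1.and e2).and (Ioo_mem_nhdsLT ht0pos)).exists
      have h5 := hlt s ⟨hs3.1.le, hs3.2⟩
      have h6 : 0 ≤ min (-ψA s) (φ₀ - A s) := le_min (by linarith) (by linarith)
      linarith
    · have := F2 t0 ⟨ht0pos, ht0.2⟩ h2
      linarith
  -- fact 4
  have F4 : t1 = T := by
    by_contra hne
    have ht1T : t1 < T := lt_of_le_of_ne ht1.2 hne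
    have hA1 : 0 < ψA t1 := by
      have := hψ t1 ⟨ht1pos, ht1T⟩
      linarith
    -- the upper arm goes up until `t1`
    have F4a : ∀ t ∈ Ioc 0 t1, 0 < ψA t := by
      intro t ht
      by_contra hcon
      push Not at hcon
      have hcont : ContinuousOn (fun s => -ψA s) (Icc 0 t1) :=
        (hA.cψ.mono (Icc_subset_Icc_right ht1.2)).neg
      obtain ⟨t', ht', hge, hlt⟩ := greatest hcont ⟨t, ⟨ht.1.le, ht.2⟩, by linarith⟩
      have h1 : t' < t1 := by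
        rcases lt_or_eq_of_le ht'.2 with h1 | h1
        · exact h1
        · rw [h1] at hge
          linarith
      have h2 : 0 < t' := by
        rcases lt_or_eq_of_le ht'.1 with h2 | h2
        · exact h2
        · rw [← h2, hψA0] at hge
          linarith
      have h3 : ψA t' = 0 := by
        have h4 : 0 ≤ ψA t' := ge_right (hA.cψ.mono (Icc_subset_Icc_right ht1.2)) ht' h1
          fun s hs => by
            have := hlt s ⟨hs.1, hs.2.le⟩
            linarith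
        linarith
      have h4 : t' ∈ Ioc 0 T := ⟨h2, ht'.2.trans ht1.2⟩
      have h5 := F3 t' ⟨h2, ht'.2⟩ h3.le
      have e := right_lt (dψ0 hA h4 h3) (P3 _ (hA.rφ t' ⟨h4.1.le, h4.2⟩) h5)
      obtain ⟨s, hs, hs'⟩ := (e.and (Ioo_mem_nhdsGT h1)).exists
      rw [h3] at hs
      have := hlt s ⟨hs'.1, hs'.2.le⟩
      linarith
    -- the lower arm reaches the rest point
    have hB1 : B t1 < φ₀ := (F1 t1 ⟨ht1pos, le_rfl⟩).1
    have hcont : ContinuousOn (fun s => B s - φ₀) (Icc t1 T) :=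
      (hB.cφ.mono (Icc_subset_Icc_left ht1pos.le)).sub continuousOn_const
    obtain ⟨t2, ht2, hge, hlt⟩ := least hcont (by
      by_contra hcon
      push Not at hcon
      have := goUp P2 hB ht1pos ht1T le_rfl ht1z fun s hs => by
        have := hcon s hs
        linarith
      linarith)
    have ht12 : t1 < t2 := by
      rcases lt_or_eq_of_le ht2.1 with h1 | h1
      · exact h1
      · rw [← h1] at hge
        linarith
    have ht2pos : 0 < t2 := ht1pos.trans ht12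
    have hB2 : B t2 = φ₀ := by
      have h1 : B t2 - φ₀ ≤ 0 := le_left (f := fun s => B s - φ₀) hcont ht2 ht12 fun s hs => (hlt s ⟨hs.1.le, hs.2⟩).le
      linarith
    have hup : ∀ c ∈ Ioo t1 t2, 0 < ψB c := fun c hc =>
      goUp P2 hB ht1pos hc.1 (hc.2.le.trans ht2.2) ht1z fun s hs => by
        have := hlt s ⟨hs.1, hs.2.trans_lt hc.2⟩
        linarith
    have hup2 : 0 ≤ ψB t2 := ge_left (hB.cψ.mono (Icc_subset_Icc_left ht1pos.le)) ht2 ht12
      fun s hs => (hup s hs).le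
    have hSB2 := SB5 t2 ⟨ht2pos.le, ht2.2⟩
    have hSB2' := SS_one (d := d) (ψ := ψB) (by rw [hB2]; exact hpot.one : b (B t2) = 1)
    rw [hSB2'] at hSB2
    have hup3 : 0 < ψB t2 := by
      rcases lt_or_eq_of_le hup2 with h1 | h1
      · exact h1
      · rw [← h1, Real.sin_zero] at hSB2
        norm_num at hSB2
    have ht2T : t2 < T := by
      rcases lt_or_eq_of_le ht2.2 with h1 | h1
      · exact h1
      · rw [h1, hψBT] at hup3
        exact absurd hup3 (lt_irrefl _)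
    -- the upper arm goes up until `t2`
    have hAup : ∀ t ∈ Ioc 0 t2, 0 < ψA t := by
      intro t ht
      rcases le_or_gt t t1 with h1 | h1
      · exact F4a t ⟨ht.1, h1⟩
      · have h2 := hψ t ⟨ht.1, ht.2.trans_lt ht2T⟩
        rcases lt_or_eq_of_le ht.2 with h3 | h3
        · have := hup t ⟨h1, h3⟩
          linarith
        · rw [h3] at h2 ⊢
          linarith
    have hIoc2 : ∀ s ∈ Ioc 0 t2, s ∈ Ioc 0 T := fun s hs => ⟨hs.1, hs.2.trans ht2.2⟩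
    have hAmono : StrictMonoOn A (Icc 0 t2) :=
      smono (F' := fun s => Real.tan (ψA s)) (hA.cφ.mono (Icc_subset_Icc_right ht2.2))
        (fun s hs => hA.dφ s (hIoc2 s ⟨hs.1, hs.2.le⟩))
        fun s hs => tan_pos' hA (hIoc2 s ⟨hs.1, hs.2.le⟩) (hAup s ⟨hs.1, hs.2.le⟩)
    have hA2 : φ₀ < A t2 := by
      have := hBA t2 ⟨ht2pos, ht2.2⟩
      rwa [hB2] at this
    obtain ⟨tA, htA, hAtA⟩ := intermediate_value_Icc ht2pos.le
      (hA.cφ.mono (Icc_subset_Icc_right ht2.2)) (show φ₀ ∈ Icc (A 0) (A t2) from ⟨h0le, hA2.le⟩)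
    have htA2 : tA < t2 := by
      rcases lt_or_eq_of_le htA.2 with h1 | h1
      · exact h1
      · rw [h1] at hAtA
        linarith
    have hSAtA := SS_one (d := d) (ψ := ψA) (by rw [hAtA]; exact hpot.one : b (A tA) = 1)
    -- first part: comparison of the two quantities
    have c1 : SS b d A ψA tA ≤ SS b d B ψB tA := by
      have hsub : Icc 0 tA ⊆ Icc 0 T := Icc_subset_Icc_right (htA.2.trans ht2.2)
      have hm : MonotoneOn (fun s => SS b d B ψB s - SS b d A ψA s) (Icc 0 tA) := by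
        refine mono (F' := fun s => 2 * d * Real.exp (2 * d * s) * (1 - b (B s)) -
          2 * d * Real.exp (2 * d * s) * (1 - b (A s))) ((SB2.mono hsub).sub (SA2.mono hsub)) ?_ ?_
        · intro s hs
          have hs' : s ∈ Ioc 0 T := ⟨hs.1, hs.2.le.trans (htA.2.trans ht2.2)⟩
          exact (SB1 s hs').sub (SA1 s hs')
        · intro s hs
          have hs' : s ∈ Ioc 0 T := ⟨hs.1, hs.2.le.trans (htA.2.trans ht2.2)⟩
          have h1 : A s ≤ φ₀ := by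
            rw [← hAtA]
            exact (hAmono ⟨hs.1.le, hs.2.le.trans htA.2⟩ htA hs.2).le
          have h2 := P4 (B s) (A s) (hB.rφ s ⟨hs'.1.le, hs'.2⟩).1 (hBA s hs').le h1
          have h3 : 0 ≤ 2 * d * Real.exp (2 * d * s) :=
            mul_nonneg (by linarith) (Real.exp_pos _).le
          have h4 := mul_nonneg h3 (sub_nonneg.2 h2)
          linarith
      have h1 := hm ⟨le_rfl, htA.1⟩ ⟨htA.1, le_rfl⟩ htA.1
      simp only [SS_zero hcA, SS_zero hcB] at h1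
      linarith
    -- second part
    have c2 : Real.exp (2 * d * t2) * Real.sin (ψA t2) ^ 2 ≤
        Real.exp (2 * d * tA) * Real.sin (ψA tA) ^ 2 := by
      have hm : AntitoneOn (fun s => Real.exp (2 * d * s) * Real.sin (ψA s) ^ 2) (Icc tA t2) := by
        refine anti (F' := fun s => 2 * Real.exp (2 * d * s) *
          (Real.sin (ψA s) * Real.cos (ψA s)) * k (A s))
          ((csin2 hA).mono (Icc_subset_Icc htA.1 ht2.2)) ?_ ?_
        · intro s hs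
          exact dsin2 hA (hIoc2 s ⟨htA.1.trans_lt hs.1, hs.2.le⟩)
        · intro s hs
          have hs0 : 0 < s := htA.1.trans_lt hs.1
          have hs' : s ∈ Ioc 0 T := hIoc2 s ⟨hs0, hs.2.le⟩
          have h1 : φ₀ < A s := by
            rw [← hAtA]
            exact hAmono htA ⟨hs0.le, hs.2.le⟩ hs.1
          have h2 := P3 _ (hA.rφ s ⟨hs'.1.le, hs'.2⟩) h1
          have h3 : 0 < Real.sin (ψA s) := Real.sin_pos_of_pos_of_lt_pi (hAup s ⟨hs0, hs.2.le⟩) (by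
            have := (hA.rψ s hs').2
            linarith)
          exact mul_nonpos_of_nonneg_of_nonpos
            (mul_nonneg (mul_nonneg (by norm_num) (Real.exp_pos _).le)
              (mul_nonneg h3.le (cos_pos' hA hs').le)) h2.le
      exact hm ⟨le_rfl, htA2.le⟩ ⟨htA2.le, le_rfl⟩ htA2.le
    have c3 : SS b d B ψB tA ≤ SS b d B ψB t2 :=
      SB3 ⟨htA.1, htA.2.trans ht2.2⟩ ⟨ht2pos.le, ht2.2⟩ htA.2
    rw [← hSAtA] at c2
    rw [hSB2'] at c3
    have c4 : Real.exp (2 * d * t2) * Real.sin (ψA t2) ^ 2 ≤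
        Real.exp (2 * d * t2) * Real.sin (ψB t2) ^ 2 := c2.trans (c1.trans c3)
    have c5 : Real.sin (ψA t2) ^ 2 ≤ Real.sin (ψB t2) ^ 2 :=
      le_of_mul_le_mul_left c4 (Real.exp_pos _)
    have ht2m : t2 ∈ Ioc 0 T := ⟨ht2pos, ht2.2⟩
    have c6 : Real.sin (ψB t2) < Real.sin (ψA t2) :=
      Real.sin_lt_sin_of_lt_of_le_pi_div_two (hB.rψ t2 ht2m).1.le (hA.rψ t2 ht2m).2.le
        (hψ t2 ⟨ht2pos, ht2T⟩)
    have c7 : 0 < Real.sin (ψB t2) := Real.sin_pos_of_pos_of_lt_pi hup3 (by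
      have := (hB.rψ t2 ht2m).2
      linarith)
    nlinarith
  subst F4
  exact ⟨fun t ht => ht1lt t ⟨ht.1.le, ht.2⟩, fun t ht => (F1 t ht).1, F3⟩

end Pool.Agent.Work.MP_408f4b_gt
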