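import Pool.Agent.Work.MP_408f4b_gt.Stmts

set_option autoImplicit false

/-!
# Moments of the coordinates on the sphere
-/

namespace Pool.Agent.Work.MP_408f4b_gt

open MeasureTheory Set Filter Topology ProbabilityTheory

namespace IMom

/-- The coordinate as a linear form. -/
noncomputable def co {n : ℕ} (i : Fin n) : StrongDual ℝ (E n) :=
  innerSL ℝ (EuclideanSpace.single i (1 : ℝ))

theorem co_apply {n : ℕ} (i : Fin n) (x : E n) : co i x = x i := by
  unfold co
  rw [innerSL_apply_apply, EuclideanSpace.inner_single_left]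
  simp

theorem norm_co {n : ℕ} (i : Fin n) : ‖co i‖ = 1 := by
  unfold co
  rw [innerSL_apply_norm, PiLp.norm_single]
  simp

theorem int_one {n : ℕ} (i : Fin n) : ∫ x : E n, x i ∂(stdGaussian (E n)) = 0 := by
  have h := integral_strongDual_stdGaussian (co i)
  simpa only [co_apply] using h

theorem int_sq {n : ℕ} (i : Fin n) : ∫ x : E n, x i ^ 2 ∂(stdGaussian (E n)) = 1 := by
  have h := variance_dual_stdGaussian (co i)
  rw [variance_of_integral_eq_zero (co i).continuous.aemeasurable
    (integral_strongDual_stdGaussian (co i)), norm_co] at h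
  simpa only [co_apply, one_pow] using h

theorem norm_mul {n : ℕ} (i : Fin n) (x : E n) : ‖x‖ * (‖x‖⁻¹ • x) i = x i := by
  by_cases hx : x = 0
  · subst hx
    simp
  · have h0 : ‖x‖ ≠ 0 := norm_ne_zero_iff.2 hx
    rw [PiLp.smul_apply, smul_eq_mul, mul_inv_cancel_left₀ h0]

end IMom

open IMom in
theorem prfMom (hP : claimPolar) : claimMom := by
  intro n i
  have hn : 1 ≤ n := Nat.one_le_iff_ne_zero.2 (fun h => by subst h; exact i.elim0)
  obtain ⟨c, c₁, hc, hh⟩ := hP n hn
  have hS : c * (sig n).real univ = 1 := by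
    have h := (hh (fun _ => 1) continuousOn_const).1
    rw [integral_const, integral_const, smul_eq_mul, smul_eq_mul, mul_one, mul_one] at h
    rw [← h]
    simp
  have hSpos : (sig n).real univ ≠ 0 := fun h => by
    rw [h, mul_zero] at hS
    exact zero_ne_one hS
  have hc1 : c₁ ≠ 0 := by
    intro h1
    obtain ⟨-, h2, -, -, h3, -⟩ := hh (fun _ => 1) continuousOn_const
    rw [h1, zero_mul] at h2
    simp only [mul_one] at h2 h3
    rw [integral_eq_zero_iff_of_nonneg (fun x => norm_nonneg x) h3] at h2
    have h4 : ∫ x : E n, x i ^ 2 ∂(stdGaussian (E n)) = ∫ x : E n, 0 ∂(stdGaussian (E n)) := by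
      apply integral_congr_ae
      filter_upwards [h2] with x hx
      have h5 : x = 0 := norm_eq_zero.1 hx
      rw [h5]
      simp
    rw [int_sq, integral_zero] at h4
    exact one_ne_zero h4
  refine ⟨?_, ?_⟩
  · have h := (hh (fun x => x i) (by fun_prop)).2.1
    simp only [norm_mul] at h
    rw [int_one] at h
    rcases mul_eq_zero.1 h.symm with h' | h'
    · exact absurd h' hc1
    · exact h'
  · have h := (hh (fun x => x i ^ 2) (by fun_prop)).2.2.1
    simp only [← mul_pow, norm_mul] at h
    rw [int_sq] at h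
    have hn0 : (n : ℝ) ≠ 0 := by
      have : n ≠ 0 := by omega
      exact_mod_cast this
    rw [eq_div_iff hn0]
    have hc0 := hc.ne'
    apply mul_left_cancel₀ hc0
    rw [hS]
    linarith

end Pool.Agent.Work.MP_408f4b_gt
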