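import Pool.Agent.Work.MP_408f4b_gt.Stmts

set_option autoImplicit false

/-!
# The nearest point to the origin
-/

namespace Pool.Agent.Work.MP_408f4b_gt

open MeasureTheory Set Filter Topology

namespace INear

/-- The weight is positive on a curve. -/
theorem wt_pos {p q : ℕ} {a b : ℝ} {x y : ℝ → ℝ} (h : Curve p q a b x y) {s : ℝ}
    (hs : s ∈ Icc a b) : 0 < wt p q x y s := by
  obtain ⟨hx, hy, -, -⟩ := h.2.2 s hs
  exact mul_pos (pow_pos hx _) (pow_pos hy _)

end INear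

open INear in
theorem prfNear (hE : claimEqn) : claimNear := by
  intro p q L x y hp hq h
  have hL := h.L_pos
  have h0 : (0 : ℝ) ∈ Icc 0 L := ⟨le_refl _, hL.le⟩
  have h1 : L ∈ Icc 0 L := ⟨hL.le, le_refl _⟩
  have hder : ∀ s ∈ Icc 0 L,
      HasDerivAt (fun t => wt p q x y t * (x t * deriv x t + y t * deriv y t))
        (((p : ℝ) + q - 1) * wt p q x y s) s := fun s hs =>
    (hE p q 0 L x y hp hq hL h.curve s hs).2.2.2.2.1
  set F : ℝ → ℝ := fun t => wt p q x y t * (x t * deriv x t + y t * deriv y t) with hF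
  have hpq : (0 : ℝ) < (p : ℝ) + q - 1 := by
    have h2 : (2 : ℝ) ≤ p := by exact_mod_cast hp
    have h3 : (2 : ℝ) ≤ q := by exact_mod_cast hq
    linarith
  have hcont : ContinuousOn F (Icc 0 L) := fun s hs =>
    (hder s hs).continuousAt.continuousWithinAt
  have hmono : StrictMonoOn F (Icc 0 L) := by
    apply strictMonoOn_of_deriv_pos (convex_Icc 0 L) hcont
    intro s hs
    have hs' : s ∈ Icc 0 L := interior_subset hs
    rw [(hder s hs').deriv]
    exact mul_pos hpq (wt_pos h.curve hs')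
  have hc0 : x 0 * deriv x 0 + y 0 * deriv y 0 = -1 := by
    rw [h.initial.2.1, h.initial.2.2]
    linarith [h.initial.1]
  have hcL : x L * deriv x L + y L * deriv y L = 1 := by
    rw [h.final.2.1, h.final.2.2]
    linarith [h.final.1]
  have hF0 : F 0 < 0 := by
    have := wt_pos h.curve h0
    change wt p q x y 0 * (x 0 * deriv x 0 + y 0 * deriv y 0) < 0
    rw [hc0]; linarith
  have hFL : 0 < F L := by
    have := wt_pos h.curve h1
    change 0 < wt p q x y L * (x L * deriv x L + y L * deriv y L)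
    rw [hcL]; linarith
  obtain ⟨s₀, hs₀, hFs⟩ := intermediate_value_Ioo hL.le hcont ⟨hF0, hFL⟩
  have hs₀' : s₀ ∈ Icc 0 L := Ioo_subset_Icc_self hs₀
  have hzero : x s₀ * deriv x s₀ + y s₀ * deriv y s₀ = 0 := by
    have hw := wt_pos h.curve hs₀'
    have h2 : wt p q x y s₀ * (x s₀ * deriv x s₀ + y s₀ * deriv y s₀) = 0 := hFs
    rcases mul_eq_zero.1 h2 with h3 | h3
    · exact absurd h3 hw.ne'
    · exact h3
  refine ⟨s₀, hs₀, hzero, ?_, ?_, ?_⟩
  · intro s hs
    have hs' : s ∈ Icc 0 L := ⟨hs.1, hs.2.le.trans hs₀'.2⟩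
    have h2 : F s < F s₀ := hmono hs' hs₀' hs.2
    rw [hFs] at h2
    have hw := wt_pos h.curve hs'
    by_contra hcon
    have h3 : 0 ≤ wt p q x y s * (x s * deriv x s + y s * deriv y s) :=
      mul_nonneg hw.le (not_lt.1 hcon)
    exact absurd h2 (not_lt.2 h3)
  · intro s hs
    have hs' : s ∈ Icc 0 L := ⟨hs₀'.1.trans hs.1.le, hs.2⟩
    have h2 : F s₀ < F s := hmono hs₀' hs' hs.1
    rw [hFs] at h2
    have hw := wt_pos h.curve hs'
    by_contra hcon
    have h3 : wt p q x y s * (x s * deriv x s + y s * deriv y s) ≤ 0 :=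
      mul_nonpos_of_nonneg_of_nonpos hw.le (not_lt.1 hcon)
    exact absurd h2 (not_lt.2 h3)
  · have hu : deriv x s₀ ^ 2 + deriv y s₀ ^ 2 = 1 := (h.curve.2.2 s₀ hs₀').2.2.1
    have h2 : (x s₀ * deriv y s₀ - y s₀ * deriv x s₀) ^ 2 =
        (x s₀ ^ 2 + y s₀ ^ 2) * (deriv x s₀ ^ 2 + deriv y s₀ ^ 2) -
          (x s₀ * deriv x s₀ + y s₀ * deriv y s₀) ^ 2 := by ring
    rw [h2, hu, hzero]
    ring

end Pool.Agent.Work.MP_408f4b_gt
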