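import Pool.Agent.Work.MP_408f4b_gt.Stmts

set_option autoImplicit false

/-!
# Profiles with one boundary component
-/

namespace Pool.Agent.Work.MP_408f4b_gt

open MeasureTheory Set

namespace IOne

instance instFin (n : ℕ) : IsFiniteMeasure (sig n) := by
  unfold sig
  infer_instance

theorem integ {n : ℕ} {h : Sph n → ℝ} (hc : Continuous h) : Integrable h (sig n) :=
  hc.integrable_of_hasCompactSupport (HasCompactSupport.of_compactSpace h)

theorem integral_sq_sub {n : ℕ} {h : Sph n → ℝ} (hc : Continuous h) (c : ℝ) :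
    ∫ θ, (h θ - c) ^ 2 ∂sig n =
      ∫ θ, h θ ^ 2 ∂sig n - 2 * c * ∫ θ, h θ ∂sig n + c ^ 2 * (sig n).real univ := by
  have h1 : ∀ θ, (h θ - c) ^ 2 = h θ ^ 2 - 2 * c * h θ + c ^ 2 := fun θ => by ring
  simp_rw [h1]
  rw [integral_add, integral_sub, integral_const_mul, integral_const, smul_eq_mul]
  · ring
  · exact integ (hc.pow 2)
  · exact (integ hc).const_mul _
  · exact (integ (hc.pow 2)).sub ((integ hc).const_mul _)
  · exact integrable_const _

theorem VV_bound {n : ℕ} {h : Sph n → ℝ} (hc : Continuous h) :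
    0 ≤ VV n h ∧ ∀ c : ℝ, VV n h ≤ ∫ θ, (h θ - c) ^ 2 ∂sig n := by
  rcases (measureReal_nonneg (μ := sig n) (s := univ)).eq_or_lt with hS | hS
  · have h0 : sig n = 0 := by
      rw [← Measure.measure_univ_eq_zero]
      have := (measureReal_eq_zero_iff (μ := sig n) (s := univ)).1 hS.symm
      exact this
    unfold VV
    rw [h0]
    simp
  · constructor
    · have h1 := integral_sq_sub hc ((∫ θ, h θ ∂sig n) / (sig n).real univ)
      have h2 : 0 ≤ ∫ θ, (h θ - (∫ θ, h θ ∂sig n) / (sig n).real univ) ^ 2 ∂sig n :=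
        integral_nonneg fun θ => sq_nonneg _
      rw [h1] at h2
      unfold VV
      have h3 : 2 * ((∫ θ, h θ ∂sig n) / (sig n).real univ) * ∫ θ, h θ ∂sig n =
          2 * ((∫ θ, h θ ∂sig n) ^ 2 / (sig n).real univ) := by ring
      have h4 : ((∫ θ, h θ ∂sig n) / (sig n).real univ) ^ 2 * (sig n).real univ =
          (∫ θ, h θ ∂sig n) ^ 2 / (sig n).real univ := by
        field_simp
      linarith
    · intro c
      rw [integral_sq_sub hc c]
      unfold VV
      have h3 : 2 * c * (∫ θ, h θ ∂sig n) - c ^ 2 * (sig n).real univ ≤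
          (∫ θ, h θ ∂sig n) ^ 2 / (sig n).real univ := by
        rw [le_div_iff₀ hS]
        nlinarith [sq_nonneg ((∫ θ, h θ ∂sig n) - c * (sig n).real univ)]
      linarith

theorem norm_toLp {p q : ℕ} (u : E p) (v : E q) :
    ‖(WithLp.toLp 2 (u, v) : Amb p q)‖ ^ 2 = ‖u‖ ^ 2 + ‖v‖ ^ 2 := by
  rw [WithLp.prod_norm_sq_eq_of_L2]
  rfl

theorem norm_sph {n : ℕ} (θ : Sph n) : ‖(θ : E n)‖ = 1 := by
  have := θ.2
  rwa [mem_sphere_zero_iff_norm] at this

theorem lip {p q : ℕ} {f : Amb p q → ℝ} (hf : ContDiff ℝ 1 f) : ∃ M : ℝ, 0 ≤ M ∧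
    ∀ X Y : Amb p q, ‖X‖ ≤ 1 → ‖Y‖ ≤ 1 → |f X - f Y| ≤ M * ‖X - Y‖ := by
  have hc : Continuous (fderiv ℝ f) := hf.continuous_fderiv (by norm_num)
  obtain ⟨M, hM⟩ := (isCompact_closedBall (0 : Amb p q) 1).exists_bound_of_continuousOn
    hc.continuousOn
  have h0 : (0 : Amb p q) ∈ Metric.closedBall (0 : Amb p q) 1 := by simp
  refine ⟨M, (norm_nonneg _).trans (hM 0 h0), fun X Y hX hY => ?_⟩
  have := Convex.norm_image_sub_le_of_norm_fderiv_le (𝕜 := ℝ) (f := f) (C := M)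
    (s := Metric.closedBall (0 : Amb p q) 1) (x := Y) (y := X)
    (fun Z _ => (hf.differentiable (by norm_num)).differentiableAt) (fun Z hZ => hM Z hZ)
    (convex_closedBall _ _) (by simpa using hY) (by simpa using hX)
  simpa [Real.norm_eq_abs] using this

theorem cont_par {X : Type} [TopologicalSpace X] [FirstCountableTopology X]
    [LocallyCompactSpace X] {n : ℕ} {F : X → Sph n → ℝ}
    (hF : Continuous (Function.uncurry F)) : Continuous fun z => ∫ θ, F z θ ∂sig n := by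
  have h := continuous_parametric_integral_of_continuous (μ := sig n) hF
    (isCompact_univ : IsCompact (univ : Set (Sph n)))
  simpa using h

/-- the two variances at a point near the axis -/
theorem VV1 {p q : ℕ} {f : Amb p q → ℝ} {M X Y : ℝ} (hf : Continuous f)
    (hM : ∀ U V : Amb p q, ‖U‖ ≤ 1 → ‖V‖ ≤ 1 → |f U - f V| ≤ M * ‖U - V‖)
    (hX : 0 < X) (hXY : X ^ 2 + Y ^ 2 ≤ 1) (ω : Sph q) :
    0 ≤ VV p (fun θ => f (WithLp.toLp 2 (X • (θ : E p), Y • (ω : E q)))) ∧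
    VV p (fun θ => f (WithLp.toLp 2 (X • (θ : E p), Y • (ω : E q)))) ≤
      (M * X) ^ 2 * (sig p).real univ := by
  have hc : Continuous fun θ : Sph p => f (WithLp.toLp 2 (X • (θ : E p), Y • (ω : E q))) := by
    refine hf.comp ?_
    refine (WithLp.prod_continuous_toLp 2 (E p) (E q)).comp ?_
    fun_prop
  have h1 := VV_bound hc
  refine ⟨h1.1, (h1.2 (f (WithLp.toLp 2 (0, Y • (ω : E q))))).trans ?_⟩
  have h2 : ∀ θ : Sph p, (f (WithLp.toLp 2 (X • (θ : E p), Y • (ω : E q))) -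
      f (WithLp.toLp 2 (0, Y • (ω : E q)))) ^ 2 ≤ (M * X) ^ 2 := by
    intro θ
    have h3 : ‖(WithLp.toLp 2 (X • (θ : E p), Y • (ω : E q)) : Amb p q)‖ ≤ 1 := by
      have h4 := norm_toLp (X • (θ : E p)) (Y • (ω : E q))
      rw [norm_smul, norm_smul, norm_sph, norm_sph, mul_one, mul_one, Real.norm_eq_abs,
        Real.norm_eq_abs, sq_abs, sq_abs] at h4
      nlinarith [norm_nonneg (WithLp.toLp 2 (X • (θ : E p), Y • (ω : E q)) : Amb p q)]
    have h3' : ‖(WithLp.toLp 2 ((0 : E p), Y • (ω : E q)) : Amb p q)‖ ≤ 1 := by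
      have h4 := norm_toLp (0 : E p) (Y • (ω : E q))
      rw [norm_smul, norm_sph, mul_one, Real.norm_eq_abs, sq_abs, norm_zero] at h4
      nlinarith [norm_nonneg (WithLp.toLp 2 ((0 : E p), Y • (ω : E q)) : Amb p q), sq_nonneg X]
    have h5 := hM _ _ h3 h3'
    have h6 : ‖(WithLp.toLp 2 (X • (θ : E p), Y • (ω : E q)) : Amb p q) -
        WithLp.toLp 2 ((0 : E p), Y • (ω : E q))‖ = X := by
      rw [← WithLp.toLp_sub, Prod.mk_sub_mk, sub_zero, sub_self]
      have h4 := norm_toLp (X • (θ : E p)) (0 : E q)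
      rw [norm_smul, norm_sph, mul_one, Real.norm_eq_abs, sq_abs, norm_zero] at h4
      have h7 : ‖(WithLp.toLp 2 (X • (θ : E p), (0 : E q)) : Amb p q)‖ ^ 2 = X ^ 2 := by
        rw [h4]; ring
      exact (sq_eq_sq₀ (norm_nonneg _) hX.le).1 h7
    rw [h6] at h5
    rw [← sq_abs]
    exact pow_le_pow_left₀ (abs_nonneg _) h5 2
  calc ∫ θ : Sph p, (f (WithLp.toLp 2 (X • (θ : E p), Y • (ω : E q))) -
      f (WithLp.toLp 2 (0, Y • (ω : E q)))) ^ 2 ∂sig p ≤ ∫ _ : Sph p, (M * X) ^ 2 ∂sig p :=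
        integral_mono (integ ((hc.sub continuous_const).pow 2)) (integrable_const _) h2
    _ = (M * X) ^ 2 * (sig p).real univ := by
        rw [integral_const, smul_eq_mul, mul_comm]

theorem VV2 {p q : ℕ} {f : Amb p q → ℝ} {M X Y : ℝ} (hf : Continuous f)
    (hM : ∀ U V : Amb p q, ‖U‖ ≤ 1 → ‖V‖ ≤ 1 → |f U - f V| ≤ M * ‖U - V‖)
    (hY : 0 < Y) (hXY : X ^ 2 + Y ^ 2 ≤ 1) :
    0 ≤ VV q (fun ω => ∫ θ : Sph p, f (WithLp.toLp 2 (X • (θ : E p), Y • (ω : E q))) ∂sig p) ∧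
    VV q (fun ω => ∫ θ : Sph p, f (WithLp.toLp 2 (X • (θ : E p), Y • (ω : E q))) ∂sig p) ≤
      (M * Y * (sig p).real univ) ^ 2 * (sig q).real univ := by
  have hc2 : Continuous fun z : Sph q × Sph p =>
      f (WithLp.toLp 2 (X • (z.2 : E p), Y • (z.1 : E q))) := by
    refine hf.comp ?_
    refine (WithLp.prod_continuous_toLp 2 (E p) (E q)).comp ?_
    fun_prop
  have hc : Continuous fun ω : Sph q =>
      ∫ θ : Sph p, f (WithLp.toLp 2 (X • (θ : E p), Y • (ω : E q))) ∂sig p := cont_par hc2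
  have hc0 : Continuous fun θ : Sph p => f (WithLp.toLp 2 (X • (θ : E p), (0 : E q))) := by
    refine hf.comp ?_
    refine (WithLp.prod_continuous_toLp 2 (E p) (E q)).comp ?_
    fun_prop
  have h1 := VV_bound hc
  refine ⟨h1.1, (h1.2 (∫ θ : Sph p, f (WithLp.toLp 2 (X • (θ : E p), 0)) ∂sig p)).trans ?_⟩
  have h2 : ∀ ω : Sph q, (∫ θ : Sph p, f (WithLp.toLp 2 (X • (θ : E p), Y • (ω : E q))) ∂sig p -
      ∫ θ : Sph p, f (WithLp.toLp 2 (X • (θ : E p), 0)) ∂sig p) ^ 2 ≤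
        (M * Y * (sig p).real univ) ^ 2 := by
    intro ω
    have hcω : Continuous fun θ : Sph p => f (WithLp.toLp 2 (X • (θ : E p), Y • (ω : E q))) :=
      hc2.comp (Continuous.prodMk continuous_const continuous_id)
    have h7 : ∀ θ : Sph p, ‖f (WithLp.toLp 2 (X • (θ : E p), Y • (ω : E q))) -
        f (WithLp.toLp 2 (X • (θ : E p), 0))‖ ≤ M * Y := by
      intro θ
      have h3 : ‖(WithLp.toLp 2 (X • (θ : E p), Y • (ω : E q)) : Amb p q)‖ ≤ 1 := by
        have h4 := norm_toLp (X • (θ : E p)) (Y • (ω : E q))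
        rw [norm_smul, norm_smul, norm_sph, norm_sph, mul_one, mul_one, Real.norm_eq_abs,
          Real.norm_eq_abs, sq_abs, sq_abs] at h4
        nlinarith [norm_nonneg (WithLp.toLp 2 (X • (θ : E p), Y • (ω : E q)) : Amb p q)]
      have h3' : ‖(WithLp.toLp 2 (X • (θ : E p), (0 : E q)) : Amb p q)‖ ≤ 1 := by
        have h4 := norm_toLp (X • (θ : E p)) (0 : E q)
        rw [norm_smul, norm_sph, mul_one, Real.norm_eq_abs, sq_abs, norm_zero] at h4
        nlinarith [norm_nonneg (WithLp.toLp 2 (X • (θ : E p), (0 : E q)) : Amb p q), sq_nonneg Y]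
      have h5 := hM _ _ h3 h3'
      have h6 : ‖(WithLp.toLp 2 (X • (θ : E p), Y • (ω : E q)) : Amb p q) -
          WithLp.toLp 2 (X • (θ : E p), (0 : E q))‖ = Y := by
        rw [← WithLp.toLp_sub, Prod.mk_sub_mk, sub_zero, sub_self]
        have h4 := norm_toLp (0 : E p) (Y • (ω : E q))
        rw [norm_smul, norm_sph, mul_one, Real.norm_eq_abs, sq_abs, norm_zero] at h4
        have h7 : ‖(WithLp.toLp 2 ((0 : E p), Y • (ω : E q)) : Amb p q)‖ ^ 2 = Y ^ 2 := by
          rw [h4]; ring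
        exact (sq_eq_sq₀ (norm_nonneg _) hY.le).1 h7
      rw [h6] at h5
      rw [Real.norm_eq_abs]
      exact h5
    have h8 : |∫ θ : Sph p, f (WithLp.toLp 2 (X • (θ : E p), Y • (ω : E q))) ∂sig p -
        ∫ θ : Sph p, f (WithLp.toLp 2 (X • (θ : E p), 0)) ∂sig p| ≤
          M * Y * (sig p).real univ := by
      rw [← integral_sub (integ hcω) (integ hc0), ← Real.norm_eq_abs]
      exact norm_integral_le_of_norm_le_const (Filter.Eventually.of_forall h7)
    rw [← sq_abs]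
    exact pow_le_pow_left₀ (abs_nonneg _) h8 2
  calc ∫ ω : Sph q, (∫ θ : Sph p, f (WithLp.toLp 2 (X • (θ : E p), Y • (ω : E q))) ∂sig p -
      ∫ θ : Sph p, f (WithLp.toLp 2 (X • (θ : E p), 0)) ∂sig p) ^ 2 ∂sig q ≤
        ∫ _ : Sph q, (M * Y * (sig p).real univ) ^ 2 ∂sig q :=
        integral_mono (integ ((hc.sub continuous_const).pow 2)) (integrable_const _) h2
    _ = (M * Y * (sig p).real univ) ^ 2 * (sig q).real univ := by
        rw [integral_const, smul_eq_mul, mul_comm]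

theorem cont_wt {p q : ℕ} {x y : ℝ → ℝ} (hx : ContDiff ℝ 2 x) (hy : ContDiff ℝ 2 y) :
    Continuous (wt p q x y) := by
  have h3 := hx.continuous
  have h4 := hy.continuous
  unfold wt
  fun_prop

theorem cont_F {p q : ℕ} {T A B : ℝ → Sph p → Sph q → ℝ}
    (hT : Continuous (fun z : ℝ × Sph p × Sph q => T z.1 z.2.1 z.2.2))
    (hA : Continuous (fun z : ℝ × Sph p × Sph q => A z.1 z.2.1 z.2.2))
    (hB : Continuous (fun z : ℝ × Sph p × Sph q => B z.1 z.2.1 z.2.2)) :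
    Continuous fun s : ℝ => ∫ θ : Sph p, ∫ ω : Sph q, (T s θ ω ^ 2 + A s θ ω + B s θ ω)
      ∂sig q ∂sig p := by
  have h2 : Continuous fun z : (ℝ × Sph p) × Sph q =>
      ((z.1.1, z.1.2, z.2) : ℝ × Sph p × Sph q) := by fun_prop
  have hT' : Continuous fun z : (ℝ × Sph p) × Sph q => T z.1.1 z.1.2 z.2 := hT.comp h2
  have hA' : Continuous fun z : (ℝ × Sph p) × Sph q => A z.1.1 z.1.2 z.2 := hA.comp h2
  have hB' : Continuous fun z : (ℝ × Sph p) × Sph q => B z.1.1 z.1.2 z.2 := hB.comp h2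
  have h1 : Continuous fun z : (ℝ × Sph p) × Sph q => T z.1.1 z.1.2 z.2 ^ 2 +
      A z.1.1 z.1.2 z.2 + B z.1.1 z.1.2 z.2 := ((hT'.pow 2).add hA').add hB'
  have h3 : Continuous fun z : ℝ × Sph p => ∫ ω : Sph q, (T z.1 z.2 ω ^ 2 +
      A z.1 z.2 ω + B z.1 z.2 ω) ∂sig q :=
    cont_par (X := ℝ × Sph p) (F := fun z ω => T z.1 z.2 ω ^ 2 + A z.1 z.2 ω + B z.1 z.2 ω) h1
  exact cont_par (X := ℝ) (F := fun s θ => ∫ ω : Sph q, (T s θ ω ^ 2 +
      A s θ ω + B s θ ω) ∂sig q) h3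

end IOne

open IOne Filter Topology in
theorem prfOne (hM : claimMain) (hPC : claimPC) (hPt : claimPt) : claimOne := by
  intro p q P hp hq h0 f hf hb
  obtain ⟨hcurve, -, hw0, hww, hpt⟩ := hPC p q P
  have hw00 : wt p q P.x P.y 0 = 0 := by rw [← hww]; exact hw0 h0 hp hq
  obtain ⟨hxL, hyL, hL1, hdx, hdy⟩ := P.final
  have hL := P.L_pos
  have hwL : 0 < wt p q P.x P.y P.L := by
    unfold wt
    positivity
  have hwn : ∀ s ∈ Icc 0 P.L, 0 ≤ wt p q P.x P.y s := by
    intro s hs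
    rcases hs.1.eq_or_lt with h1 | h1
    · rw [← h1, hw00]
    · rcases hs.2.eq_or_lt with h2 | h2
      · rw [h2]; exact hwL.le
      · obtain ⟨h3, h4, -⟩ := P.interior s ⟨h1, h2⟩
        unfold wt
        positivity
  have hbd : ∀ g : Amb p q → ℝ, P.bdry g =
      (∫ θ : Sph p, ∫ ω : Sph q, g (ptc P.x P.y P.L θ ω) ∂sig q ∂sig p) *
        wt p q P.x P.y P.L := by
    intro g
    unfold Profile.bdry
    simp_rw [hww, hw00, fun s θ ω => (hpt g s θ ω).1]
    ring
  rw [hbd] at hb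
  have hK : ∫ θ : Sph p, ∫ ω : Sph q, f (ptc P.x P.y P.L θ ω) ∂sig q ∂sig p = 0 := by
    rcases mul_eq_zero.1 hb with h | h
    · exact h
    · exact absurd h hwL.ne'
  rw [hbd]
  obtain ⟨hS, hgT, c1, c2, c3, c4⟩ := hPt p q P.x P.y f P.x_C2 P.y_C2 hf
  set F : ℝ → ℝ := fun s => ∫ θ : Sph p, ∫ ω : Sph q, (gT f P.x P.y s θ ω ^ 2 +
    gA f P.x P.y s θ ω + gB f P.x P.y s θ ω) ∂sig q ∂sig p with hF
  have hFc : Continuous F := cont_F (T := fun s θ ω => gT f P.x P.y s θ ω)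
    (A := fun s θ ω => gA f P.x P.y s θ ω) (B := fun s θ ω => gB f P.x P.y s θ ω) c2 c3 c4
  have hF0 : ∀ s, 0 ≤ F s := by
    intro s
    refine integral_nonneg fun θ => integral_nonneg fun ω => ?_
    obtain ⟨-, h1, h2⟩ := hgT s θ ω
    have h3 := sq_nonneg (gT f P.x P.y s θ ω)
    change 0 ≤ gT f P.x P.y s θ ω ^ 2 + gA f P.x P.y s θ ω + gB f P.x P.y s θ ω
    linarith
  have hFS : ∀ s ∈ Icc 0 P.L,
      ∫ θ : Sph p, ∫ ω : Sph q, gS f P.x P.y s θ ω ∂sig q ∂sig p = F s := by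
    intro s hs
    rw [hF]
    simp_rw [fun θ ω => hS s θ ω (P.arclength s hs)]
  have hwc : Continuous (wt p q P.x P.y) := cont_wt P.x_C2 P.y_C2
  have hFw : Continuous fun s => F s * wt p q P.x P.y s := hFc.mul hwc
  have hen : P.energy f = ∫ s in (0 : ℝ)..P.L, F s * wt p q P.x P.y s := by
    unfold Profile.energy
    refine intervalIntegral.integral_congr fun s hs => ?_
    rw [uIcc_of_le hL.le] at hs
    rw [hww, ← hFS s hs]
    simp_rw [fun θ ω => (hpt f s θ ω).2]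
  obtain ⟨M, hM0, hMf⟩ := lip hf
  set Sp := (sig p).real univ with hSp
  set Sq := (sig q).real univ with hSq
  have hSp0 : 0 ≤ Sp := measureReal_nonneg
  have hSq0 : 0 ≤ Sq := measureReal_nonneg
  set C := 2 * (M ^ 2 * (Sp * Sq)) with hC
  have hC0 : 0 ≤ C := by positivity
  have key : ∀ e ∈ Ioo 0 P.L,
      (∫ θ : Sph p, ∫ ω : Sph q, f (ptc P.x P.y P.L θ ω) ^ 2 ∂sig q ∂sig p) *
        wt p q P.x P.y P.L ≤ P.energy f + C * wt p q P.x P.y e := by
    intro e he
    obtain ⟨hxe, hye, he1⟩ := P.interior e he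
    have heI : e ∈ Icc 0 P.L := ⟨he.1.le, he.2.le⟩
    have hsubI : ∀ s ∈ Icc e P.L, s ∈ Icc 0 P.L := fun s hs => ⟨he.1.le.trans hs.1, hs.2⟩
    have h1 := hM p q e P.L P.x P.y f hp hq he.2 (hcurve e he.1.le he.2 hxe hye) hdx hdy hf
    rw [hK] at h1
    have h2 : 0 ≤ ∫ s in e..P.L, (∫ θ : Sph p, ∫ ω : Sph q, gT f P.x P.y s θ ω ∂sig q ∂sig p) ^ 2
        * wt p q P.x P.y s :=
      intervalIntegral.integral_nonneg he.2.le fun s hs =>
        mul_nonneg (sq_nonneg _) (hwn s (hsubI s hs))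
    have h3 : 0 ≤ (Sp * Sq)⁻¹ * ((∫ s in e..P.L, (∫ θ : Sph p, ∫ ω : Sph q,
        gT f P.x P.y s θ ω ∂sig q ∂sig p) ^ 2 * wt p q P.x P.y s)
        - wt p q P.x P.y P.L * (0 : ℝ) ^ 2) := by
      refine mul_nonneg (by positivity) ?_
      simpa using h2
    have h4 : ∫ s in e..P.L, (∫ θ : Sph p, ∫ ω : Sph q, gS f P.x P.y s θ ω ∂sig q ∂sig p) *
        wt p q P.x P.y s ≤ P.energy f := by
      have h5 : ∫ s in e..P.L, (∫ θ : Sph p, ∫ ω : Sph q, gS f P.x P.y s θ ω ∂sig q ∂sig p) *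
          wt p q P.x P.y s = ∫ s in e..P.L, F s * wt p q P.x P.y s := by
        refine intervalIntegral.integral_congr fun s hs => ?_
        rw [uIcc_of_le he.2.le] at hs
        rw [hFS s (hsubI s hs)]
      rw [h5, hen, ← intervalIntegral.integral_add_adjacent_intervals
        (hFw.intervalIntegrable 0 e) (hFw.intervalIntegrable e P.L)]
      have h6 : 0 ≤ ∫ s in (0 : ℝ)..e, F s * wt p q P.x P.y s :=
        intervalIntegral.integral_nonneg he.1.le fun s hs =>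
          mul_nonneg (hF0 s) (hwn s ⟨hs.1, hs.2.trans he.2.le⟩)
      linarith
    -- the remainder
    set A := ∫ ω : Sph q, VV p (fun θ => f (ptc P.x P.y e θ ω)) ∂sig q with hA
    set Bv := VV q (fun ω => ∫ θ : Sph p, f (ptc P.x P.y e θ ω) ∂sig p) with hBv
    have hv1 := fun ω : Sph q => VV1 hf.continuous hMf hxe he1.le ω
    have hv2 := VV2 (p := p) (q := q) hf.continuous hMf hye he1.le
    have hA0 : 0 ≤ A := integral_nonneg fun ω => (hv1 ω).1
    have hA1 : A ≤ (M * P.x e) ^ 2 * Sp * Sq := by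
      calc A ≤ ∫ _ : Sph q, (M * P.x e) ^ 2 * Sp ∂sig q :=
            integral_mono_of_nonneg (Eventually.of_forall fun ω => (hv1 ω).1)
              (integrable_const _) (Eventually.of_forall fun ω => (hv1 ω).2)
        _ = (M * P.x e) ^ 2 * Sp * Sq := by
            rw [integral_const, smul_eq_mul, mul_comm]
    have hB0 : 0 ≤ Bv := hv2.1
    have hB1 : Bv ≤ (M * P.y e * Sp) ^ 2 * Sq := hv2.2
    have har := P.arclength e heI
    have hdx1 : deriv P.x e ≤ 1 := by nlinarith [sq_nonneg (deriv P.y e)]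
    have hdy1 : deriv P.y e ≤ 1 := by nlinarith [sq_nonneg (deriv P.x e)]
    have hx1 : P.x e ≤ 1 := by nlinarith [sq_nonneg (P.y e)]
    have hy1 : P.y e ≤ 1 := by nlinarith [sq_nonneg (P.x e)]
    have hR1 : deriv P.x e / P.x e * A ≤ M ^ 2 * (Sp * Sq) := by
      have h7 : deriv P.x e / P.x e * A ≤ 1 / P.x e * ((M * P.x e) ^ 2 * Sp * Sq) := by
        refine mul_le_mul ?_ hA1 hA0 (by positivity)
        gcongr
      have h8 : 1 / P.x e * ((M * P.x e) ^ 2 * Sp * Sq) = M ^ 2 * (Sp * Sq) * P.x e := by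
        field_simp
      rw [h8] at h7
      have h9 : M ^ 2 * (Sp * Sq) * P.x e ≤ M ^ 2 * (Sp * Sq) * 1 :=
        mul_le_mul_of_nonneg_left hx1 (by positivity)
      linarith
    have hR2 : deriv P.y e / P.y e * (Sp⁻¹ * Bv) ≤ M ^ 2 * (Sp * Sq) := by
      have h7 : deriv P.y e / P.y e * (Sp⁻¹ * Bv) ≤
          1 / P.y e * (Sp⁻¹ * ((M * P.y e * Sp) ^ 2 * Sq)) := by
        refine mul_le_mul ?_ ?_ (by positivity) (by positivity)
        · gcongr
        · gcongr
      have h8 : 1 / P.y e * (Sp⁻¹ * ((M * P.y e * Sp) ^ 2 * Sq)) =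
          M ^ 2 * (Sp * Sq) * P.y e := by
        rcases hSp0.eq_or_lt with h10 | h10
        · rw [← h10]; simp
        · field_simp
      rw [h8] at h7
      have h9 : M ^ 2 * (Sp * Sq) * P.y e ≤ M ^ 2 * (Sp * Sq) * 1 :=
        mul_le_mul_of_nonneg_left hy1 (by positivity)
      linarith
    have hwe := hwn e heI
    have hR : wt p q P.x P.y e * (deriv P.x e / P.x e * A + deriv P.y e / P.y e * (Sp⁻¹ * Bv)) ≤
        C * wt p q P.x P.y e := by
      have h10 := mul_le_mul_of_nonneg_left (add_le_add hR1 hR2) hwe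
      rw [hC]
      linarith
    linarith
  have hlim : Tendsto (fun e => P.energy f + C * wt p q P.x P.y e) (𝓝[>] 0)
      (𝓝 (P.energy f + C * wt p q P.x P.y 0)) :=
    ((continuous_const.add (continuous_const.mul hwc)).tendsto 0).mono_left nhdsWithin_le_nhds
  have h := ge_of_tendsto hlim (by
    filter_upwards [Ioo_mem_nhdsGT hL] with e he
    exact key e he)
  rw [hw00, mul_zero, add_zero] at h
  exact h

end Pool.Agent.Work.MP_408f4b_gt
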