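import Pool.Agent.Work.MP_408f4b_gt.Stmts

set_option autoImplicit false

/-! The pieces of a profile. -/

namespace Pool.Agent.Work.MP_408f4b_gt

open MeasureTheory Set

namespace IPC

variable {p q : ℕ} (P : Profile p q)

/-- the equation at all points of the closed interval where both coordinates are positive -/
theorem min_eq {s : ℝ} (hs : s ∈ Icc 0 P.L) (hx : 0 < P.x s) (hy : 0 < P.y s) :
    deriv P.x s * deriv (deriv P.y) s - deriv P.y s * deriv (deriv P.x) s =
      ((q : ℝ) - 1) * deriv P.x s / P.y s - ((p : ℝ) - 1) * deriv P.y s / P.x s := by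
  have hx1 : Continuous (deriv P.x) := P.x_C2.continuous_deriv (by norm_num)
  have hy1 : Continuous (deriv P.y) := P.y_C2.continuous_deriv (by norm_num)
  have hx2 : Continuous (deriv (deriv P.x)) := by
    have h := P.x_C2
    rw [show (2 : WithTop ℕ∞) = 1 + 1 by norm_num, contDiff_succ_iff_deriv] at h
    exact h.2.2.continuous_deriv le_rfl
  have hy2 : Continuous (deriv (deriv P.y)) := by
    have h := P.y_C2
    rw [show (2 : WithTop ℕ∞) = 1 + 1 by norm_num, contDiff_succ_iff_deriv] at h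
    exact h.2.2.continuous_deriv le_rfl
  have hne : (nhdsWithin s (Ioo 0 P.L)).NeBot := by
    rw [← mem_closure_iff_nhdsWithin_neBot, closure_Ioo P.L_pos.ne]
    exact hs
  have h1 : Filter.Tendsto (fun s => deriv P.x s * deriv (deriv P.y) s -
      deriv P.y s * deriv (deriv P.x) s) (nhdsWithin s (Ioo 0 P.L))
      (nhds (deriv P.x s * deriv (deriv P.y) s - deriv P.y s * deriv (deriv P.x) s)) :=
    ((hx1.mul hy2).sub (hy1.mul hx2)).continuousAt.continuousWithinAt
  have h2 : Filter.Tendsto (fun s => ((q : ℝ) - 1) * deriv P.x s / P.y s -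
      ((p : ℝ) - 1) * deriv P.y s / P.x s) (nhdsWithin s (Ioo 0 P.L))
      (nhds (((q : ℝ) - 1) * deriv P.x s / P.y s - ((p : ℝ) - 1) * deriv P.y s / P.x s)) :=
    (((continuous_const.mul hx1).continuousAt.div P.y_C2.continuous.continuousAt hy.ne').sub
      ((continuous_const.mul hy1).continuousAt.div P.x_C2.continuous.continuousAt
        hx.ne')).continuousWithinAt
  refine tendsto_nhds_unique (h1.congr' ?_) h2
  filter_upwards [self_mem_nhdsWithin] with t ht
  exact P.minimal t ht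

theorem pos {a s : ℝ} (ha : 0 ≤ a) (hx : 0 < P.x a) (hy : 0 < P.y a) (hs : s ∈ Icc a P.L) :
    0 < P.x s ∧ 0 < P.y s := by
  rcases eq_or_lt_of_le hs.1 with h | h
  · rw [← h]
    exact ⟨hx, hy⟩
  · rcases eq_or_lt_of_le hs.2 with h' | h'
    · rw [h']
      exact ⟨P.final.1, P.final.2.1⟩
    · have := P.interior s ⟨lt_of_le_of_lt ha h, h'⟩
      exact ⟨this.1, this.2.1⟩

theorem curve {a : ℝ} (ha : 0 ≤ a) (hx : 0 < P.x a) (hy : 0 < P.y a) :
    Curve p q a P.L P.x P.y := by
  refine ⟨P.x_C2, P.y_C2, fun s hs => ?_⟩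
  obtain ⟨h1, h2⟩ := pos P ha hx hy hs
  have hs0 : s ∈ Icc 0 P.L := ⟨ha.trans hs.1, hs.2⟩
  exact ⟨h1, h2, P.arclength s hs0, min_eq P hs0 h1 h2⟩

end IPC

theorem prfPC : claimPC := by
  intro p q P
  refine ⟨fun a ha _ hx hy => IPC.curve P ha hx hy, fun hx hy => ?_, fun h hp hq => ?_,
    fun s => rfl, fun f s θ ω => ⟨rfl, rfl⟩⟩
  · refine ⟨P.L_pos, IPC.curve P le_rfl hx hy, P.injOn, P.final.2.2, ?_⟩
    rcases P.initial with h | h | h
    · exact h.2.2
    · exact absurd h.1 hx.ne'
    · exact absurd h.2.1 hy.ne'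
  · unfold Profile.w
    rcases h with h | h
    · rw [h, zero_pow (by omega), zero_mul]
    · rw [h, zero_pow (by omega), mul_zero]

end Pool.Agent.Work.MP_408f4b_gt
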