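import Pool.Agent.Work.MP_408f4b_gt.Stmts

set_option autoImplicit false

/-!
# The sharp Poincaré inequality on the sphere from the Gaussian Poincaré inequality
-/

namespace Pool.Agent.Work.MP_408f4b_gt

open MeasureTheory Set Filter Topology ProbabilityTheory

namespace IPoin

variable {n : ℕ}

/-- The homogeneous extension of `g - m`. -/
noncomputable def FF (g : E n → ℝ) (m : ℝ) (x : E n) : ℝ := ‖x‖ * (g (‖x‖⁻¹ • x) - m)

/-- The square of the gradient of the homogeneous extension, on the sphere. -/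
noncomputable def HH (g : E n → ℝ) (m : ℝ) (x : E n) : ℝ :=
  (g x - m) ^ 2 + (‖gradient g x‖ ^ 2 - (inner ℝ (gradient g x) x) ^ 2)

lemma contDiffOn_FF {g : E n → ℝ} (hg : ContDiff ℝ 1 g) (m : ℝ) :
    ContDiffOn ℝ 1 (FF g m) {x | x ≠ 0} := by
  intro x hx
  have hx' : x ≠ 0 := hx
  have hn : ContDiffAt ℝ 1 (fun x : E n => ‖x‖) x := contDiffAt_norm ℝ hx'
  have hi : ContDiffAt ℝ 1 (fun x : E n => ‖x‖⁻¹) x := hn.inv (norm_ne_zero_iff.2 hx')
  have hu : ContDiffAt ℝ 1 (fun x : E n => ‖x‖⁻¹ • x) x := hi.smul contDiffAt_id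
  have hgu : ContDiffAt ℝ 1 (fun x : E n => g (‖x‖⁻¹ • x)) x :=
    ContDiffAt.comp x (g := g) hg.contDiffAt hu
  exact (hn.mul (hgu.sub contDiffAt_const)).contDiffWithinAt

lemma hom_FF (g : E n → ℝ) (m : ℝ) (r : ℝ) (x : E n) (hr : 0 ≤ r) :
    FF g m (r • x) = r * FF g m x := by
  unfold FF
  rcases hr.eq_or_lt with h | h
  · simp [← h]
  · have hn : ‖r • x‖ = r * ‖x‖ := by rw [norm_smul, Real.norm_of_nonneg hr]
    have hs : (r * ‖x‖)⁻¹ • (r • x) = ‖x‖⁻¹ • x := by
      rw [smul_smul, mul_inv]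
      congr 1
      field_simp
    rw [hn, hs]
    ring

lemma hasFDerivAt_nrm {x : E n} (hx : x ≠ 0) :
    HasFDerivAt (fun y : E n => ‖y‖) (‖x‖⁻¹ • innerSL ℝ x) x := by
  have h1 : HasFDerivAt (fun y : E n => ‖y‖ ^ 2) (2 • (innerSL ℝ x)) x := by
    simpa using (hasFDerivAt_id x).norm_sq
  have hn : ‖x‖ ≠ 0 := norm_ne_zero_iff.2 hx
  have h2 := h1.sqrt (by positivity)
  have h3 : (fun y : E n => √(‖y‖ ^ 2)) = fun y => ‖y‖ := by
    funext y
    exact Real.sqrt_sq (norm_nonneg y)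
  rw [h3, Real.sqrt_sq (norm_nonneg x)] at h2
  refine h2.congr_fderiv ?_
  ext v
  simp
  field_simp

lemma gradient_FF {g : E n → ℝ} (hg : ContDiff ℝ 1 g) (m : ℝ) {x : E n} (hx : x ≠ 0) :
    gradient (FF g m) x = (g (‖x‖⁻¹ • x) - m -
      inner ℝ (gradient g (‖x‖⁻¹ • x)) (‖x‖⁻¹ • x)) • (‖x‖⁻¹ • x) +
      gradient g (‖x‖⁻¹ • x) := by
  have hn : ‖x‖ ≠ 0 := norm_ne_zero_iff.2 hx
  have h1 := hasFDerivAt_nrm hx
  have h2 : HasFDerivAt (fun y : E n => ‖y‖⁻¹) _ x := (hasDerivAt_inv hn).comp_hasFDerivAt x h1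
  have h3 : HasFDerivAt (fun y : E n => ‖y‖⁻¹ • y) _ x := h2.smul (hasFDerivAt_id x)
  have h4 : HasFDerivAt g (fderiv ℝ g (‖x‖⁻¹ • x)) (‖x‖⁻¹ • x) :=
    (hg.differentiable one_ne_zero _).hasFDerivAt
  have h5 : HasFDerivAt (fun y : E n => g (‖y‖⁻¹ • y)) _ x :=
    HasFDerivAt.comp (f := fun y : E n => ‖y‖⁻¹ • y) x (g := g) h4 h3
  have h6 := h1.mul (h5.sub_const m)
  have h7 : HasGradientAt (FF g m) ((g (‖x‖⁻¹ • x) - m -
      inner ℝ (gradient g (‖x‖⁻¹ • x)) (‖x‖⁻¹ • x)) • (‖x‖⁻¹ • x) +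
      gradient g (‖x‖⁻¹ • x)) x := by
    rw [hasGradientAt_iff_hasFDerivAt]
    refine h6.congr_fderiv ?_
    ext v
    simp
    field_simp
    ring
  exact h7.gradient

lemma nsq_gradient_FF {g : E n → ℝ} (hg : ContDiff ℝ 1 g) (m : ℝ) {x : E n} (hx : x ≠ 0) :
    ‖gradient (FF g m) x‖ ^ 2 = HH g m (‖x‖⁻¹ • x) := by
  have hn : ‖x‖ ≠ 0 := norm_ne_zero_iff.2 hx
  have hu : ‖‖x‖⁻¹ • x‖ = 1 := by
    rw [norm_smul, norm_inv, norm_norm, inv_mul_cancel₀ hn]
  rw [gradient_FF hg m hx]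
  unfold HH
  generalize ‖x‖⁻¹ • x = θ at *
  generalize gradient g θ = a
  rw [norm_add_sq_real, norm_smul, hu, mul_one, Real.norm_eq_abs, sq_abs, real_inner_smul_left,
    real_inner_comm a θ]
  ring

lemma continuous_gradient {g : E n → ℝ} (hg : ContDiff ℝ 1 g) : Continuous (gradient g) := by
  have h := hg.continuous_fderiv one_ne_zero
  exact (InnerProductSpace.toDual ℝ (E n)).symm.continuous.comp h

lemma continuous_HH {g : E n → ℝ} (hg : ContDiff ℝ 1 g) (m : ℝ) : Continuous (HH g m) := by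
  have h1 := continuous_gradient hg
  have h2 := hg.continuous
  unfold HH
  fun_prop

lemma integrable_sph {h : Sph n → ℝ} (hh : Continuous h) : Integrable h (sig n) := by
  have : IsFiniteMeasure (sig n) := by unfold sig; infer_instance
  have : CompactSpace (Sph n) := by infer_instance
  exact hh.integrable_of_hasCompactSupport (HasCompactSupport.of_compactSpace _)

lemma null_zero (hP : claimPolar) (hn : 1 ≤ n) : ∀ᵐ x ∂(stdGaussian (E n)), x ≠ 0 := by
  classical
  obtain ⟨c, c₁, -, h⟩ := hP n hn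
  have h1 := (h (fun x => if x = 0 then 1 else 0) (by
    refine (continuousOn_const (c := (0 : ℝ))).congr ?_
    intro x hx
    exact if_neg hx)).1
  have h2 : ∀ θ : Sph n, ((θ : E n) ≠ 0) := by
    intro θ h0
    have := norm_eq_of_mem_sphere θ
    rw [h0, norm_zero] at this
    exact zero_ne_one this
  have h3 : ∫ θ : Sph n, (if (θ : E n) = 0 then (1 : ℝ) else 0) ∂sig n = 0 := by
    simp [h2]
  rw [h3, mul_zero] at h1
  have h4 : (fun x : E n => if ‖x‖⁻¹ • x = 0 then (1 : ℝ) else 0) =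
      Set.indicator {(0 : E n)} (fun _ => (1 : ℝ)) := by
    funext x
    by_cases hx : x = 0
    · simp [hx]
    · simp [hx]
  have h1' : ∫ x, Set.indicator {(0 : E n)} (fun _ => (1 : ℝ)) x ∂(stdGaussian (E n)) = 0 := by
    rw [← h4]
    exact h1
  rw [integral_indicator (measurableSet_singleton 0), setIntegral_const, smul_eq_mul, mul_one] at h1'
  have h5 : stdGaussian (E n) {(0 : E n)} = 0 := by
    rcases (measureReal_eq_zero_iff (measure_ne_top _ _)).1 h1' with h
    exact h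
  rw [ae_iff]
  simpa using h5

end IPoin

open IPoin in
theorem prfPoin (hG : claimGP) (hP : claimPolar) : claimPoin := by
  intro n g hn hg
  have : IsFiniteMeasure (sig n) := by unfold sig; infer_instance
  obtain ⟨c, c₁, hc, hpol⟩ := hP n (by omega)
  set S : ℝ := (sig n).real univ with hS
  set m : ℝ := (∫ θ : Sph n, g θ ∂sig n) / S with hm
  have hgc : Continuous fun θ : Sph n => g θ := hg.continuous.comp continuous_subtype_val
  have hgi := integrable_sph hgc
  have hgi2 : Integrable (fun θ : Sph n => g θ ^ 2) (sig n) := integrable_sph (hgc.pow 2)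
  -- the case of measure zero is excluded
  have hS0 : S = 0 → sig n = 0 := by
    intro h
    have := (measureReal_eq_zero_iff (μ := sig n) (s := univ) (measure_ne_top _ _)).1 h
    exact Measure.measure_univ_eq_zero.1 this
  have hmS : m * S = ∫ θ : Sph n, g θ ∂sig n := by
    by_cases h : S = 0
    · rw [hS0 h, h]
      simp
    · rw [hm]
      field_simp
  have hmean : ∫ θ : Sph n, (g θ - m) ∂sig n = 0 := by
    rw [integral_sub hgi (integrable_const _), integral_const, smul_eq_mul, ← hS, ← hmS]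
    ring
  have hVV : VV n (fun θ => g θ) = ∫ θ : Sph n, (g θ - m) ^ 2 ∂sig n := by
    have e1 : ∀ θ : Sph n, (g θ - m) ^ 2 = g θ ^ 2 - 2 * m * g θ + m ^ 2 := fun θ => by ring
    have e2 : ∫ θ : Sph n, (g θ - m) ^ 2 ∂sig n =
        ∫ θ : Sph n, g θ ^ 2 ∂sig n - 2 * m * ∫ θ : Sph n, g θ ∂sig n + S * m ^ 2 := by
      have a1 : ∫ θ : Sph n, (g θ ^ 2 - 2 * m * g θ) ∂sig n =
          ∫ θ : Sph n, g θ ^ 2 ∂sig n - 2 * m * ∫ θ : Sph n, g θ ∂sig n := by
        rw [integral_sub hgi2 (hgi.const_mul _), integral_const_mul]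
      have a2 : ∫ θ : Sph n, (g θ ^ 2 - 2 * m * g θ + m ^ 2) ∂sig n =
          ∫ θ : Sph n, (g θ ^ 2 - 2 * m * g θ) ∂sig n + ∫ _ : Sph n, m ^ 2 ∂sig n :=
        integral_add (hgi2.sub (hgi.const_mul _)) (integrable_const _)
      rw [integral_congr_ae (Eventually.of_forall e1), a2, a1, integral_const, smul_eq_mul]
    rw [e2]
    unfold VV
    rw [← hS, ← hmS]
    by_cases h : S = 0
    · rw [h]
      simp
    · field_simp
      ring
  have hk : ContDiffOn ℝ 1 (FF g m) {x | x ≠ 0} := contDiffOn_FF hg m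
  have key := hG n (FF g m) hn hk (fun r x hr => hom_FF g m r x hr)
  have i1 := (hpol (fun x => (g x - m) ^ 2)
    ((hg.continuous.sub continuous_const).pow 2).continuousOn).2.2.1
  have i2 := (hpol (fun x => g x - m) (hg.continuous.sub continuous_const).continuousOn).2.1
  have i3 := (hpol (HH g m) (continuous_HH hg m).continuousOn).1
  have j1 : ∫ x, FF g m x ^ 2 ∂(stdGaussian (E n)) =
      n * (c * ∫ θ : Sph n, (g θ - m) ^ 2 ∂sig n) := by
    rw [← i1]
    congr 1
    funext x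
    unfold FF
    ring
  have j2 : ∫ x, FF g m x ∂(stdGaussian (E n)) = 0 := by
    have : ∫ x, FF g m x ∂(stdGaussian (E n)) = c₁ * ∫ θ : Sph n, (g θ - m) ∂sig n := i2
    rw [this, hmean, mul_zero]
  have j3 : ∫ x, ‖gradient (FF g m) x‖ ^ 2 ∂(stdGaussian (E n)) =
      c * ∫ θ : Sph n, HH g m θ ∂sig n := by
    rw [← i3]
    refine integral_congr_ae ?_
    filter_upwards [null_zero hP (n := n) (by omega)] with x hx
    exact nsq_gradient_FF hg m hx
  rw [j1, j2, j3] at key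
  have hG1 : Continuous fun θ : Sph n =>
      ‖gradient g (θ : E n)‖ ^ 2 - (inner ℝ (gradient g (θ : E n)) (θ : E n)) ^ 2 := by
    have h1 : Continuous fun θ : Sph n => gradient g (θ : E n) :=
      (continuous_gradient hg).comp continuous_subtype_val
    have h2 : Continuous fun θ : Sph n => (θ : E n) := continuous_subtype_val
    exact (h1.norm.pow 2).sub ((h1.inner h2).pow 2)
  have hG2 := integrable_sph hG1
  have hG3 : Integrable (fun θ : Sph n => (g θ - m) ^ 2) (sig n) :=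
    integrable_sph ((hgc.sub continuous_const).pow 2)
  have j4 : ∫ θ : Sph n, HH g m θ ∂sig n = ∫ θ : Sph n, (g θ - m) ^ 2 ∂sig n +
      ∫ θ : Sph n, (‖gradient g (θ : E n)‖ ^ 2 - (inner ℝ (gradient g (θ : E n)) (θ : E n)) ^ 2)
        ∂sig n := by
    rw [← integral_add hG3 hG2]
    rfl
  rw [j4] at key
  rw [hVV]
  have hfin : c * (((n : ℝ) - 1) * ∫ θ : Sph n, (g θ - m) ^ 2 ∂sig n) ≤
      c * ∫ θ : Sph n, (‖gradient g (θ : E n)‖ ^ 2 - (inner ℝ (gradient g (θ : E n)) (θ : E n)) ^ 2)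
        ∂sig n := by
    nlinarith [key]
  exact le_of_mul_le_mul_left hfin hc

end Pool.Agent.Work.MP_408f4b_gt
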