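import Pool.Agent.Work.MP_408f4b_gt.Stmts

set_option autoImplicit false

namespace Pool.Agent.Work.MP_408f4b_gt

open MeasureTheory Set Filter Topology ProbabilityTheory

namespace IPolar

/-- the constant of the Gaussian density -/
noncomputable def CC (n : ℕ) : ℝ := ((2 * Real.pi) ^ ((n : ℝ) / 2))⁻¹

lemma CC_pos (n : ℕ) : 0 < CC n := by unfold CC; positivity

/-- the Gaussian density -/
noncomputable def rho (n : ℕ) (x : E n) : ℝ := CC n * Real.exp (-(1 / 2) * ‖x‖ ^ 2)

lemma rho_nonneg (n : ℕ) (x : E n) : 0 ≤ rho n x := by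
  unfold rho
  have := CC_pos n
  positivity

lemma rho_meas (n : ℕ) : Measurable (rho n) := by
  unfold rho
  fun_prop

lemma rho_int (n : ℕ) : Integrable (rho n) (volume : Measure (E n)) := by
  have h := GaussianFourier.integrable_cexp_neg_mul_sq_norm_add (V := E n) (b := (1 / 2 : ℂ))
    (by norm_num) 0 0
  have h2 := h.re.const_mul (CC n)
  refine h2.congr (Filter.Eventually.of_forall fun x => ?_)
  simp only [rho]
  congr 1
  have : (-(1 / 2 : ℂ) * ((‖x‖ : ℝ) : ℂ) ^ 2 + 0 * ((inner ℝ (0 : E n) x : ℝ) : ℂ)) =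
    ((-(1 / 2) * ‖x‖ ^ 2 : ℝ) : ℂ) := by
    push_cast
    ring
  change RCLike.re (Complex.exp (-(1 / 2 : ℂ) * ((‖x‖ : ℝ) : ℂ) ^ 2 +
    0 * ((inner ℝ (0 : E n) x : ℝ) : ℂ))) = _
  rw [this, ← Complex.ofReal_exp]
  exact Complex.ofReal_re _

lemma std_eq (n : ℕ) : stdGaussian (E n) =
    (volume : Measure (E n)).withDensity (fun x => ENNReal.ofReal (rho n x)) := by
  have : IsFiniteMeasure
      ((volume : Measure (E n)).withDensity (fun x => ENNReal.ofReal (rho n x))) :=
    isFiniteMeasure_withDensity_ofReal (rho_int n).2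
  apply Measure.ext_of_charFun
  ext t
  rw [charFun_stdGaussian, charFun_apply,
    integral_withDensity_eq_integral_toReal_smul (rho_meas n).ennreal_ofReal
      (Filter.Eventually.of_forall fun x => ENNReal.ofReal_lt_top)]
  have h1 : ∀ x : E n, (ENNReal.ofReal (rho n x)).toReal •
      Complex.exp (((inner ℝ x t : ℝ) : ℂ) * Complex.I) =
      (CC n : ℂ) * Complex.exp (-(1 / 2 : ℂ) * ((‖x‖ : ℝ) : ℂ) ^ 2 +
        Complex.I * ((inner ℝ t x : ℝ) : ℂ)) := by
    intro x
    rw [ENNReal.toReal_ofReal (rho_nonneg n x), real_inner_comm, Complex.exp_add, rho]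
    rw [Complex.real_smul]
    push_cast
    rw [mul_comm Complex.I]
    ring
  simp_rw [h1]
  rw [integral_const_mul, GaussianFourier.integral_cexp_neg_mul_sq_norm_add (by norm_num)]
  rw [← mul_assoc]
  have h2 : (CC n : ℂ) * ((Real.pi : ℂ) / (1 / 2)) ^ ((Module.finrank ℝ (E n) : ℂ) / 2) = 1 := by
    have h3 : ((Real.pi : ℂ) / (1 / 2)) ^ ((Module.finrank ℝ (E n) : ℂ) / 2) =
        (((2 * Real.pi) ^ ((n : ℝ) / 2) : ℝ) : ℂ) := by
      rw [Complex.ofReal_cpow (by positivity)]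
      congr 1
      · push_cast; ring
      · simp
    rw [h3, CC]
    push_cast
    rw [inv_mul_cancel₀]
    exact_mod_cast (by positivity : (2 * Real.pi) ^ ((n : ℝ) / 2) ≠ 0)
  rw [h2, one_mul]
  congr 1
  simp
  ring

lemma std_integral (n : ℕ) (G : E n → ℝ) :
    ∫ x, G x ∂(stdGaussian (E n)) = ∫ x, rho n x * G x := by
  rw [std_eq, integral_withDensity_eq_integral_toReal_smul (rho_meas n).ennreal_ofReal
      (Filter.Eventually.of_forall fun x => ENNReal.ofReal_lt_top)]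
  congr 1
  ext x
  rw [ENNReal.toReal_ofReal (rho_nonneg n x), smul_eq_mul]

lemma std_integrable (n : ℕ) (G : E n → ℝ) :
    Integrable G (stdGaussian (E n)) ↔ Integrable (fun x => rho n x * G x) := by
  rw [std_eq, integrable_withDensity_iff_integrable_smul' (rho_meas n).ennreal_ofReal
      (Filter.Eventually.of_forall fun x => ENNReal.ofReal_lt_top)]
  have : (fun x => (ENNReal.ofReal (rho n x)).toReal • G x) = fun x => rho n x * G x := by
    ext x
    rw [ENNReal.toReal_ofReal (rho_nonneg n x), smul_eq_mul]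
  rw [this]

lemma radial_int (n : ℕ) (f : ℝ → ℝ) :
    ∫ r : Ioi (0 : ℝ), f r ∂(Measure.volumeIoiPow n) = ∫ r in Ioi (0 : ℝ), r ^ n * f r := by
  simp only [Measure.volumeIoiPow, ENNReal.ofReal]
  rw [integral_withDensity_eq_integral_smul,
    integral_subtype_comap measurableSet_Ioi fun a ↦ Real.toNNReal (a ^ n) • f a,
    setIntegral_congr_fun measurableSet_Ioi fun x hx ↦ ?_]
  · rw [NNReal.smul_def, Real.coe_toNNReal _ (pow_nonneg hx.out.le _), smul_eq_mul]
  · exact (measurable_subtype_coe.pow_const _).real_toNNReal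

lemma radial_integrable (n : ℕ) (f : ℝ → ℝ)
    (hf : IntegrableOn (fun r => r ^ n * f r) (Ioi (0 : ℝ))) :
    Integrable (fun r : Ioi (0 : ℝ) => f r) (Measure.volumeIoiPow n) := by
  rw [Measure.volumeIoiPow, integrable_withDensity_iff_integrable_smul']
  · rw [integrableOn_iff_comap_subtypeVal measurableSet_Ioi] at hf
    refine hf.congr (Filter.Eventually.of_forall ?_)
    rintro ⟨x, hx : 0 < x⟩
    simp (disch := positivity) [ENNReal.toReal_ofReal]
  · fun_prop
  · simp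

lemma polar_int (n : ℕ) (hn : 1 ≤ n) (h : E n → ℝ) (f : ℝ → ℝ) :
    ∫ x, h (‖x‖⁻¹ • x) * f ‖x‖ ∂(volume : Measure (E n)) =
      (∫ θ : Sph n, h θ ∂sig n) * ∫ r in Ioi (0 : ℝ), r ^ (n - 1) * f r := by
  have : Nonempty (Fin n) := ⟨⟨0, by omega⟩⟩
  have : Nontrivial (E n) := inferInstance
  have : IsFiniteMeasure (sig n) := by unfold sig; infer_instance
  calc ∫ x, h (‖x‖⁻¹ • x) * f ‖x‖ ∂(volume : Measure (E n))
      = ∫ x : ({(0)}ᶜ : Set (E n)), h (‖x.1‖⁻¹ • x.1) * f ‖x.1‖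
          ∂((volume : Measure (E n)).comap (↑)) := by
        rw [integral_subtype_comap (measurableSet_singleton _).compl
          fun x : E n ↦ h (‖x‖⁻¹ • x) * f ‖x‖, restrict_compl_singleton]
    _ = ∫ z : Sph n × Ioi (0 : ℝ), h z.1 * f z.2
          ∂(sig n).prod (.volumeIoiPow (Module.finrank ℝ (E n) - 1)) := by
        have := (volume : Measure (E n)).measurePreserving_homeomorphUnitSphereProd.integral_comp
          (Homeomorph.measurableEmbedding _)
          (fun z : Sph n × Ioi (0 : ℝ) => h z.1 * f z.2)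
        unfold sig
        simpa using this
    _ = (∫ θ : Sph n, h θ ∂sig n) *
          ∫ r : Ioi (0 : ℝ), f r ∂(Measure.volumeIoiPow (Module.finrank ℝ (E n) - 1)) :=
        integral_prod_mul (fun θ : Sph n => h θ) (fun r : Ioi (0 : ℝ) => f r)
    _ = _ := by
        rw [radial_int]
        simp

lemma polar_integrable (n : ℕ) (hn : 1 ≤ n) (h : E n → ℝ) (f : ℝ → ℝ)
    (hh : Integrable (fun θ : Sph n => h θ) (sig n))
    (hf : IntegrableOn (fun r => r ^ (n - 1) * f r) (Ioi (0 : ℝ))) :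
    Integrable (fun x => h (‖x‖⁻¹ • x) * f ‖x‖) (volume : Measure (E n)) := by
  have : Nonempty (Fin n) := ⟨⟨0, by omega⟩⟩
  have : Nontrivial (E n) := inferInstance
  have hd : Module.finrank ℝ (E n) - 1 = n - 1 := by simp
  have h1 : Integrable (fun z : Sph n × Ioi (0 : ℝ) => h z.1 * f z.2)
      ((sig n).prod (.volumeIoiPow (Module.finrank ℝ (E n) - 1))) := by
    rw [hd]
    exact hh.mul_prod (radial_integrable (n - 1) f hf)
  have h2 := ((volume : Measure (E n)).measurePreserving_homeomorphUnitSphereProd.integrable_comp_emb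
    (Homeomorph.measurableEmbedding _)).2 h1
  rw [← restrict_compl_singleton (μ := (volume : Measure (E n))) 0, ← IntegrableOn,
    integrableOn_iff_comap_subtypeVal (by measurability)]
  refine h2.congr (Filter.Eventually.of_forall fun x => ?_)
  simp [Function.comp]

/-- the radial moments -/
noncomputable def mm (n k : ℕ) : ℝ :=
  ∫ r in Ioi (0 : ℝ), r ^ (n - 1) * (r ^ k * Real.exp (-(1 / 2) * r ^ 2))

lemma mm_congr (n k : ℕ) : ∀ r ∈ Ioi (0 : ℝ), r ^ (n - 1) * (r ^ k * Real.exp (-(1 / 2) * r ^ 2)) =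
    r ^ ((n - 1 + k : ℕ) : ℝ) * Real.exp (-(1 / 2) * r ^ (2 : ℝ)) := by
  intro r hr
  rw [Real.rpow_natCast, pow_add, mul_assoc]
  norm_num

lemma mm_integrable (n k : ℕ) :
    IntegrableOn (fun r => r ^ (n - 1) * (r ^ k * Real.exp (-(1 / 2) * r ^ 2))) (Ioi (0 : ℝ)) := by
  have h := integrableOn_rpow_mul_exp_neg_mul_rpow (p := 2) (s := ((n - 1 + k : ℕ) : ℝ))
    (b := 1 / 2) (by have : (0 : ℝ) ≤ ((n - 1 + k : ℕ) : ℝ) := by positivity
                     linarith) (by norm_num) (by norm_num)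
  exact h.congr_fun (fun r hr => (mm_congr n k r hr).symm) measurableSet_Ioi

lemma mm_eq (n k : ℕ) : mm n k = (1 / 2 : ℝ) ^ (-(((n - 1 + k : ℕ) : ℝ) + 1) / 2) * (1 / 2) *
    Real.Gamma ((((n - 1 + k : ℕ) : ℝ) + 1) / 2) := by
  unfold mm
  rw [setIntegral_congr_fun measurableSet_Ioi (mm_congr n k)]
  exact integral_rpow_mul_exp_neg_mul_rpow (p := 2) (q := ((n - 1 + k : ℕ) : ℝ)) (b := 1 / 2)
    (by norm_num) (by have : (0 : ℝ) ≤ ((n - 1 + k : ℕ) : ℝ) := by positivity
                      linarith) (by norm_num)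

lemma mm_pos (n : ℕ) : 0 < mm n 0 := by
  rw [mm_eq]
  have : 0 < Real.Gamma ((((n - 1 + 0 : ℕ) : ℝ) + 1) / 2) := Real.Gamma_pos_of_pos (by positivity)
  positivity

lemma mm_two (n : ℕ) (hn : 1 ≤ n) : mm n 2 = n * mm n 0 := by
  rw [mm_eq, mm_eq]
  have h1 : (((n - 1 + 2 : ℕ) : ℝ) + 1) / 2 = (n : ℝ) / 2 + 1 := by
    have : n - 1 + 2 = n + 1 := by omega
    rw [this]; push_cast; ring
  have h2 : (((n - 1 + 0 : ℕ) : ℝ) + 1) / 2 = (n : ℝ) / 2 := by
    have : n - 1 + 0 = n - 1 := by omega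
    rw [this, Nat.cast_sub hn]; push_cast; ring
  have h1' : -(((n - 1 + 2 : ℕ) : ℝ) + 1) / 2 = -((n : ℝ) / 2) + (-1) := by
    rw [neg_div, h1]; ring
  have h2' : -(((n - 1 + 0 : ℕ) : ℝ) + 1) / 2 = -((n : ℝ) / 2) := by
    rw [neg_div, h2]
  have hn0 : (n : ℝ) / 2 ≠ 0 := by positivity
  rw [h1, h2, h1', h2', Real.Gamma_add_one hn0, Real.rpow_add (by norm_num), Real.rpow_neg_one]
  ring

end IPolar

open IPolar in
theorem prfPolar : claimPolar := by
  intro n hn
  refine ⟨CC n * mm n 0, CC n * mm n 1, mul_pos (CC_pos n) (mm_pos n), ?_⟩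
  intro h hh
  have hc : Continuous (fun θ : Sph n => h θ) := by
    refine hh.comp_continuous continuous_subtype_val ?_
    intro θ
    have h1 : ‖(θ : E n)‖ = 1 := by simp
    intro h0
    rw [h0, norm_zero] at h1
    exact zero_ne_one h1
  have hint : Integrable (fun θ : Sph n => h θ) (sig n) := by
    have hfm : IsFiniteMeasure (sig n) := by unfold sig; infer_instance
    exact hc.integrable_of_hasCompactSupport (HasCompactSupport.of_compactSpace _)
  have key : ∀ k : ℕ, ∀ x : E n, rho n x * (‖x‖ ^ k * h (‖x‖⁻¹ • x)) =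
      CC n * (h (‖x‖⁻¹ • x) * (‖x‖ ^ k * Real.exp (-(1 / 2) * ‖x‖ ^ 2))) := by
    intro k x
    unfold rho
    ring
  have hI : ∀ k : ℕ, ∫ x, ‖x‖ ^ k * h (‖x‖⁻¹ • x) ∂(stdGaussian (E n)) =
      CC n * mm n k * ∫ θ : Sph n, h θ ∂sig n := by
    intro k
    rw [std_integral]
    simp_rw [key k]
    rw [integral_const_mul, polar_int n hn h (fun r => r ^ k * Real.exp (-(1 / 2) * r ^ 2))]
    unfold mm
    ring
  have hJ : ∀ k : ℕ, Integrable (fun x => ‖x‖ ^ k * h (‖x‖⁻¹ • x)) (stdGaussian (E n)) := by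
    intro k
    rw [std_integrable]
    simp_rw [key k]
    exact (polar_integrable n hn h (fun r => r ^ k * Real.exp (-(1 / 2) * r ^ 2)) hint
      (mm_integrable n k)).const_mul _
  have hI0 := hI 0
  have hI1 := hI 1
  have hI2 := hI 2
  have hJ0 := hJ 0
  have hJ1 := hJ 1
  simp only [pow_zero, one_mul, pow_one] at hI0 hI1 hJ0 hJ1
  refine ⟨hI0, hI1, ?_, hJ0, hJ1, hJ 2⟩
  rw [hI2, mm_two n hn]
  ring

end Pool.Agent.Work.MP_408f4b_gt
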