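import Pool.Agent.Work.MP_408f4b_gt.Stmts

set_option autoImplicit false

/-!
# Item Pt: pointwise facts
-/

namespace Pool.Agent.Work.MP_408f4b_gt

open MeasureTheory Set Filter Topology

namespace IPt

variable {p q : ℕ}

theorem norm_sph {n : ℕ} (θ : Sph n) : ‖(θ : E n)‖ = 1 := by
  have := θ.2
  rwa [mem_sphere_zero_iff_norm] at this

theorem sq_le {n : ℕ} (V : E n) (θ : Sph n) :
    0 ≤ ‖V‖ ^ 2 - (inner ℝ V (θ : E n)) ^ 2 := by
  have h1 := abs_real_inner_le_norm V (θ : E n)
  rw [norm_sph, mul_one] at h1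
  have h2 := sq_le_sq' (neg_le_of_abs_le h1) (le_of_abs_le h1)
  linarith

theorem cont_grad (f : Amb p q → ℝ) (hf : ContDiff ℝ 1 f) : Continuous (gradient f) := by
  have h1 : Continuous (fderiv ℝ f) := hf.continuous_fderiv (by norm_num)
  exact (InnerProductSpace.toDual ℝ (Amb p q)).symm.continuous.comp h1

theorem cont_ptc (x y : ℝ → ℝ) (hx : Continuous x) (hy : Continuous y) :
    Continuous (fun z : ℝ × Sph p × Sph q => (ptc x y z.1 z.2.1 z.2.2 : Amb p q)) := by
  unfold ptc
  have h : Continuous (fun z : ℝ × Sph p × Sph q =>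
      ((x z.1 • (z.2.1 : E p), y z.1 • (z.2.2 : E q)) : E p × E q)) := by
    fun_prop
  exact (WithLp.prodContinuousLinearEquiv 2 ℝ (E p) (E q)).symm.continuous.comp h

theorem cont_fst : Continuous (fun X : Amb p q => X.fst) :=
  continuous_fst.comp (WithLp.prodContinuousLinearEquiv 2 ℝ (E p) (E q)).continuous

theorem cont_snd : Continuous (fun X : Amb p q => X.snd) :=
  continuous_snd.comp (WithLp.prodContinuousLinearEquiv 2 ℝ (E p) (E q)).continuous

end IPt

open IPt

theorem prfPt : claimPt := by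
  intro p q x y f hx hy hf
  have hgc := cont_grad f hf
  have hxc : Continuous x := hx.continuous
  have hyc : Continuous y := hy.continuous
  have hx' : Continuous (deriv x) := hx.continuous_deriv (by norm_num)
  have hy' : Continuous (deriv y) := hy.continuous_deriv (by norm_num)
  have hp := cont_ptc (p := p) (q := q) x y hxc hyc
  have hG : Continuous (fun z : ℝ × Sph p × Sph q => gradient f (ptc x y z.1 z.2.1 z.2.2)) :=
    hgc.comp hp
  refine ⟨?_, ?_, ?_, ?_, ?_, ?_⟩
  · intro s θ ω h1
    unfold gS gT gA gB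
    generalize gradient f (ptc x y s θ ω) = V
    rw [WithLp.prod_norm_sq_eq_of_L2, WithLp.prod_inner_apply, WithLp.prod_inner_apply]
    simp only [inner_smul_right]
    obtain ⟨A, hA⟩ : ∃ A, inner ℝ V.fst (θ : E p) = A := ⟨_, rfl⟩
    obtain ⟨B, hB⟩ : ∃ B, inner ℝ V.snd (ω : E q) = B := ⟨_, rfl⟩
    have hA' : inner ℝ V.ofLp.1 (θ : E p) = A := hA
    have hB' : inner ℝ V.ofLp.2 (ω : E q) = B := hB
    rw [hA, hB, hA', hB']
    have h2 : A ^ 2 + B ^ 2 = (deriv x s ^ 2 + deriv y s ^ 2) * (A ^ 2 + B ^ 2) := by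
      rw [h1, one_mul]
    linear_combination h2
  · intro s θ ω
    refine ⟨?_, sq_le _ _, sq_le _ _⟩
    have h1 : HasDerivAt x (deriv x s) s := (hx.differentiable (by norm_num) s).hasDerivAt
    have h2 : HasDerivAt y (deriv y s) s := (hy.differentiable (by norm_num) s).hasDerivAt
    have h3 : HasDerivAt (fun t => ((x t • (θ : E p), y t • (ω : E q)) : E p × E q))
        (deriv x s • (θ : E p), deriv y s • (ω : E q)) s :=
      (h1.smul_const (θ : E p)).prodMk (h2.smul_const (ω : E q))
    have hd : HasFDerivAt f (fderiv ℝ f (ptc x y s θ ω)) (ptc x y s θ ω) :=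
      (hf.differentiable (by norm_num) (ptc x y s θ ω)).hasFDerivAt
    have h4 : HasFDerivAt (fun z : E p × E q => f (WithLp.toLp 2 z))
        ((fderiv ℝ f (ptc x y s θ ω)).comp
          ((WithLp.prodContinuousLinearEquiv 2 ℝ (E p) (E q)).symm : E p × E q →L[ℝ] Amb p q))
        (x s • (θ : E p), y s • (ω : E q)) :=
      HasFDerivAt.comp (x s • (θ : E p), y s • (ω : E q)) hd
        (WithLp.prodContinuousLinearEquiv 2 ℝ (E p) (E q)).symm.hasFDerivAt
    have h5 := h4.comp_hasDerivAt s h3
    unfold gT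
    rw [inner_gradient_left]
    exact h5
  · exact hf.continuous.comp hp
  · unfold gT
    refine hG.inner ?_
    have h : Continuous (fun z : ℝ × Sph p × Sph q =>
        ((deriv x z.1 • (z.2.1 : E p), deriv y z.1 • (z.2.2 : E q)) : E p × E q)) := by
      fun_prop
    exact (WithLp.prodContinuousLinearEquiv 2 ℝ (E p) (E q)).symm.continuous.comp h
  · unfold gA
    have h1 := cont_fst.comp hG
    have h2 : Continuous (fun z : ℝ × Sph p × Sph q => (z.2.1 : E p)) := by fun_prop
    exact (h1.norm.pow 2).sub ((h1.inner h2).pow 2)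
  · unfold gB
    have h1 := cont_snd.comp hG
    have h2 : Continuous (fun z : ℝ × Sph p × Sph q => (z.2.2 : E q)) := by fun_prop
    exact (h1.norm.pow 2).sub ((h1.inner h2).pow 2)

end Pool.Agent.Work.MP_408f4b_gt
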