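import Pool.Agent.Work.MP_408f4b_gt.Stmts

set_option autoImplicit false

namespace Pool.Agent.Work.MP_408f4b_gt

open MeasureTheory Set Filter Topology

namespace ISS

theorem der {k b : ℝ → ℝ} {φ₀ d T : ℝ} {φ ψ : ℝ → ℝ} (hp : Pot k b φ₀) (ha : Arm k d T φ ψ)
    {t : ℝ} (ht : t ∈ Ioc 0 T) :
    HasDerivAt (SS b d φ ψ) (2 * d * Real.exp (2 * d * t) * (1 - b (φ t))) t := by
  have h1 := ha.dφ t ht
  have h2 := ha.dψ t ht
  have hφ : φ t ∈ Ioo 0 (Real.pi / 2) := ha.rφ t ⟨ht.1.le, ht.2⟩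
  have h3 : HasDerivAt (fun s => b (φ s)) (2 * k (φ t) * b (φ t) * Real.tan (ψ t)) t :=
    (hp.der _ hφ).comp t h1
  have h4 : HasDerivAt (fun s => Real.cos (ψ s))
      (-Real.sin (ψ t) * (k (φ t) - d * Real.tan (ψ t))) t := h2.cos
  have h5 : HasDerivAt (fun s => Real.exp (2 * d * s)) (Real.exp (2 * d * t) * (2 * d)) t := by
    have h6 : HasDerivAt (fun s : ℝ => 2 * d * s) (2 * d * 1) t := (hasDerivAt_id t).const_mul _
    rw [mul_one] at h6
    exact h6.exp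
  have h7 := h5.mul ((h3.mul (h4.pow 2)).const_sub 1)
  refine h7.congr_deriv ?_
  have hc : 0 < Real.cos (ψ t) := Real.cos_pos_of_mem_Ioo (ha.rψ t ht)
  have htan : Real.tan (ψ t) * Real.cos (ψ t) = Real.sin (ψ t) := Real.tan_mul_cos hc.ne'
  have hsq : Real.sin (ψ t) ^ 2 + Real.cos (ψ t) ^ 2 = 1 := Real.sin_sq_add_cos_sq _
  simp only [Pi.mul_apply, Pi.pow_apply]
  rw [← htan] at hsq ⊢
  push_cast
  set τ := Real.tan (ψ t)
  set c := Real.cos (ψ t)
  have h8 : (τ * c) ^ 2 = 1 - c ^ 2 := by linarith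
  have h9 : τ * c * c * τ = 1 - c ^ 2 := by rw [← h8]; ring
  linear_combination (Real.exp (2 * d * t) * 2 * b (φ t) * d) * (-h9)

theorem cont {k b : ℝ → ℝ} {φ₀ d T : ℝ} {φ ψ : ℝ → ℝ} (hp : Pot k b φ₀) (ha : Arm k d T φ ψ) :
    ContinuousOn (SS b d φ ψ) (Icc 0 T) := by
  have hb : ContinuousOn b (Ioo 0 (Real.pi / 2)) :=
    fun u hu => (hp.der u hu).continuousAt.continuousWithinAt
  have h1 : ContinuousOn (fun s => b (φ s)) (Icc 0 T) := hb.comp ha.cφ (fun t ht => ha.rφ t ht)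
  have h2 : ContinuousOn (fun s => Real.cos (ψ s)) (Icc 0 T) :=
    Real.continuous_cos.comp_continuousOn ha.cψ
  have h3 : ContinuousOn (fun s : ℝ => Real.exp (2 * d * s)) (Icc 0 T) := by fun_prop
  exact h3.mul (continuousOn_const.sub (h1.mul (h2.pow 2)))

end ISS

theorem prfSS (hP : claimPot) : claimSS := by
  intro k b φ₀ d T φ ψ hp hd hT ha
  have hder : ∀ t ∈ Ioc 0 T,
      HasDerivAt (SS b d φ ψ) (2 * d * Real.exp (2 * d * t) * (1 - b (φ t))) t :=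
    fun t ht => ISS.der hp ha ht
  have hcont := ISS.cont hp ha
  have hmono : MonotoneOn (SS b d φ ψ) (Icc 0 T) := by
    refine monotoneOn_of_deriv_nonneg (convex_Icc 0 T) hcont ?_ ?_
    · intro t ht
      rw [interior_Icc] at ht
      exact (hder t ⟨ht.1, ht.2.le⟩).differentiableAt.differentiableWithinAt
    · intro t ht
      rw [interior_Icc] at ht
      rw [(hder t ⟨ht.1, ht.2.le⟩).deriv]
      have hb : b (φ t) ≤ 1 := ((hP k b φ₀ hp).1 _ (ha.rφ t ⟨ht.1.le, ht.2.le⟩)).1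
      have := Real.exp_pos (2 * d * t)
      have h1 : 0 ≤ 1 - b (φ t) := by linarith
      positivity
  refine ⟨hder, hcont, hmono, ?_⟩
  intro h0 t ht
  have h1 : SS b d φ ψ 0 = 1 := by
    unfold SS
    rw [h0]
    simp
  rw [← h1]
  exact hmono ⟨le_rfl, hT.le⟩ ht ht.1

end Pool.Agent.Work.MP_408f4b_gt
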