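import Pool.Agent.Work.MP_408f4b_gt.Stmts

set_option autoImplicit false

/-!
# Item Sec: the inequality for the sector of `x`
-/

namespace Pool.Agent.Work.MP_408f4b_gt

open MeasureTheory Set Filter Topology

namespace ISec

end ISec

theorem prfSec (hE : claimEqn) : claimSec := by
  intro p q a b x y u u' hp hq hab hC hu hu'
  have hw : ∀ s ∈ Icc a b, 0 < wt p q x y s := by
    intro s hs
    obtain ⟨h1, h2, _⟩ := hC.2.2 s hs
    unfold wt
    positivity
  have hG : ∀ s ∈ Icc a b, HasDerivAt
      (fun t => u t ^ 2 * (wt p q x y t * deriv x t) / x t)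
      (2 * u s * u' s * (wt p q x y s * deriv x s) / x s + u s ^ 2 *
        (((p : ℝ) - 1) * wt p q x y s / x s ^ 2 - wt p q x y s * deriv x s ^ 2 / x s ^ 2)) s := by
    intro s hs
    have hx0 : x s ≠ 0 := (hC.2.2 s hs).1.ne'
    have hx : HasDerivAt x (deriv x s) s :=
      (hC.1.differentiable (by norm_num)).differentiableAt.hasDerivAt
    have h1 := (((hu s hs).pow 2).mul (hE p q a b x y hp hq hab hC s hs).2.2.1).div hx hx0
    refine h1.congr_deriv ?_
    simp only [Pi.mul_apply, Pi.pow_apply]
    field_simp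
    push_cast
    ring
  have hcu : ContinuousOn u (Icc a b) := fun s hs => (hu s hs).continuousAt.continuousWithinAt
  have hcx : ContinuousOn x (Icc a b) := hC.1.continuous.continuousOn
  have hcy : ContinuousOn y (Icc a b) := hC.2.1.continuous.continuousOn
  have hcw : ContinuousOn (wt p q x y) (Icc a b) := by
    unfold wt
    exact (hcx.pow _).mul (hcy.pow _)
  have hcont : ContinuousOn
      (fun s => (u' s ^ 2 + ((p : ℝ) - 1) / x s ^ 2 * u s ^ 2) * wt p q x y s) (Icc a b) := by
    refine ContinuousOn.mul (ContinuousOn.add (hu'.pow 2) (ContinuousOn.mul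
      (ContinuousOn.div continuousOn_const (hcx.pow 2) ?_) (hcu.pow 2))) hcw
    intro s hs
    exact pow_ne_zero 2 (hC.2.2 s hs).1.ne'
  have key := intervalIntegral.sub_le_integral_of_hasDeriv_right_of_le hab.le
    (fun s hs => (hG s hs).continuousAt.continuousWithinAt)
    (fun s hs => (hG s (Ioo_subset_Icc_self hs)).hasDerivWithinAt)
    (hcont.integrableOn_Icc) (fun s hs => by
      have hs' := Ioo_subset_Icc_self hs
      have hx0 : x s ≠ 0 := (hC.2.2 s hs').1.ne'
      have h2 : (u' s ^ 2 + ((p : ℝ) - 1) / x s ^ 2 * u s ^ 2) * wt p q x y s -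
          (2 * u s * u' s * (wt p q x y s * deriv x s) / x s + u s ^ 2 *
        (((p : ℝ) - 1) * wt p q x y s / x s ^ 2 - wt p q x y s * deriv x s ^ 2 / x s ^ 2)) =
          wt p q x y s * (u' s - u s * deriv x s / x s) ^ 2 := by
        field_simp
        ring
      have h3 : 0 ≤ wt p q x y s * (u' s - u s * deriv x s / x s) ^ 2 :=
        mul_nonneg (hw s hs').le (sq_nonneg _)
      linarith)
  refine le_trans (le_of_eq ?_) key
  ring

end Pool.Agent.Work.MP_408f4b_gt
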