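import Pool.Agent.Work.MP_408f4b_gt.Stmts

set_option autoImplicit false

/-!
# Item Sph: the Poincaré inequality on the spheres of the hypersurface
-/

namespace Pool.Agent.Work.MP_408f4b_gt

open MeasureTheory Set Filter Topology

namespace ISph

variable {p q : ℕ}

/-- gradient of `u ↦ f (c u, e)` -/
theorem grad_fst (f : Amb p q → ℝ) (hf : ContDiff ℝ 1 f) (c : ℝ) (e : E q) (u : E p) :
    gradient (fun u : E p => f (WithLp.toLp 2 (c • u, e))) u =
      c • (gradient f (WithLp.toLp 2 (c • u, e))).fst := by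
  have hd : HasFDerivAt f (fderiv ℝ f (WithLp.toLp 2 (c • u, e))) (WithLp.toLp 2 (c • u, e)) :=
    (hf.differentiable (by norm_num) _).hasFDerivAt
  have h4 : HasFDerivAt (fun z : E p × E q => f (WithLp.toLp 2 z))
      ((fderiv ℝ f (WithLp.toLp 2 (c • u, e))).comp
        ((WithLp.prodContinuousLinearEquiv 2 ℝ (E p) (E q)).symm : E p × E q →L[ℝ] Amb p q))
      (c • u, e) :=
    HasFDerivAt.comp (c • u, e) hd
      (WithLp.prodContinuousLinearEquiv 2 ℝ (E p) (E q)).symm.hasFDerivAt
  have h3 : HasFDerivAt (fun u : E p => ((c • u, e) : E p × E q))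
      ((c • ContinuousLinearMap.id ℝ (E p)).prod (0 : E p →L[ℝ] E q)) u :=
    ((hasFDerivAt_id u).const_smul c).prodMk (hasFDerivAt_const e u)
  have h5 := HasFDerivAt.comp u h4 h3
  apply HasGradientAt.gradient
  rw [hasGradientAt_iff_hasFDerivAt]
  refine h5.congr_fderiv ?_
  ext v
  rw [InnerProductSpace.toDual_apply_apply, inner_smul_left]
  show fderiv ℝ f (WithLp.toLp 2 (c • u, e)) (WithLp.toLp 2 (c • v, (0 : E q))) = _
  rw [← inner_gradient_left, WithLp.prod_inner_apply]
  show inner ℝ (gradient f (WithLp.toLp 2 (c • u, e))).fst (c • v) +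
    inner ℝ (gradient f (WithLp.toLp 2 (c • u, e))).snd (0 : E q) = _
  rw [inner_zero_right, add_zero, inner_smul_right]
  simp

/-- gradient of `u ↦ f (e, c u)` -/
theorem grad_snd (f : Amb p q → ℝ) (hf : ContDiff ℝ 1 f) (c : ℝ) (e : E p) (u : E q) :
    gradient (fun u : E q => f (WithLp.toLp 2 (e, c • u))) u =
      c • (gradient f (WithLp.toLp 2 (e, c • u))).snd := by
  have hd : HasFDerivAt f (fderiv ℝ f (WithLp.toLp 2 (e, c • u))) (WithLp.toLp 2 (e, c • u)) :=
    (hf.differentiable (by norm_num) _).hasFDerivAt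
  have h4 : HasFDerivAt (fun z : E p × E q => f (WithLp.toLp 2 z))
      ((fderiv ℝ f (WithLp.toLp 2 (e, c • u))).comp
        ((WithLp.prodContinuousLinearEquiv 2 ℝ (E p) (E q)).symm : E p × E q →L[ℝ] Amb p q))
      (e, c • u) :=
    HasFDerivAt.comp (e, c • u) hd
      (WithLp.prodContinuousLinearEquiv 2 ℝ (E p) (E q)).symm.hasFDerivAt
  have h3 : HasFDerivAt (fun u : E q => ((e, c • u) : E p × E q))
      ((0 : E q →L[ℝ] E p).prod (c • ContinuousLinearMap.id ℝ (E q))) u :=
    (hasFDerivAt_const e u).prodMk ((hasFDerivAt_id u).const_smul c)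
  have h5 := HasFDerivAt.comp u h4 h3
  apply HasGradientAt.gradient
  rw [hasGradientAt_iff_hasFDerivAt]
  refine h5.congr_fderiv ?_
  ext v
  rw [InnerProductSpace.toDual_apply_apply, inner_smul_left]
  show fderiv ℝ f (WithLp.toLp 2 (e, c • u)) (WithLp.toLp 2 ((0 : E p), c • v)) = _
  rw [← inner_gradient_left, WithLp.prod_inner_apply]
  show inner ℝ (gradient f (WithLp.toLp 2 (e, c • u))).fst (0 : E p) +
    inner ℝ (gradient f (WithLp.toLp 2 (e, c • u))).snd (c • v) = _
  rw [inner_zero_right, zero_add, inner_smul_right]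
  simp

end ISph

open ISph

theorem prfSph (hP : claimPoin) : claimSph := by
  intro p q x y f hp hq hx hy hf s
  constructor
  · intro ω
    have hg : ContDiff ℝ 1 (fun u : E p => f (WithLp.toLp 2 (x s • u, y s • (ω : E q)))) := by
      have h1 : ContDiff ℝ 1 (fun u : E p => ((x s • u, y s • (ω : E q)) : E p × E q)) := by
        fun_prop
      exact hf.comp ((WithLp.prodContinuousLinearEquiv 2 ℝ (E p) (E q)).symm.contDiff.comp h1)
    have h := hP p _ hp hg
    refine (le_of_eq rfl).trans (h.trans (le_of_eq ?_))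
    rw [← integral_const_mul]
    refine integral_congr_ae (Eventually.of_forall fun θ => ?_)
    show _ = x s ^ 2 * gA f x y s θ ω
    beta_reduce
    rw [grad_fst f hf, norm_smul, inner_smul_left]
    unfold gA ptc
    simp only [conj_trivial, Real.norm_eq_abs]
    rw [mul_pow, sq_abs]
    ring
  · intro θ
    have hg : ContDiff ℝ 1 (fun u : E q => f (WithLp.toLp 2 (x s • (θ : E p), y s • u))) := by
      have h1 : ContDiff ℝ 1 (fun u : E q => ((x s • (θ : E p), y s • u) : E p × E q)) := by
        fun_prop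
      exact hf.comp ((WithLp.prodContinuousLinearEquiv 2 ℝ (E p) (E q)).symm.contDiff.comp h1)
    have h := hP q _ hq hg
    refine (le_of_eq rfl).trans (h.trans (le_of_eq ?_))
    rw [← integral_const_mul]
    refine integral_congr_ae (Eventually.of_forall fun ω => ?_)
    show _ = y s ^ 2 * gB f x y s θ ω
    beta_reduce
    rw [grad_snd f hf, norm_smul, inner_smul_left]
    unfold gB ptc
    simp only [conj_trivial, Real.norm_eq_abs]
    rw [mul_pow, sq_abs]
    ring

end Pool.Agent.Work.MP_408f4b_gt
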