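import Pool.Agent.Work.MP_408f4b_gt.Stmts

set_option autoImplicit false

/-! # The structure of an embedded chord -/

namespace Pool.Agent.Work.MP_408f4b_gt

open MeasureTheory Set Filter Topology

namespace IStr

/-- small times for an upper arm -/
theorem up_small {k : ℝ → ℝ} {d T : ℝ} {φ ψ : ℝ → ℝ} (hT : 0 < T) (h : Arm k d T φ ψ)
    (h0 : 0 < ψ 0) : ∃ ε ∈ Ioc 0 T, ∀ t ∈ Ioc 0 ε, φ 0 < φ t := by
  have hc : ContinuousWithinAt ψ (Icc 0 T) 0 := h.cψ 0 ⟨le_rfl, hT.le⟩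
  have hev : ∀ᶠ t in 𝓝[Icc 0 T] (0 : ℝ), 0 < ψ t := hc.eventually (lt_mem_nhds h0)
  rw [eventually_nhdsWithin_iff, Metric.eventually_nhds_iff] at hev
  obtain ⟨δ, hδ, H⟩ := hev
  refine ⟨min (δ / 2) T, ⟨lt_min (by linarith) hT, min_le_right _ _⟩, ?_⟩
  intro t ht
  have ht1 : t ≤ δ / 2 := ht.2.trans (min_le_left _ _)
  have ht2 : t ≤ T := ht.2.trans (min_le_right _ _)
  have hsub : Icc 0 t ⊆ Icc 0 T := Icc_subset_Icc_right ht2
  obtain ⟨c, hc1, hc2⟩ := exists_hasDerivAt_eq_slope φ (fun s => Real.tan (ψ s)) ht.1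
    (h.cφ.mono hsub) (fun s hs => h.dφ s ⟨hs.1, hs.2.le.trans ht2⟩)
  have hpos : 0 < ψ c := by
    refine H ?_ ⟨hc1.1.le, hc1.2.le.trans ht2⟩
    rw [Real.dist_eq, sub_zero, abs_of_pos hc1.1]
    linarith [hc1.2]
  have htan : 0 < Real.tan (ψ c) :=
    Real.tan_pos_of_pos_of_lt_pi_div_two hpos (h.rψ c ⟨hc1.1, hc1.2.le.trans ht2⟩).2
  have h3 : 0 < (φ t - φ 0) / (t - 0) := by
    rw [← hc2]
    exact htan
  rw [sub_zero] at h3
  have h4 : 0 < φ t - φ 0 := by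
    have := mul_pos h3 ht.1
    rwa [div_mul_cancel₀ _ ht.1.ne'] at this
  linarith

/-- small times for a lower arm -/
theorem down_small {k : ℝ → ℝ} {d T : ℝ} {φ ψ : ℝ → ℝ} (hT : 0 < T) (h : Arm k d T φ ψ)
    (h0 : ψ 0 < 0) : ∃ ε ∈ Ioc 0 T, ∀ t ∈ Ioc 0 ε, φ t < φ 0 := by
  have hc : ContinuousWithinAt ψ (Icc 0 T) 0 := h.cψ 0 ⟨le_rfl, hT.le⟩
  have hev : ∀ᶠ t in 𝓝[Icc 0 T] (0 : ℝ), ψ t < 0 := hc.eventually (gt_mem_nhds h0)
  rw [eventually_nhdsWithin_iff, Metric.eventually_nhds_iff] at hev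
  obtain ⟨δ, hδ, H⟩ := hev
  refine ⟨min (δ / 2) T, ⟨lt_min (by linarith) hT, min_le_right _ _⟩, ?_⟩
  intro t ht
  have ht1 : t ≤ δ / 2 := ht.2.trans (min_le_left _ _)
  have ht2 : t ≤ T := ht.2.trans (min_le_right _ _)
  have hsub : Icc 0 t ⊆ Icc 0 T := Icc_subset_Icc_right ht2
  obtain ⟨c, hc1, hc2⟩ := exists_hasDerivAt_eq_slope φ (fun s => Real.tan (ψ s)) ht.1
    (h.cφ.mono hsub) (fun s hs => h.dφ s ⟨hs.1, hs.2.le.trans ht2⟩)
  have hneg : ψ c < 0 := by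
    refine H ?_ ⟨hc1.1.le, hc1.2.le.trans ht2⟩
    rw [Real.dist_eq, sub_zero, abs_of_pos hc1.1]
    linarith [hc1.2]
  have htan : Real.tan (ψ c) < 0 :=
    Real.tan_neg_of_neg_of_pi_div_two_lt hneg (h.rψ c ⟨hc1.1, hc1.2.le.trans ht2⟩).1
  have h3 : (φ t - φ 0) / (t - 0) < 0 := by
    rw [← hc2]
    exact htan
  rw [sub_zero] at h3
  have h4 : φ t - φ 0 < 0 := by
    have := mul_neg_of_neg_of_pos h3 ht.1
    rwa [div_mul_cancel₀ _ ht.1.ne'] at this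
  linarith

end IStr

open IStr in
theorem prfStr (hP : claimPot) : claimStr := by
  intro k b φ₀ d T A ψA B ψB hpot hd hT hA hB h0 hA0 hB0 hne hAT hBT
  have hpi := Real.pi_pos
  have part1 : ∀ t ∈ Ioc 0 T, B t < A t := by
    obtain ⟨ε₁, hε₁, H1⟩ := up_small hT hA (by rw [hA0]; positivity)
    obtain ⟨ε₂, hε₂, H2⟩ := down_small hT hB (by rw [hB0]; linarith)
    set t₀ := min ε₁ ε₂ with ht₀
    have ht₀pos : 0 < t₀ := lt_min hε₁.1 hε₂.1
    have ht₀mem : t₀ ∈ Ioc 0 T := ⟨ht₀pos, (min_le_left _ _).trans hε₁.2⟩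
    have h1 := H1 t₀ ⟨ht₀pos, min_le_left _ _⟩
    have h2 := H2 t₀ ⟨ht₀pos, min_le_right _ _⟩
    intro t ht
    by_contra hcon
    push Not at hcon
    obtain ⟨c, hc, hceq⟩ := isPreconnected_Ioc.intermediate_value₂ ht ht₀mem
      (hA.cφ.mono Ioc_subset_Icc_self) (hB.cφ.mono Ioc_subset_Icc_self) hcon
      (by linarith)
    exact hne c hc hceq
  refine ⟨part1, ?_⟩
  -- the derivative of the difference
  have hder : ∀ t ∈ Ioc 0 T, HasDerivAt (fun s => ψA s - ψB s)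
      ((k (A t) - d * Real.tan (ψA t)) - (k (B t) - d * Real.tan (ψB t))) t :=
    fun t ht => (hA.dψ t ht).sub (hB.dψ t ht)
  have hneg : ∀ t ∈ Ioc 0 T, ψA t - ψB t = 0 →
      (k (A t) - d * Real.tan (ψA t)) - (k (B t) - d * Real.tan (ψB t)) < 0 := by
    intro t ht h
    have e : ψA t = ψB t := by linarith
    rw [e]
    have := hpot.anti (hB.rφ t ⟨ht.1.le, ht.2⟩) (hA.rφ t ⟨ht.1.le, ht.2⟩) (part1 t ht)
    linarith
  have hcont : ContinuousOn (fun s => ψA s - ψB s) (Icc 0 T) := hA.cψ.sub hB.cψ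
  -- no negative value
  have key : ∀ t₁ ∈ Ioo 0 T, ψA t₁ - ψB t₁ < 0 → False := by
    intro t₁ ht₁ hlt
    set S : Set ℝ := Icc t₁ T ∩ (fun s => ψA s - ψB s) ⁻¹' Ici 0 with hS
    have hcl : IsClosed S := by
      apply ContinuousOn.preimage_isClosed_of_isClosed
        (hcont.mono (Icc_subset_Icc_left ht₁.1.le)) isClosed_Icc isClosed_Ici
    have hcomp : IsCompact S := isCompact_Icc.of_isClosed_subset hcl inter_subset_left
    have hTS : T ∈ S := ⟨⟨ht₁.2.le, le_rfl⟩, by simp [hAT, hBT]⟩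
    obtain ⟨t₂, ht₂S, hmin⟩ := hcomp.exists_isLeast ⟨T, hTS⟩
    have ht₂1 : t₁ ≤ t₂ := ht₂S.1.1
    have ht₂2 : 0 ≤ ψA t₂ - ψB t₂ := ht₂S.2
    have ht₁₂ : t₁ < t₂ := by
      rcases ht₂1.lt_or_eq with h | h
      · exact h
      · rw [← h] at ht₂2
        linarith
    have hbefore : ∀ s ∈ Ico t₁ t₂, ψA s - ψB s < 0 := by
      intro s hs
      by_contra hcon
      push Not at hcon
      have : s ∈ S := ⟨⟨hs.1, hs.2.le.trans ht₂S.1.2⟩, hcon⟩
      exact absurd (hmin this) (not_le.2 hs.2)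
    have ht₂mem : t₂ ∈ Ioc 0 T := ⟨ht₁.1.trans ht₁₂, ht₂S.1.2⟩
    have hzero : ψA t₂ - ψB t₂ = 0 := by
      apply le_antisymm _ ht₂2
      have hc : ContinuousWithinAt (fun s => ψA s - ψB s) (Ico t₁ t₂) t₂ :=
        (hcont t₂ ⟨ht₂mem.1.le, ht₂mem.2⟩).mono
          (fun s hs => ⟨ht₁.1.le.trans hs.1, hs.2.le.trans ht₂S.1.2⟩)
      have hne' : (𝓝[Ico t₁ t₂] t₂).NeBot := by
        rw [← mem_closure_iff_nhdsWithin_neBot, closure_Ico ht₁₂.ne]
        exact ⟨ht₁₂.le, le_rfl⟩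
      exact le_of_tendsto hc (eventually_nhdsWithin_of_forall fun s hs => (hbefore s hs).le)
    have hd2 := hneg t₂ ht₂mem hzero
    have hd1 := hder t₂ ht₂mem
    have hge : 0 ≤ (k (A t₂) - d * Real.tan (ψA t₂)) - (k (B t₂) - d * Real.tan (ψB t₂)) := by
      have hw := (hd1.hasDerivWithinAt (s := Iio t₂))
      rw [hasDerivWithinAt_iff_tendsto_slope' (by simp)] at hw
      refine ge_of_tendsto hw ?_
      have hmem : Ioo t₁ t₂ ∈ 𝓝[<] t₂ := Ioo_mem_nhdsLT ht₁₂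
      filter_upwards [hmem] with s hs
      rw [slope_def_field]
      have h1 := hbefore s ⟨hs.1.le, hs.2⟩
      apply div_nonneg_of_nonpos
      · show ψA s - ψB s - (ψA t₂ - ψB t₂) ≤ 0
        linarith
      · linarith [hs.2]
    linarith
  intro t₁ ht₁
  by_contra hcon
  push Not at hcon
  rcases (show ψA t₁ - ψB t₁ ≤ 0 by linarith).lt_or_eq with h | h
  · exact key t₁ ht₁ h
  · -- the derivative is negative, so there are negative values to the right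
    have hd2 := hneg t₁ ⟨ht₁.1, ht₁.2.le⟩ h
    have hd1 := hder t₁ ⟨ht₁.1, ht₁.2.le⟩
    have hw := (hd1.hasDerivWithinAt (s := Ioi t₁))
    rw [hasDerivWithinAt_iff_tendsto_slope' (by simp)] at hw
    have hev := hw.eventually (gt_mem_nhds hd2)
    have hmem : Ioo t₁ T ∈ 𝓝[>] t₁ := Ioo_mem_nhdsGT ht₁.2
    obtain ⟨s, hs1, hs2⟩ := (hev.and hmem).exists
    rw [slope_def_field] at hs1
    have hpos : 0 < s - t₁ := by linarith [hs2.1]
    have hs3 : (ψA s - ψB s) - (ψA t₁ - ψB t₁) < 0 := by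
      by_contra hcon2
      push Not at hcon2
      have := div_nonneg hcon2 hpos.le
      exact absurd hs1 (not_lt.2 this)
    exact key s ⟨ht₁.1.trans hs2.1, hs2.2⟩ (by linarith)

end Pool.Agent.Work.MP_408f4b_gt
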