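import Pool.Agent.Work.MP_408f4b_gt.Stmts

set_option autoImplicit false

/-!
# The symmetries of the chords: reversal of the curve and exchange of the coordinates
-/

namespace Pool.Agent.Work.MP_408f4b_gt

open MeasureTheory Set Filter Topology

namespace ISym

theorem deriv_rev (L : ℝ) (x : ℝ → ℝ) (s : ℝ) :
    deriv (fun t => x (L - t)) s = -deriv x (L - s) := deriv_comp_const_sub x L s

theorem deriv2_rev (L : ℝ) (x : ℝ → ℝ) (s : ℝ) :
    deriv (deriv (fun t => x (L - t))) s = deriv (deriv x) (L - s) := by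
  have h : deriv (fun t => x (L - t)) = fun s => -deriv x (L - s) := by
    funext s
    exact deriv_rev L x s
  have h2 : deriv (fun s => -deriv x (L - s)) s = -deriv (fun s => deriv x (L - s)) s :=
    deriv.fun_neg
  rw [h, h2, deriv_comp_const_sub (deriv x) L s, neg_neg]

theorem curve_swap {p q : ℕ} {a b : ℝ} {x y : ℝ → ℝ} (h : Curve p q a b x y) :
    Curve q p a b y x := by
  refine ⟨h.2.1, h.1, fun s hs => ?_⟩
  obtain ⟨h1, h2, h3, h4⟩ := h.2.2 s hs
  refine ⟨h2, h1, by rw [add_comm]; exact h3, ?_⟩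
  linarith

theorem curve_rev {p q : ℕ} {L : ℝ} {x y : ℝ → ℝ} (h : Curve p q 0 L x y) :
    Curve p q 0 L (fun s => x (L - s)) (fun s => y (L - s)) := by
  refine ⟨h.1.comp (contDiff_const.sub contDiff_id), h.2.1.comp (contDiff_const.sub contDiff_id),
    fun s hs => ?_⟩
  obtain ⟨h1, h2, h3, h4⟩ := h.2.2 (L - s) ⟨by linarith [hs.2], by linarith [hs.1]⟩
  refine ⟨h1, h2, ?_, ?_⟩
  · rw [deriv_rev, deriv_rev, neg_sq, neg_sq]
    exact h3
  · rw [deriv_rev, deriv_rev, deriv2_rev, deriv2_rev]
    have e1 : ((q : ℝ) - 1) * -deriv x (L - s) / y (L - s) =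
        -(((q : ℝ) - 1) * deriv x (L - s) / y (L - s)) := by ring
    have e2 : ((p : ℝ) - 1) * -deriv y (L - s) / x (L - s) =
        -(((p : ℝ) - 1) * deriv y (L - s) / x (L - s)) := by ring
    rw [e1, e2]
    linarith

theorem chord_rev {p q : ℕ} {L : ℝ} {x y : ℝ → ℝ} (h : Chord p q L x y) :
    Chord p q L (fun s => x (L - s)) (fun s => y (L - s)) where
  L_pos := h.L_pos
  curve := curve_rev h.curve
  injOn := by
    intro s hs t ht hst
    have h1 : L - s ∈ Icc 0 L := ⟨by linarith [hs.2], by linarith [hs.1]⟩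
    have h2 : L - t ∈ Icc 0 L := ⟨by linarith [ht.2], by linarith [ht.1]⟩
    have h3 := h.injOn h1 h2 hst
    linarith
  final := by
    obtain ⟨h1, h2, h3⟩ := h.initial
    rw [deriv_rev, deriv_rev]
    simp only [sub_self]
    exact ⟨h1, by rw [h2, neg_neg], by rw [h3, neg_neg]⟩
  initial := by
    obtain ⟨h1, h2, h3⟩ := h.final
    rw [deriv_rev, deriv_rev]
    simp only [sub_zero]
    exact ⟨h1, by rw [h2], by rw [h3]⟩

theorem chord_swap {p q : ℕ} {L : ℝ} {x y : ℝ → ℝ} (h : Chord p q L x y) :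
    Chord q p L y x where
  L_pos := h.L_pos
  curve := curve_swap h.curve
  injOn := by
    intro s hs t ht hst
    refine h.injOn hs ht ?_
    have h1 : y s = y t := congrArg Prod.fst hst
    have h2 : x s = x t := congrArg Prod.snd hst
    exact Prod.ext h2 h1
  final := ⟨by rw [add_comm]; exact h.final.1, h.final.2.2, h.final.2.1⟩
  initial := ⟨by rw [add_comm]; exact h.initial.1, h.initial.2.2, h.initial.2.1⟩

end ISym

theorem prfSym : claimSym := by
  refine ⟨fun p q L x y h => ⟨ISym.chord_rev h, ISym.chord_swap h⟩,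
    fun p q a b x y h => ISym.curve_swap h, fun p q x y s => ?_⟩
  unfold wt
  exact mul_comm _ _

end Pool.Agent.Work.MP_408f4b_gt
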