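import Pool.Agent.Work.MP_408f4b_gt.Stmts

set_option autoImplicit false

/-!
# The theorem, from the items
-/

namespace Pool.Agent.Work.MP_408f4b_gt

open MeasureTheory Set Filter Topology

namespace IThm

theorem ineq (h2 : claimTwo) (h1 : claimOne) (p q : ℕ) (P : Profile p q) (hp : 2 ≤ p)
    (hq : 2 ≤ q) (f : Amb p q → ℝ) (hf : ContDiff ℝ 1 f) (h0 : P.bdry f = 0) :
    P.bdry (fun X => f X ^ 2) ≤ P.energy f := by
  rcases P.initial with h | h | h
  · exact h2 p q P hp hq h.1 h.2.1 f hf h0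
  · exact h1 p q P hp hq (Or.inl h.1) f hf h0
  · exact h1 p q P hp hq (Or.inr h.2.1) f hf h0

theorem w0_nonneg {p q : ℕ} (P : Profile p q) : 0 ≤ P.w 0 := by
  have hx : 0 ≤ P.x 0 := by
    rcases P.initial with h | h | h
    · exact h.1.le
    · exact h.1.ge
    · exact h.1.le
  have hy : 0 ≤ P.y 0 := by
    rcases P.initial with h | h | h
    · exact h.2.1.le
    · exact h.2.1.le
    · exact h.2.1.ge
  exact mul_nonneg (pow_nonneg hx _) (pow_nonneg hy _)

theorem wL_nonneg {p q : ℕ} (P : Profile p q) : 0 ≤ P.w P.L :=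
  mul_nonneg (pow_nonneg P.final.1.le _) (pow_nonneg P.final.2.1.le _)

theorem bdry_nonneg {p q : ℕ} (P : Profile p q) (f : Amb p q → ℝ) :
    0 ≤ P.bdry (fun X => f X ^ 2) := by
  have h : ∀ s, 0 ≤ ∫ θ : Sph p, ∫ ω : Sph q, f (P.pt s θ ω) ^ 2 ∂sig q ∂sig p := fun s =>
    integral_nonneg fun θ => integral_nonneg fun ω => sq_nonneg _
  exact add_nonneg (mul_nonneg (h P.L) (wL_nonneg P)) (mul_nonneg (h 0) (w0_nonneg P))

end IThm

open IThm in
theorem prfThm (h2 : claimTwo) (h1 : claimOne) (hC : claimCoord) (hI : claimInv)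
    (hPC : claimPC) : claimThm := by
  intro p q hp hq P
  refine ⟨⟨?_, ?_⟩, ?_⟩
  · obtain ⟨hc, h0, hpos, he⟩ := hC p q P ⟨0, by omega⟩ hp hq
    exact ⟨fun X => X.fst ⟨0, by omega⟩, hc, h0, hpos.ne', by rw [he, div_self hpos.ne']⟩
  · rintro R ⟨f, hf, h0, hne, rfl⟩
    have hpos : 0 < P.bdry (fun X => f X ^ 2) := lt_of_le_of_ne (bdry_nonneg P f) (Ne.symm hne)
    rw [one_le_div hpos]
    exact ineq h2 h1 p q P hp hq f hf h0
  · intro hx hy
    have hch := (hPC p q P).2.1 hx hy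
    obtain ⟨s, ⟨hs, hs0⟩, hu⟩ := (hI p q P.L P.x P.y hp hq hch).1
    refine ⟨s, ⟨hs, ?_⟩, fun t ht => hu t ⟨ht.1, ?_⟩⟩
    · unfold DD at hs0
      linarith
    · unfold DD
      linarith [ht.2]

end Pool.Agent.Work.MP_408f4b_gt
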