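import Pool.Agent.Work.MP_408f4b_gt.Stmts

set_option autoImplicit false

namespace Pool.Agent.Work.MP_408f4b_gt

open MeasureTheory Set Filter Topology

namespace ITwo

instance (n : ℕ) : IsFiniteMeasure (sig n) := by
  unfold sig
  infer_instance

lemma integ {Z : Type*} [TopologicalSpace Z] [CompactSpace Z] [MeasurableSpace Z] [BorelSpace Z]
    (μ : Measure Z) [IsFiniteMeasure μ] (F : Z → ℝ) (hF : Continuous F) : Integrable F μ :=
  hF.integrable_of_hasCompactSupport (HasCompactSupport.of_compactSpace F)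

lemma hd {Z : Type*} [TopologicalSpace Z] [CompactSpace Z] [MeasurableSpace Z] [BorelSpace Z]
    (μ : Measure Z) [IsFiniteMeasure μ] (F F' : ℝ → Z → ℝ)
    (hF : Continuous (fun z : ℝ × Z => F z.1 z.2)) (hF' : Continuous (fun z : ℝ × Z => F' z.1 z.2))
    (h : ∀ s z, HasDerivAt (fun t => F t z) (F' s z) s) (s : ℝ) :
    HasDerivAt (fun t => ∫ z, F t z ∂μ) (∫ z, F' s z ∂μ) s := by
  have hc : IsCompact (Icc (s - 1) (s + 1) ×ˢ (univ : Set Z)) := isCompact_Icc.prod isCompact_univ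
  obtain ⟨C, hC⟩ := hc.exists_bound_of_continuousOn hF'.continuousOn
  have c1 : ∀ t, Continuous (F t) := fun t => hF.comp (Continuous.prodMk_right t)
  have c2 : ∀ t, Continuous (F' t) := fun t => hF'.comp (Continuous.prodMk_right t)
  refine (hasDerivAt_integral_of_dominated_loc_of_deriv_le (bound := fun _ => C)
    (Icc_mem_nhds (by linarith) (by linarith) : Icc (s - 1) (s + 1) ∈ 𝓝 s)
    (Eventually.of_forall fun t => (integ μ _ (c1 t)).aestronglyMeasurable) (integ μ _ (c1 s))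
    (integ μ _ (c2 s)).aestronglyMeasurable ?_ (integrable_const C) ?_).2
  · exact Eventually.of_forall fun z t ht => hC (t, z) ⟨ht, mem_univ _⟩
  · exact Eventually.of_forall fun z t _ => h t z

lemma hcont {T Z : Type*} [TopologicalSpace T] [LocallyCompactSpace T] [FirstCountableTopology T]
    [TopologicalSpace Z] [CompactSpace Z]
    [MeasurableSpace Z] [BorelSpace Z]
    (μ : Measure Z) [IsFiniteMeasure μ] (F : T → Z → ℝ)
    (hF : Continuous (fun z : T × Z => F z.1 z.2)) : Continuous (fun t => ∫ z, F t z ∂μ) := by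
  have := continuous_parametric_integral_of_continuous (μ := μ) (f := F) hF
    (isCompact_univ : IsCompact (univ : Set Z))
  simpa using this

lemma alg {wL w0 A B V1 V2 K0 KL I0 E0 c : ℝ} (hc : 0 ≤ c)
    (hm : wL * A - w0 * (-1 * V1 + -1 * V2) + c * (I0 - wL * KL ^ 2) ≤ E0)
    (hV : V1 + V2 = B - c * K0 ^ 2) (hi : KL ^ 2 * wL + K0 ^ 2 * w0 ≤ I0) :
    A * wL + B * w0 ≤ E0 := by
  have h := mul_le_mul_of_nonneg_left hi hc
  have h2 : V2 = B - c * K0 ^ 2 - V1 := by linarith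
  rw [h2] at hm
  linarith

variable {p q : ℕ}

lemma swap (F : Sph p → Sph q → ℝ) (hF : Continuous (fun z : Sph p × Sph q => F z.1 z.2)) :
    ∫ ω, ∫ θ, F θ ω ∂sig p ∂sig q = ∫ θ, ∫ ω, F θ ω ∂sig q ∂sig p :=
  (integral_integral_swap (integ ((sig p).prod (sig q)) _ hF)).symm

lemma prd (F : Sph p → Sph q → ℝ) (hF : Continuous (fun z : Sph p × Sph q => F z.1 z.2)) :
    ∫ θ, ∫ ω, F θ ω ∂sig q ∂sig p = ∫ z, F z.1 z.2 ∂((sig p).prod (sig q)) :=
  (integral_prod _ (integ ((sig p).prod (sig q)) _ hF)).symm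

lemma avg (F F' : ℝ → Sph p → Sph q → ℝ)
    (hF : Continuous (fun z : ℝ × Sph p × Sph q => F z.1 z.2.1 z.2.2))
    (hF' : Continuous (fun z : ℝ × Sph p × Sph q => F' z.1 z.2.1 z.2.2))
    (h : ∀ s θ ω, HasDerivAt (fun t => F t θ ω) (F' s θ ω) s) :
    (∀ s, HasDerivAt (fun t => ∫ θ, ∫ ω, F t θ ω ∂sig q ∂sig p)
      (∫ θ, ∫ ω, F' s θ ω ∂sig q ∂sig p) s) ∧
    Continuous (fun s => ∫ θ, ∫ ω, F' s θ ω ∂sig q ∂sig p) := by
  have cfs : ∀ s : ℝ, Continuous (fun z : Sph p × Sph q => F s z.1 z.2) :=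
    fun s => hF.comp (Continuous.prodMk_right s)
  have cTs : ∀ s : ℝ, Continuous (fun z : Sph p × Sph q => F' s z.1 z.2) :=
    fun s => hF'.comp (Continuous.prodMk_right s)
  have eK : ∀ s, ∫ θ, ∫ ω, F s θ ω ∂sig q ∂sig p = ∫ z, F s z.1 z.2 ∂((sig p).prod (sig q)) :=
    fun s => prd (F s) (cfs s)
  have eK' : ∀ s, ∫ θ, ∫ ω, F' s θ ω ∂sig q ∂sig p = ∫ z, F' s z.1 z.2 ∂((sig p).prod (sig q)) :=
    fun s => prd (F' s) (cTs s)
  simp only [eK, eK']
  exact ⟨fun s => hd ((sig p).prod (sig q)) (fun s z => F s z.1 z.2) (fun s z => F' s z.1 z.2)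
    hF hF' (fun s z => h s z.1 z.2) s,
    hcont ((sig p).prod (sig q)) (fun s z => F' s z.1 z.2) hF'⟩

lemma vv (F : Sph p → Sph q → ℝ) (hF : Continuous (fun z : Sph p × Sph q => F z.1 z.2)) :
    (∫ ω, VV p (fun θ => F θ ω) ∂sig q) + ((sig p).real univ)⁻¹ *
      VV q (fun ω => ∫ θ, F θ ω ∂sig p) =
      (∫ θ, ∫ ω, F θ ω ^ 2 ∂sig q ∂sig p) -
        ((sig p).real univ * (sig q).real univ)⁻¹ * (∫ θ, ∫ ω, F θ ω ∂sig q ∂sig p) ^ 2 := by
  have e1 : ∫ ω, ∫ θ, F θ ω ^ 2 ∂sig p ∂sig q = ∫ θ, ∫ ω, F θ ω ^ 2 ∂sig q ∂sig p :=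
    swap (fun θ ω => F θ ω ^ 2) (hF.pow 2)
  have e2 := swap F hF
  have cs : Continuous (fun z : Sph q × Sph p => F z.2 z.1) := hF.comp continuous_swap
  have cH : Continuous (fun ω : Sph q => ∫ θ, F θ ω ∂sig p) :=
    hcont (sig p) (fun ω θ => F θ ω) cs
  have cH2 : Continuous (fun ω : Sph q => ∫ θ, F θ ω ^ 2 ∂sig p) :=
    hcont (sig p) (fun ω θ => F θ ω ^ 2) (cs.pow 2)
  have i2 : Integrable (fun ω : Sph q => (∫ θ, F θ ω ∂sig p) ^ 2 / (sig p).real univ) (sig q) :=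
    integ _ _ ((cH.pow 2).div_const _)
  simp only [VV]
  rw [integral_sub (integ _ _ cH2) i2, integral_div, e1, e2, mul_inv]
  ring

end ITwo

theorem prfTwo (hM : claimMain) (hI : claimInvF) (hPC : claimPC) (hPt : claimPt) : claimTwo := by
  intro p q P hp hq hx0 hy0 f hf hb
  obtain ⟨-, h2, -, h4, h5⟩ := hPC p q P
  have hch := h2 hx0 hy0
  obtain ⟨-, hder, cf, cT, -, -⟩ := hPt p q P.x P.y f P.x_C2 P.y_C2 hf
  have hmain := hM p q 0 P.L P.x P.y f hp hq P.L_pos hch.curve hch.final.2.1 hch.final.2.2 hf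
  have ex : deriv P.x 0 / P.x 0 = -1 := by
    rw [hch.initial.2.1, neg_div, div_self hx0.ne']
  have ey : deriv P.y 0 / P.y 0 = -1 := by
    rw [hch.initial.2.2, neg_div, div_self hy0.ne']
  rw [ex, ey] at hmain
  have cf0 : Continuous (fun z : Sph p × Sph q => f (ptc P.x P.y 0 z.1 z.2)) :=
    cf.comp (Continuous.prodMk_right 0)
  obtain ⟨hK, hK'⟩ := ITwo.avg (fun s θ ω => f (ptc P.x P.y s θ ω)) (fun s θ ω => gT f P.x P.y s θ ω)
    cf cT (fun s θ ω => (hder s θ ω).1)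
  have hb' : (∫ θ : Sph p, ∫ ω : Sph q, f (ptc P.x P.y 0 θ ω) ∂sig q ∂sig p) *
      wt p q P.x P.y 0 + (∫ θ : Sph p, ∫ ω : Sph q, f (ptc P.x P.y P.L θ ω) ∂sig q ∂sig p) *
      wt p q P.x P.y P.L = 0 := by
    unfold Profile.bdry at hb
    simp only [(h5 f _ _ _).1, h4] at hb
    linarith
  have hinv := hI p q P.L P.x P.y _ _ hp hq hch (fun s _ => hK s) hK'.continuousOn hb'
  have hVV := ITwo.vv (fun θ ω => f (ptc P.x P.y 0 θ ω)) cf0
  have hnn : 0 ≤ ((sig p).real univ * (sig q).real univ)⁻¹ := by positivity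
  have eE : P.energy f = ∫ s in (0 : ℝ)..P.L,
      (∫ θ : Sph p, ∫ ω : Sph q, gS f P.x P.y s θ ω ∂sig q ∂sig p) * wt p q P.x P.y s := by
    unfold Profile.energy
    simp only [(h5 f _ _ _).2, h4]
  have eB : P.bdry (fun X => f X ^ 2) =
      (∫ θ : Sph p, ∫ ω : Sph q, f (ptc P.x P.y P.L θ ω) ^ 2 ∂sig q ∂sig p) *
        wt p q P.x P.y P.L +
      (∫ θ : Sph p, ∫ ω : Sph q, f (ptc P.x P.y 0 θ ω) ^ 2 ∂sig q ∂sig p) *
        wt p q P.x P.y 0 := by
    unfold Profile.bdry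
    simp only [(h5 f _ _ _).1, h4]
  rw [eE, eB]
  exact ITwo.alg hnn hmain hVV hinv

end Pool.Agent.Work.MP_408f4b_gt
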