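import Pool.Agent.Work.MP_408f4b_gt.Stmts

/-! MP_408f4b_gt, block FL, item Upd: resampling one coordinate. -/

set_option autoImplicit false

namespace Pool.Agent.Work.MP_408f4b_gt

open MeasureTheory

namespace IUpd

theorem meas {n : ℕ} (i : Fin n) :
    Measurable (fun z : (Fin n → ℝ) × ℝ => Function.update z.1 i z.2) := by
  refine measurable_pi_iff.2 fun j => ?_
  by_cases h : j = i
  · subst h
    have e : (fun z : (Fin n → ℝ) × ℝ => Function.update z.1 j z.2 j) = fun z => z.2 := by
      funext z
      exact Function.update_self _ _ _
    rw [e]
    exact measurable_snd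
  · have e : (fun z : (Fin n → ℝ) × ℝ => Function.update z.1 i z.2 j) = fun z => z.1 j := by
      funext z
      exact Function.update_of_ne h _ _
    rw [e]
    exact (measurable_pi_apply j).comp measurable_fst

theorem preimage {n : ℕ} (i : Fin n) (s : Fin n → Set ℝ) :
    (fun z : (Fin n → ℝ) × ℝ => Function.update z.1 i z.2) ⁻¹' (Set.univ.pi s) =
      (Set.univ.pi (Function.update s i Set.univ)) ×ˢ (s i) := by
  ext z
  simp only [Set.mem_preimage, Set.mem_univ_pi, Set.mem_prod]
  constructor
  · intro h
    refine ⟨fun j => ?_, ?_⟩
    · by_cases hj : j = i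
      · subst hj
        rw [Function.update_self]
        exact Set.mem_univ _
      · rw [Function.update_of_ne hj]
        have h1 := h j
        rwa [Function.update_of_ne hj] at h1
    · have h1 := h i
      rwa [Function.update_self] at h1
  · rintro ⟨h, h2⟩ j
    by_cases hj : j = i
    · subst hj
      rwa [Function.update_self]
    · rw [Function.update_of_ne hj]
      have h1 := h j
      rwa [Function.update_of_ne hj] at h1

end IUpd

open IUpd in
theorem prfUpd : claimUpd := by
  intro n i μ hμ
  refine ⟨meas i, ?_⟩
  symm
  refine Measure.pi_eq fun s hs => ?_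
  rw [Measure.map_apply (meas i) (MeasurableSet.univ_pi hs), preimage, Measure.prod_prod,
    Measure.pi_pi]
  have e : ∀ j, μ (Function.update s i Set.univ j) =
      Function.update (fun j => μ (s j)) i 1 j := by
    intro j
    by_cases hj : j = i
    · subst hj
      rw [Function.update_self, Function.update_self, measure_univ]
    · rw [Function.update_of_ne hj, Function.update_of_ne hj]
  rw [Finset.prod_congr rfl fun j _ => e j, Finset.prod_update_of_mem (Finset.mem_univ i),
    one_mul, mul_comm]
  rw [Finset.sdiff_singleton_eq_erase]
  exact Finset.mul_prod_erase Finset.univ (fun j => μ (s j)) (Finset.mem_univ i)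

end Pool.Agent.Work.MP_408f4b_gt
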