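import Pool.Agent.Work.MP_408f4b_gt.Stmts

set_option autoImplicit false

/-!
# Item Var: the variance as a double integral
-/

namespace Pool.Agent.Work.MP_408f4b_gt

open MeasureTheory Set Filter Topology

namespace IVar

instance finSig (n : ℕ) : IsFiniteMeasure (sig n) := by
  unfold sig; infer_instance

theorem sig_pos {n : ℕ} (hn : 1 ≤ n) : 0 < (sig n).real univ := by
  have : Nonempty (Fin n) := ⟨⟨0, by omega⟩⟩
  have h1 : (sig n) ≠ 0 := by
    unfold sig
    exact Measure.toSphere_ne_zero _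
  rw [measureReal_def]
  apply ENNReal.toReal_pos
  · rw [Ne, Measure.measure_univ_eq_zero]
    exact h1
  · exact measure_ne_top _ _

section gen

variable {X Y : Type*} [TopologicalSpace X] [CompactSpace X] [MeasurableSpace X]
  [OpensMeasurableSpace X]

theorem integ (μ : Measure X) [IsFiniteMeasure μ] {f : X → ℝ} (hf : Continuous f) :
    Integrable f μ := by
  exact hf.integrable_of_hasCompactSupport (HasCompactSupport.of_compactSpace f)

/-- Cauchy-Schwarz -/
theorem cs (μ : Measure X) [IsFiniteMeasure μ] (hμ : 0 < μ.real univ) {f : X → ℝ}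
    (hf : Continuous f) : (∫ x, f x ∂μ) ^ 2 ≤ μ.real univ * ∫ x, f x ^ 2 ∂μ := by
  set S := μ.real univ with hS
  set I := ∫ x, f x ∂μ with hI
  have h0 : 0 ≤ ∫ x, (S * f x - I) ^ 2 ∂μ := integral_nonneg fun _ => sq_nonneg _
  have h1 : ∫ x, (S * f x - I) ^ 2 ∂μ = S ^ 2 * ∫ x, f x ^ 2 ∂μ - S * I ^ 2 := by
    have e : ∀ x, (S * f x - I) ^ 2 = S ^ 2 * f x ^ 2 - 2 * S * I * f x + I ^ 2 := fun x => by ring
    simp_rw [e]
    rw [integral_add, integral_sub, integral_const_mul, integral_const_mul, integral_const, ← hS,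
      ← hI, smul_eq_mul]
    · ring
    · exact integ μ (by fun_prop)
    · exact integ μ (by fun_prop)
    · exact integ μ (by fun_prop)
    · exact integ μ (by fun_prop)
  rw [h1] at h0
  have h2 : 0 ≤ S * (S * ∫ x, f x ^ 2 ∂μ - I ^ 2) := by linarith [h0]
  have h3 := nonneg_of_mul_nonneg_right h2 hμ
  linarith

/-- the variance as a double integral -/
theorem dbl (μ : Measure X) [IsFiniteMeasure μ] (hμ : 0 < μ.real univ) {f : X → ℝ}
    (hf : Continuous f) : ∫ x, f x ^ 2 ∂μ - (∫ x, f x ∂μ) ^ 2 / μ.real univ =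
      (2 * μ.real univ)⁻¹ * ∫ x, ∫ y, (f x - f y) ^ 2 ∂μ ∂μ := by
  set S := μ.real univ with hS
  set I := ∫ x, f x ∂μ with hI
  set J := ∫ x, f x ^ 2 ∂μ with hJ
  have h1 : ∀ x, ∫ y, (f x - f y) ^ 2 ∂μ = S * f x ^ 2 - 2 * I * f x + J := by
    intro x
    have e : ∀ y, (f x - f y) ^ 2 = f x ^ 2 - 2 * f x * f y + f y ^ 2 := fun y => by ring
    simp_rw [e]
    rw [integral_add, integral_sub, integral_const_mul, integral_const, ← hS, ← hI, smul_eq_mul]
    · ring
    · exact integ μ (by fun_prop)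
    · exact integ μ (by fun_prop)
    · exact integ μ (by fun_prop)
    · exact integ μ (by fun_prop)
  simp_rw [h1]
  rw [integral_add, integral_sub, integral_const_mul, integral_const_mul, integral_const, ← hS,
    ← hI, ← hJ, smul_eq_mul]
  · field_simp
    ring
  · exact integ μ (by fun_prop)
  · exact integ μ (by fun_prop)
  · exact integ μ (by fun_prop)
  · exact integ μ (by fun_prop)

end gen

end IVar

open IVar

theorem prfVar : claimVar := by
  have part1 : ∀ (n : ℕ) (h : Sph n → ℝ), 1 ≤ n → Continuous h →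
      VV n h = (2 * (sig n).real univ)⁻¹ * ∫ θ, ∫ θ', (h θ - h θ') ^ 2 ∂sig n ∂sig n := by
    intro n h hn hh
    exact dbl (sig n) (sig_pos hn) hh
  refine ⟨part1, ?_⟩
  intro m n h hm hn hh
  have hSn := sig_pos hn
  have hSm := sig_pos hm
  have hk : Continuous (fun ω : Sph n => ∫ θ, h θ ω ∂sig m) := by
    have h1 : Continuous (Function.uncurry fun (ω : Sph n) (θ : Sph m) => h θ ω) :=
      hh.comp continuous_swap
    have h2 := continuous_parametric_integral_of_continuous (μ := sig m) h1
      (isCompact_univ (X := Sph m))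
    simpa using h2
  have hk2 : Continuous (fun z : Sph n × Sph n =>
      ((∫ θ, h θ z.1 ∂sig m) - ∫ θ, h θ z.2 ∂sig m) ^ 2) :=
    ((hk.comp continuous_fst).sub (hk.comp continuous_snd)).pow 2
  have hF : Continuous (fun z : Sph m × (Sph n × Sph n) => (h z.1 z.2.1 - h z.1 z.2.2) ^ 2) := by
    have h1 : Continuous (fun z : Sph m × (Sph n × Sph n) => h z.1 z.2.1) :=
      hh.comp (continuous_fst.prodMk (continuous_fst.comp continuous_snd))
    have h2 : Continuous (fun z : Sph m × (Sph n × Sph n) => h z.1 z.2.2) :=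
      hh.comp (continuous_fst.prodMk (continuous_snd.comp continuous_snd))
    exact (h1.sub h2).pow 2
  have hFi : Integrable (fun z : Sph m × (Sph n × Sph n) => (h z.1 z.2.1 - h z.1 z.2.2) ^ 2)
      ((sig m).prod ((sig n).prod (sig n))) := integ _ hF
  have e1 : VV n (fun ω => ∫ θ, h θ ω ∂sig m) = (2 * (sig n).real univ)⁻¹ *
      ∫ z : Sph n × Sph n, ((∫ θ, h θ z.1 ∂sig m) - ∫ θ, h θ z.2 ∂sig m) ^ 2
        ∂((sig n).prod (sig n)) := by
    rw [part1 n _ hn hk, integral_prod]
    exact integ _ hk2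
  have e2 : ∫ θ, VV n (h θ) ∂sig m = (2 * (sig n).real univ)⁻¹ *
      ∫ z : Sph n × Sph n, (∫ θ, (h θ z.1 - h θ z.2) ^ 2 ∂sig m) ∂((sig n).prod (sig n)) := by
    have h1 : ∀ θ, VV n (h θ) = (2 * (sig n).real univ)⁻¹ *
        ∫ z : Sph n × Sph n, (h θ z.1 - h θ z.2) ^ 2 ∂((sig n).prod (sig n)) := by
      intro θ
      have hc : Continuous (h θ) := hh.comp (continuous_const.prodMk continuous_id)
      rw [part1 n _ hn hc, integral_prod]
      exact integ _ (by fun_prop)
    simp_rw [h1]
    rw [integral_const_mul]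
    congr 1
    exact integral_integral_swap hFi
  rw [e1, e2, mul_left_comm]
  refine mul_le_mul_of_nonneg_left ?_ (by positivity)
  rw [← integral_const_mul]
  refine integral_mono ?_ ?_ ?_
  · exact integ _ hk2
  · exact (hFi.integral_prod_right).const_mul _
  · intro z
    have h1 : Continuous (fun θ : Sph m => h θ z.1) := hh.comp (continuous_id.prodMk continuous_const)
    have h2 : Continuous (fun θ : Sph m => h θ z.2) := hh.comp (continuous_id.prodMk continuous_const)
    have h3 := cs (sig m) hSm (f := fun θ => h θ z.1 - h θ z.2) (h1.sub h2)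
    rw [integral_sub (integ _ h1) (integ _ h2)] at h3
    exact h3

end Pool.Agent.Work.MP_408f4b_gt
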