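import Pool.Agent.Work.MP_408f4b_gt.Stmts

set_option autoImplicit false

/-! # Item Pot: the potential is at most one -/

namespace Pool.Agent.Work.MP_408f4b_gt

open MeasureTheory Set Filter Topology

namespace IPot

variable {k b : ℝ → ℝ} {φ₀ : ℝ}

theorem kpos (h : Pot k b φ₀) {u : ℝ} (hu : u ∈ Ioo 0 (Real.pi / 2)) (h1 : u < φ₀) :
    0 < k u := by
  have := h.anti hu h.mem h1
  rwa [h.zero] at this

theorem kneg (h : Pot k b φ₀) {u : ℝ} (hu : u ∈ Ioo 0 (Real.pi / 2)) (h1 : φ₀ < u) :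
    k u < 0 := by
  have := h.anti h.mem hu h1
  rwa [h.zero] at this

theorem mono (h : Pot k b φ₀) : StrictMonoOn b (Ioc 0 φ₀) := by
  have hm := h.mem
  apply strictMonoOn_of_deriv_pos (convex_Ioc 0 φ₀)
  · intro u hu
    exact (h.der u ⟨hu.1, hu.2.trans_lt hm.2⟩).continuousAt.continuousWithinAt
  · intro u hu
    rw [interior_Ioc] at hu
    have hu' : u ∈ Ioo 0 (Real.pi / 2) := ⟨hu.1, hu.2.trans hm.2⟩
    rw [(h.der u hu').deriv]
    exact mul_pos (mul_pos two_pos (kpos h hu' hu.2)) (h.pos u hu')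

theorem anti (h : Pot k b φ₀) : StrictAntiOn b (Ico φ₀ (Real.pi / 2)) := by
  have hm := h.mem
  apply strictAntiOn_of_deriv_neg (convex_Ico φ₀ (Real.pi / 2))
  · intro u hu
    exact (h.der u ⟨hm.1.trans_le hu.1, hu.2⟩).continuousAt.continuousWithinAt
  · intro u hu
    rw [interior_Ico] at hu
    have hu' : u ∈ Ioo 0 (Real.pi / 2) := ⟨hm.1.trans hu.1, hu.2⟩
    rw [(h.der u hu').deriv]
    exact mul_neg_of_neg_of_pos (mul_neg_of_pos_of_neg two_pos (kneg h hu' hu.1)) (h.pos u hu')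

end IPot

open IPot in
theorem prfPot : claimPot := by
  intro k b φ₀ h
  have hm := h.mem
  refine ⟨fun u hu => ?_, fun u hu h1 => kpos h hu h1, fun u hu h1 => kneg h hu h1,
    fun u v hu huv hv => (mono h).monotoneOn ⟨hu, huv.trans hv⟩ ⟨hu.trans_le huv, hv⟩ huv⟩
  rcases lt_trichotomy u φ₀ with h1 | h1 | h1
  · have h2 := mono h ⟨hu.1, h1.le⟩ ⟨hm.1, le_refl φ₀⟩ h1
    rw [h.one] at h2
    exact ⟨h2.le, fun h3 => absurd h3 h2.ne⟩
  · subst h1
    exact ⟨h.one.le, fun _ => rfl⟩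
  · have h2 := anti h ⟨le_refl φ₀, hm.2⟩ ⟨h1.le, hu.2⟩ h1
    rw [h.one] at h2
    exact ⟨h2.le, fun h3 => absurd h3 h2.ne⟩

end Pool.Agent.Work.MP_408f4b_gt
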