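import Pool.Agent.Work.MP_408f4b_gt.Stmts

set_option autoImplicit false

/-!
# The main inequality on a piece of the curve in the open quadrant
-/

namespace Pool.Agent.Work.MP_408f4b_gt

open MeasureTheory Set Filter Topology

namespace IMain

section general
variable {Z : Type} [MetricSpace Z] [CompactSpace Z] [MeasurableSpace Z] [BorelSpace Z]
  [SecondCountableTopology Z] (μ : Measure Z) [IsFiniteMeasure μ]

/-- `∫ h² - (∫ h)² / μ(Z)`. -/
noncomputable def Va (h : Z → ℝ) : ℝ := ∫ z, h z ^ 2 ∂μ - (∫ z, h z ∂μ) ^ 2 / μ.real univ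

omit [SecondCountableTopology Z] in
theorem int_cont {h : Z → ℝ} (hh : Continuous h) : Integrable h μ :=
  hh.integrable_of_hasCompactSupport (HasCompactSupport.of_compactSpace h)

omit [SecondCountableTopology Z] in
theorem Va_eq {h : Z → ℝ} (hh : Continuous h) :
    ∫ z, (h z - (∫ z, h z ∂μ) / μ.real univ) ^ 2 ∂μ = Va μ h := by
  set I := ∫ z, h z ∂μ with hI
  set S := μ.real univ with hS
  have h1 : ∀ z, (h z - I / S) ^ 2 = (h z ^ 2 - 2 * (I / S) * h z) + (I / S) ^ 2 :=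
    fun z => by ring
  have i1 : Integrable (fun z => h z ^ 2) μ := int_cont μ (hh.pow 2)
  have i2 : Integrable (fun z => 2 * (I / S) * h z) μ := (int_cont μ hh).const_mul _
  have i3 : Integrable (fun z => h z ^ 2 - 2 * (I / S) * h z) μ := i1.sub i2
  simp_rw [h1]
  rw [integral_add i3 (integrable_const _), integral_sub i1 i2, integral_const_mul,
    integral_const, ← hI, ← hS, smul_eq_mul]
  unfold Va
  rw [← hI, ← hS]
  by_cases h0 : S = 0
  · rw [h0]
    simp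
  · field_simp
    ring

/-- continuity of an integral in a parameter. -/
theorem cont_int {X : Type} [TopologicalSpace X] [FirstCountableTopology X]
    [LocallyCompactSpace X] (F : X → Z → ℝ) (hF : Continuous fun p : X × Z => F p.1 p.2) :
    Continuous fun x => ∫ z, F x z ∂μ := by
  have h := continuous_parametric_integral_of_continuous (μ := μ) (f := F) hF isCompact_univ
  simpa only [Measure.restrict_univ] using h

omit [SecondCountableTopology Z] in
/-- derivative of an integral. -/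
theorem der_int (H H' : ℝ → Z → ℝ) (hH : Continuous fun p : ℝ × Z => H p.1 p.2)
    (hH' : Continuous fun p : ℝ × Z => H' p.1 p.2)
    (hd : ∀ s z, HasDerivAt (fun t => H t z) (H' s z) s) (s : ℝ) :
    HasDerivAt (fun t => ∫ z, H t z ∂μ) (∫ z, H' s z ∂μ) s := by
  have hc : IsCompact (Icc (s - 1) (s + 1) ×ˢ (univ : Set Z)) := isCompact_Icc.prod isCompact_univ
  obtain ⟨C, hC⟩ := hc.exists_bound_of_continuousOn hH'.continuousOn
  have hsl : ∀ t, Continuous (H t) := fun t => hH.comp (continuous_const.prodMk continuous_id)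
  have hsl' : ∀ t, Continuous (H' t) := fun t => hH'.comp (continuous_const.prodMk continuous_id)
  refine (hasDerivAt_integral_of_dominated_loc_of_deriv_le (bound := fun _ => C)
    (s := Icc (s - 1) (s + 1)) (Icc_mem_nhds (by linarith) (by linarith))
    (Eventually.of_forall fun t => (hsl t).aestronglyMeasurable)
    (int_cont μ (hsl s)) (hsl' s).aestronglyMeasurable
    (Eventually.of_forall fun z t ht => hC (t, z) ⟨ht, mem_univ z⟩) (integrable_const C)
    (Eventually.of_forall fun z t _ => hd t z)).2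

theorem int_prod {a b : ℝ} (Q : ℝ → Z → ℝ) (hQ : Continuous fun p : ℝ × Z => Q p.1 p.2)
    (m : ℝ → ℝ) (hab : a ≤ b) (hm : ContinuousOn m (Icc a b)) :
    Integrable (Function.uncurry fun s z => Q s z * m s)
      ((volume.restrict (Set.uIoc a b)).prod μ) := by
  have h1 : ContinuousOn (Function.uncurry fun s z => Q s z * m s)
      (Icc a b ×ˢ (univ : Set Z)) := by
    refine hQ.continuousOn.mul (hm.comp continuous_fst.continuousOn ?_)
    intro z hz
    exact hz.1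
  have h2 : IntegrableOn (Function.uncurry fun s z => Q s z * m s)
      (Icc a b ×ˢ (univ : Set Z)) ((volume : Measure ℝ).prod μ) :=
    h1.integrableOn_compact (isCompact_Icc.prod isCompact_univ)
  have h3 : IntegrableOn (Function.uncurry fun s z => Q s z * m s)
      (Set.uIoc a b ×ˢ (univ : Set Z)) ((volume : Measure ℝ).prod μ) := by
    refine h2.mono_set (Set.prod_mono ?_ (Subset.refl _))
    rw [uIoc_of_le hab]
    exact Ioc_subset_Icc_self
  unfold IntegrableOn at h3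
  rwa [← Measure.prod_restrict, Measure.restrict_univ] at h3

theorem swap {a b : ℝ} (Q : ℝ → Z → ℝ) (hQ : Continuous fun p : ℝ × Z => Q p.1 p.2)
    (m : ℝ → ℝ) (hab : a ≤ b) (hm : ContinuousOn m (Icc a b)) :
    ∫ z, (∫ s in a..b, Q s z * m s) ∂μ = ∫ s in a..b, (∫ z, Q s z ∂μ) * m s := by
  rw [← intervalIntegral_integral_swap (int_prod μ Q hQ m hab hm)]
  refine intervalIntegral.integral_congr fun s _ => ?_
  exact integral_mul_const _ _

theorem swap_int {a b : ℝ} (Q : ℝ → Z → ℝ) (hQ : Continuous fun p : ℝ × Z => Q p.1 p.2)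
    (m : ℝ → ℝ) (hab : a ≤ b) (hm : ContinuousOn m (Icc a b)) :
    Integrable (fun z => ∫ s in a..b, Q s z * m s) μ := by
  have h := (int_prod μ Q hQ m hab hm).integral_prod_right
  have h2 : (fun z => ∫ s in a..b, Q s z * m s) = fun z => ∫ s in Set.uIoc a b, Q s z * m s := by
    funext z
    rw [intervalIntegral.integral_of_le hab, uIoc_of_le hab]
  rw [h2]
  exact h

/-- two pieces. -/
theorem swap2 {a b : ℝ} (P R : ℝ → Z → ℝ) (hP : Continuous fun p : ℝ × Z => P p.1 p.2)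
    (hR : Continuous fun p : ℝ × Z => R p.1 p.2)
    (k w : ℝ → ℝ) (hab : a ≤ b) (hk : ContinuousOn k (Icc a b)) (hw : ContinuousOn w (Icc a b)) :
    Integrable (fun z => ∫ s in a..b, (P s z + k s * R s z) * w s) μ ∧
    ∫ z, (∫ s in a..b, (P s z + k s * R s z) * w s) ∂μ =
      ∫ s in a..b, ((∫ z, P s z ∂μ) + k s * ∫ z, R s z ∂μ) * w s := by
  have hkw : ContinuousOn (fun s => k s * w s) (Icc a b) := hk.mul hw
  have hI : ∀ (Q : ℝ → Z → ℝ), (Continuous fun p : ℝ × Z => Q p.1 p.2) → ∀ m : ℝ → ℝ,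
      ContinuousOn m (Icc a b) → ∀ z, IntervalIntegrable (fun s => Q s z * m s) volume a b := by
    intro Q hQ m hm z
    apply ContinuousOn.intervalIntegrable
    rw [uIcc_of_le hab]
    exact (hQ.comp (continuous_id.prodMk continuous_const)).continuousOn.mul hm
  have h1 : ∀ z, ∫ s in a..b, (P s z + k s * R s z) * w s =
      (∫ s in a..b, P s z * w s) + ∫ s in a..b, R s z * (k s * w s) := by
    intro z
    rw [← intervalIntegral.integral_add (hI P hP w hw z) (hI R hR _ hkw z)]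
    refine intervalIntegral.integral_congr fun s _ => ?_
    ring
  have hc : ∀ (Q : ℝ → Z → ℝ), (Continuous fun p : ℝ × Z => Q p.1 p.2) → ∀ m : ℝ → ℝ,
      ContinuousOn m (Icc a b) →
      IntervalIntegrable (fun s => (∫ z, Q s z ∂μ) * m s) volume a b := by
    intro Q hQ m hm
    apply ContinuousOn.intervalIntegrable
    rw [uIcc_of_le hab]
    exact (cont_int μ Q hQ).continuousOn.mul hm
  simp_rw [h1]
  refine ⟨(swap_int μ P hP w hab hw).add (swap_int μ R hR _ hab hkw), ?_⟩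
  rw [integral_add (swap_int μ P hP w hab hw) (swap_int μ R hR _ hab hkw), swap μ P hP w hab hw,
    swap μ R hR _ hab hkw, ← intervalIntegral.integral_add (hc P hP w hw) (hc R hR _ hkw)]
  refine intervalIntegral.integral_congr fun s _ => ?_
  ring

/-- The inequality of a sector for the variance. -/
theorem VS {a b : ℝ} (hab : a < b) (w k : ℝ → ℝ) (hw : ContinuousOn w (Icc a b))
    (hk : ContinuousOn k (Icc a b)) (cb ca : ℝ)
    (hsec : ∀ u u' : ℝ → ℝ, (∀ s ∈ Icc a b, HasDerivAt u (u' s) s) →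
      ContinuousOn u' (Icc a b) → u b ^ 2 * cb - u a ^ 2 * ca ≤
        ∫ s in a..b, (u' s ^ 2 + k s * u s ^ 2) * w s)
    (H H' : ℝ → Z → ℝ) (hH : Continuous fun p : ℝ × Z => H p.1 p.2)
    (hH' : Continuous fun p : ℝ × Z => H' p.1 p.2)
    (hd : ∀ s z, HasDerivAt (fun t => H t z) (H' s z) s) :
    cb * Va μ (H b) - ca * Va μ (H a) ≤
      ∫ s in a..b, (Va μ (H' s) + k s * Va μ (H s)) * w s := by
  have hsl : ∀ t, Continuous (H t) := fun t => hH.comp (continuous_const.prodMk continuous_id)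
  have hsl' : ∀ t, Continuous (H' t) := fun t => hH'.comp (continuous_const.prodMk continuous_id)
  set M : ℝ → ℝ := fun s => (∫ z, H s z ∂μ) / μ.real univ with hMdef
  set M' : ℝ → ℝ := fun s => (∫ z, H' s z ∂μ) / μ.real univ with hM'def
  have hM : ∀ s, HasDerivAt M (M' s) s := fun s => (der_int μ H H' hH hH' hd s).div_const _
  have hMc : Continuous M := (cont_int μ H hH).div_const _
  have hMc' : Continuous M' := (cont_int μ H' hH').div_const _
  have cP : Continuous fun p : ℝ × Z => (H' p.1 p.2 - M' p.1) ^ 2 :=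
    (hH'.sub (hMc'.comp continuous_fst)).pow 2
  have cR : Continuous fun p : ℝ × Z => (H p.1 p.2 - M p.1) ^ 2 :=
    (hH.sub (hMc.comp continuous_fst)).pow 2
  have h1 : ∀ z, (H b z - M b) ^ 2 * cb - (H a z - M a) ^ 2 * ca ≤
      ∫ s in a..b, ((H' s z - M' s) ^ 2 + k s * (H s z - M s) ^ 2) * w s := by
    intro z
    refine hsec (fun s => H s z - M s) (fun s => H' s z - M' s)
      (fun s _ => (hd s z).sub (hM s)) ?_
    exact ((hH'.comp (continuous_id.prodMk continuous_const)).sub hMc').continuousOn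
  obtain ⟨iR, eR⟩ := swap2 μ (fun s z => (H' s z - M' s) ^ 2) (fun s z => (H s z - M s) ^ 2)
    cP cR k w hab.le hk hw
  have i1 : Integrable (fun z => (H b z - M b) ^ 2 * cb) μ :=
    int_cont μ ((((hsl b).sub continuous_const).pow 2).mul continuous_const)
  have i2 : Integrable (fun z => (H a z - M a) ^ 2 * ca) μ :=
    int_cont μ ((((hsl a).sub continuous_const).pow 2).mul continuous_const)
  have h2 := integral_mono (μ := μ) (i1.sub i2) iR h1
  have e1 : ∀ t, ∫ z, (H t z - M t) ^ 2 ∂μ = Va μ (H t) := fun t => Va_eq μ (hsl t)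
  have e2 : ∀ t, ∫ z, (H' t z - M' t) ^ 2 ∂μ = Va μ (H' t) := fun t => Va_eq μ (hsl' t)
  have h3 : ∫ z, ((H b z - M b) ^ 2 * cb - (H a z - M a) ^ 2 * ca) ∂μ =
      cb * Va μ (H b) - ca * Va μ (H a) := by
    rw [integral_sub i1 i2, integral_mul_const, integral_mul_const, e1, e1]
    ring
  have h4 : ∫ z, (∫ s in a..b, ((H' s z - M' s) ^ 2 + k s * (H s z - M s) ^ 2) * w s) ∂μ =
      ∫ s in a..b, (Va μ (H' s) + k s * Va μ (H s)) * w s := by
    rw [eR]
    simp_rw [e1, e2]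
  rw [← h3, ← h4]
  exact h2

/-- swap for two compact spaces. -/
theorem swapZ {Y : Type} [MetricSpace Y] [CompactSpace Y] [MeasurableSpace Y] [BorelSpace Y]
    [SecondCountableTopology Y] (ν : Measure Y) [IsFiniteMeasure ν] (F : Z → Y → ℝ)
    (hF : Continuous fun p : Z × Y => F p.1 p.2) :
    ∫ z, ∫ y, F z y ∂ν ∂μ = ∫ y, ∫ z, F z y ∂μ ∂ν := by
  refine integral_integral_swap ?_
  exact Continuous.integrable_of_hasCompactSupport (f := Function.uncurry F) hF
    (HasCompactSupport.of_compactSpace _)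

end general

instance (n : ℕ) : IsFiniteMeasure (sig n) := by
  unfold sig
  infer_instance

theorem VV_eq (n : ℕ) (h : Sph n → ℝ) : VV n h = Va (sig n) h := rfl

theorem sig_pos {n : ℕ} (hn : 1 ≤ n) : 0 < (sig n).real univ := by
  unfold sig
  rw [Measure.toSphere_real_apply_univ]
  have h1 : (0 : ℝ) < Module.finrank ℝ (E n) := by
    rw [finrank_euclideanSpace, Fintype.card_fin]
    exact_mod_cast hn
  refine mul_pos h1 ?_
  rw [Measure.real, ENNReal.toReal_pos_iff]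
  exact ⟨Metric.measure_ball_pos _ _ one_pos, measure_ball_lt_top⟩

/-- the splitting of a double integral of a square. -/
theorem split2 {p q : ℕ} (hp : 1 ≤ p) (hq : 1 ≤ q) (F : Sph p → Sph q → ℝ)
    (hF : Continuous fun z : Sph p × Sph q => F z.1 z.2) :
    ∫ θ : Sph p, ∫ ω : Sph q, F θ ω ^ 2 ∂sig q ∂sig p =
      ∫ ω : Sph q, VV p (fun θ => F θ ω) ∂sig q +
        ((sig p).real univ)⁻¹ * VV q (fun ω => ∫ θ : Sph p, F θ ω ∂sig p) +
        ((sig p).real univ * (sig q).real univ)⁻¹ *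
          (∫ θ : Sph p, ∫ ω : Sph q, F θ ω ∂sig q ∂sig p) ^ 2 := by
  have h1 : 0 < (sig p).real univ := sig_pos hp
  have h2 : 0 < (sig q).real univ := sig_pos hq
  have hF' : Continuous fun z : Sph q × Sph p => F z.2 z.1 := hF.comp continuous_swap
  have c1 : Continuous fun ω : Sph q => ∫ θ : Sph p, F θ ω ∂sig p :=
    cont_int (sig p) (fun ω θ => F θ ω) hF'
  have c2 : Continuous fun ω : Sph q => ∫ θ : Sph p, F θ ω ^ 2 ∂sig p :=
    cont_int (sig p) (fun ω θ => F θ ω ^ 2) (hF'.pow 2)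
  rw [swapZ (sig p) (sig q) (fun θ ω => F θ ω ^ 2) (hF.pow 2), swapZ (sig p) (sig q) F hF]
  have e1 : ∫ ω : Sph q, VV p (fun θ => F θ ω) ∂sig q =
      ∫ ω : Sph q, ∫ θ : Sph p, F θ ω ^ 2 ∂sig p ∂sig q -
        (∫ ω : Sph q, (∫ θ : Sph p, F θ ω ∂sig p) ^ 2 ∂sig q) / (sig p).real univ := by
    have i2 : Integrable (fun ω : Sph q => (∫ θ : Sph p, F θ ω ∂sig p) ^ 2 / (sig p).real univ)
        (sig q) := int_cont _ ((c1.pow 2).div_const _)
    unfold VV
    rw [← integral_div]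
    exact integral_sub (int_cont _ c2) i2
  rw [e1]
  unfold VV
  field_simp
  ring

theorem contVV {n : ℕ} {X : Type} [TopologicalSpace X] [FirstCountableTopology X]
    [LocallyCompactSpace X] (F : X → Sph n → ℝ) (hF : Continuous fun p : X × Sph n => F p.1 p.2) :
    Continuous fun x => VV n (F x) := by
  unfold VV
  exact (cont_int (sig n) (fun x θ => F x θ ^ 2) (hF.pow 2)).sub
    (((cont_int (sig n) F hF).pow 2).div_const _)

/-- the first sector -/
theorem sec1 {p q : ℕ} {a b : ℝ} (hab : a < b) (Φ G : ℝ → Sph p → Sph q → ℝ) (w k : ℝ → ℝ)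
    (cb ca : ℝ) (hwc : ContinuousOn w (Icc a b)) (hk : ContinuousOn k (Icc a b))
    (hsec : ∀ u u' : ℝ → ℝ, (∀ s ∈ Icc a b, HasDerivAt u (u' s) s) →
      ContinuousOn u' (Icc a b) → u b ^ 2 * cb - u a ^ 2 * ca ≤
        ∫ s in a..b, (u' s ^ 2 + k s * u s ^ 2) * w s)
    (cΦ : Continuous fun z : ℝ × Sph p × Sph q => Φ z.1 z.2.1 z.2.2)
    (cG : Continuous fun z : ℝ × Sph p × Sph q => G z.1 z.2.1 z.2.2)
    (hder : ∀ s θ ω, HasDerivAt (fun t => Φ t θ ω) (G s θ ω) s) :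
    cb * (∫ ω, VV p (fun θ => Φ b θ ω) ∂sig q) - ca * (∫ ω, VV p (fun θ => Φ a θ ω) ∂sig q) ≤
      ∫ s in a..b, ((∫ ω, VV p (fun θ => G s θ ω) ∂sig q) +
        k s * ∫ ω, VV p (fun θ => Φ s θ ω) ∂sig q) * w s := by
  have cΦω : ∀ ω, Continuous fun z : ℝ × Sph p => Φ z.1 z.2 ω := fun ω =>
    cΦ.comp (continuous_fst.prodMk (continuous_snd.prodMk continuous_const))
  have cGω : ∀ ω, Continuous fun z : ℝ × Sph p => G z.1 z.2 ω := fun ω =>
    cG.comp (continuous_fst.prodMk (continuous_snd.prodMk continuous_const))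
  have cΦ3 : Continuous fun z : (ℝ × Sph q) × Sph p => Φ z.1.1 z.2 z.1.2 :=
    cΦ.comp ((continuous_fst.comp continuous_fst).prodMk
      (continuous_snd.prodMk (continuous_snd.comp continuous_fst)))
  have cG3 : Continuous fun z : (ℝ × Sph q) × Sph p => G z.1.1 z.2 z.1.2 :=
    cG.comp ((continuous_fst.comp continuous_fst).prodMk
      (continuous_snd.prodMk (continuous_snd.comp continuous_fst)))
  have cVΦ : Continuous fun z : ℝ × Sph q => VV p (fun θ => Φ z.1 θ z.2) :=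
    contVV (fun (z : ℝ × Sph q) θ => Φ z.1 θ z.2) cΦ3
  have cVG : Continuous fun z : ℝ × Sph q => VV p (fun θ => G z.1 θ z.2) :=
    contVV (fun (z : ℝ × Sph q) θ => G z.1 θ z.2) cG3
  obtain ⟨iR, eR⟩ := swap2 (sig q) (fun s ω => VV p (fun θ => G s θ ω))
    (fun s ω => VV p (fun θ => Φ s θ ω)) cVG cVΦ k w hab.le hk hwc
  have h1 : ∀ ω, cb * VV p (fun θ => Φ b θ ω) - ca * VV p (fun θ => Φ a θ ω) ≤
      ∫ s in a..b, (VV p (fun θ => G s θ ω) + k s * VV p (fun θ => Φ s θ ω)) * w s := fun ω =>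
    VS (sig p) hab w k hwc hk _ _ hsec (fun s θ => Φ s θ ω)
      (fun s θ => G s θ ω) (cΦω ω) (cGω ω) (fun s θ => hder s θ ω)
  have hcs : ∀ t, Continuous fun ω => VV p (fun θ => Φ t θ ω) := fun t =>
    cVΦ.comp (continuous_const.prodMk continuous_id)
  have i1 : Integrable (fun ω => cb * VV p (fun θ => Φ b θ ω)) (sig q) :=
    (int_cont _ (hcs b)).const_mul _
  have i2 : Integrable (fun ω => ca * VV p (fun θ => Φ a θ ω)) (sig q) :=
    (int_cont _ (hcs a)).const_mul _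
  have h2 := integral_mono (μ := sig q) (i1.sub i2) iR h1
  rw [eR] at h2
  have h3 : ∫ ω, (cb * VV p (fun θ => Φ b θ ω) - ca * VV p (fun θ => Φ a θ ω)) ∂sig q =
      cb * (∫ ω, VV p (fun θ => Φ b θ ω) ∂sig q) -
        ca * (∫ ω, VV p (fun θ => Φ a θ ω) ∂sig q) := by
    rw [integral_sub i1 i2, integral_const_mul, integral_const_mul]
  rw [← h3]
  exact h2

/-- the second sector -/
theorem sec2 {p q : ℕ} {a b : ℝ} (hab : a < b) (Φ G : ℝ → Sph p → Sph q → ℝ) (w k : ℝ → ℝ)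
    (cb ca : ℝ) (hwc : ContinuousOn w (Icc a b)) (hk : ContinuousOn k (Icc a b))
    (hsec : ∀ u u' : ℝ → ℝ, (∀ s ∈ Icc a b, HasDerivAt u (u' s) s) →
      ContinuousOn u' (Icc a b) → u b ^ 2 * cb - u a ^ 2 * ca ≤
        ∫ s in a..b, (u' s ^ 2 + k s * u s ^ 2) * w s)
    (cΦ : Continuous fun z : ℝ × Sph p × Sph q => Φ z.1 z.2.1 z.2.2)
    (cG : Continuous fun z : ℝ × Sph p × Sph q => G z.1 z.2.1 z.2.2)
    (hder : ∀ s θ ω, HasDerivAt (fun t => Φ t θ ω) (G s θ ω) s) :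
    cb * VV q (fun ω => ∫ θ, Φ b θ ω ∂sig p) - ca * VV q (fun ω => ∫ θ, Φ a θ ω ∂sig p) ≤
      ∫ s in a..b, (VV q (fun ω => ∫ θ, G s θ ω ∂sig p) +
        k s * VV q (fun ω => ∫ θ, Φ s θ ω ∂sig p)) * w s := by
  have cΦω : ∀ ω, Continuous fun z : ℝ × Sph p => Φ z.1 z.2 ω := fun ω =>
    cΦ.comp (continuous_fst.prodMk (continuous_snd.prodMk continuous_const))
  have cGω : ∀ ω, Continuous fun z : ℝ × Sph p => G z.1 z.2 ω := fun ω =>
    cG.comp (continuous_fst.prodMk (continuous_snd.prodMk continuous_const))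
  have cΦ3 : Continuous fun z : (ℝ × Sph q) × Sph p => Φ z.1.1 z.2 z.1.2 :=
    cΦ.comp ((continuous_fst.comp continuous_fst).prodMk
      (continuous_snd.prodMk (continuous_snd.comp continuous_fst)))
  have cG3 : Continuous fun z : (ℝ × Sph q) × Sph p => G z.1.1 z.2 z.1.2 :=
    cG.comp ((continuous_fst.comp continuous_fst).prodMk
      (continuous_snd.prodMk (continuous_snd.comp continuous_fst)))
  have cH : Continuous fun z : ℝ × Sph q => ∫ θ, Φ z.1 θ z.2 ∂sig p :=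
    cont_int (sig p) (fun (z : ℝ × Sph q) θ => Φ z.1 θ z.2) cΦ3
  have cH' : Continuous fun z : ℝ × Sph q => ∫ θ, G z.1 θ z.2 ∂sig p :=
    cont_int (sig p) (fun (z : ℝ × Sph q) θ => G z.1 θ z.2) cG3
  exact VS (sig q) hab w k hwc hk _ _ hsec (fun s ω => ∫ θ, Φ s θ ω ∂sig p)
    (fun s ω => ∫ θ, G s θ ω ∂sig p) cH cH'
    (fun s ω => der_int (sig p) (fun s θ => Φ s θ ω) (fun s θ => G s θ ω) (cΦω ω) (cGω ω)
      (fun s θ => hder s θ ω) s)

/-- the pointwise inequality. -/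
theorem ptw {p q : ℕ} (hp : 1 ≤ p) (hq : 1 ≤ q) (hV : claimVar) (Φ G A B Sg : Sph p → Sph q → ℝ)
    (k1 k2 : ℝ) (hk2 : 0 ≤ k2)
    (cΦ : Continuous fun z : Sph p × Sph q => Φ z.1 z.2)
    (cG : Continuous fun z : Sph p × Sph q => G z.1 z.2)
    (cA : Continuous fun z : Sph p × Sph q => A z.1 z.2)
    (cB : Continuous fun z : Sph p × Sph q => B z.1 z.2)
    (hgS : ∀ θ ω, Sg θ ω = G θ ω ^ 2 + A θ ω + B θ ω)
    (hA : ∀ ω, k1 * VV p (fun θ => Φ θ ω) ≤ ∫ θ, A θ ω ∂sig p)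
    (hB : ∀ θ, k2 * VV q (Φ θ) ≤ ∫ ω, B θ ω ∂sig q) :
    ((∫ ω, VV p (fun θ => G θ ω) ∂sig q) + k1 * ∫ ω, VV p (fun θ => Φ θ ω) ∂sig q) +
      ((sig p).real univ)⁻¹ * (VV q (fun ω => ∫ θ, G θ ω ∂sig p) +
        k2 * VV q (fun ω => ∫ θ, Φ θ ω ∂sig p)) +
      ((sig p).real univ * (sig q).real univ)⁻¹ * (∫ θ, ∫ ω, G θ ω ∂sig q ∂sig p) ^ 2 ≤
    ∫ θ, ∫ ω, Sg θ ω ∂sig q ∂sig p := by
  have h1 : 0 < (sig p).real univ := sig_pos hp
  have h2 : 0 < (sig q).real univ := sig_pos hq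
  have cA' : Continuous fun z : Sph q × Sph p => A z.2 z.1 := cA.comp continuous_swap
  have cΦ' : Continuous fun z : Sph q × Sph p => Φ z.2 z.1 := cΦ.comp continuous_swap
  -- the sum
  have e1 : ∫ θ, ∫ ω, Sg θ ω ∂sig q ∂sig p = ∫ θ, ∫ ω, G θ ω ^ 2 ∂sig q ∂sig p +
      ∫ θ, ∫ ω, A θ ω ∂sig q ∂sig p + ∫ θ, ∫ ω, B θ ω ∂sig q ∂sig p := by
    have sl : ∀ (F : Sph p → Sph q → ℝ), (Continuous fun z : Sph p × Sph q => F z.1 z.2) →
        ∀ θ, Integrable (F θ) (sig q) := fun F hF θ =>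
      int_cont _ (hF.comp (continuous_const.prodMk continuous_id))
    have sl2 : ∀ (F : Sph p → Sph q → ℝ), (Continuous fun z : Sph p × Sph q => F z.1 z.2) →
        Integrable (fun θ => ∫ ω, F θ ω ∂sig q) (sig p) := fun F hF =>
      int_cont _ (cont_int (sig q) F hF)
    have e0 : ∀ θ, ∫ ω, Sg θ ω ∂sig q = (∫ ω, G θ ω ^ 2 ∂sig q + ∫ ω, A θ ω ∂sig q) +
        ∫ ω, B θ ω ∂sig q := by
      intro θ
      have i1 := sl (fun θ ω => G θ ω ^ 2) (cG.pow 2) θ
      have i2 := sl A cA θ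
      have i3 := sl B cB θ
      have i12 : Integrable (fun ω => G θ ω ^ 2 + A θ ω) (sig q) := i1.add i2
      rw [← integral_add i1 i2, ← integral_add i12 i3]
      refine integral_congr_ae (Eventually.of_forall fun ω => ?_)
      exact hgS θ ω
    simp_rw [e0]
    have i1 := sl2 (fun θ ω => G θ ω ^ 2) (cG.pow 2)
    have i2 := sl2 A cA
    have i3 := sl2 B cB
    have i12 : Integrable (fun θ => ∫ ω, G θ ω ^ 2 ∂sig q + ∫ ω, A θ ω ∂sig q) (sig p) :=
      i1.add i2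
    rw [integral_add i12 i3, integral_add i1 i2]
  -- the first sphere
  have e2 : k1 * ∫ ω, VV p (fun θ => Φ θ ω) ∂sig q ≤ ∫ θ, ∫ ω, A θ ω ∂sig q ∂sig p := by
    rw [swapZ (sig p) (sig q) A cA, ← integral_const_mul]
    refine integral_mono ?_ ?_ hA
    · exact int_cont _ (continuous_const.mul (contVV (fun ω θ => Φ θ ω) cΦ'))
    · exact int_cont _ (cont_int (sig p) (fun ω θ => A θ ω) cA')
  -- the second sphere
  have e3 : k2 * ∫ θ, VV q (Φ θ) ∂sig p ≤ ∫ θ, ∫ ω, B θ ω ∂sig q ∂sig p := by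
    rw [← integral_const_mul]
    refine integral_mono ?_ ?_ hB
    · exact int_cont _ (continuous_const.mul (contVV Φ cΦ))
    · exact int_cont _ (cont_int (sig q) B cB)
  have e4 : VV q (fun ω => ∫ θ, Φ θ ω ∂sig p) ≤ (sig p).real univ * ∫ θ, VV q (Φ θ) ∂sig p :=
    hV.2 p q Φ hp hq cΦ
  have e5 : ((sig p).real univ)⁻¹ * (k2 * VV q (fun ω => ∫ θ, Φ θ ω ∂sig p)) ≤
      k2 * ∫ θ, VV q (Φ θ) ∂sig p := by
    calc ((sig p).real univ)⁻¹ * (k2 * VV q (fun ω => ∫ θ, Φ θ ω ∂sig p))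
        ≤ ((sig p).real univ)⁻¹ * (k2 * ((sig p).real univ * ∫ θ, VV q (Φ θ) ∂sig p)) :=
          mul_le_mul_of_nonneg_left (mul_le_mul_of_nonneg_left e4 hk2) (inv_pos.2 h1).le
      _ = k2 * ∫ θ, VV q (Φ θ) ∂sig p := by
          field_simp
  rw [e1, split2 hp hq G cG]
  linarith [e2, e3, e5, mul_add ((sig p).real univ)⁻¹ (VV q (fun ω => ∫ θ, G θ ω ∂sig p))
    (k2 * VV q (fun ω => ∫ θ, Φ θ ω ∂sig p))]

/-- The main inequality, for abstract functions. -/
theorem core {p q : ℕ} (hp : 1 ≤ p) (hq : 1 ≤ q) {a b : ℝ} (hab : a < b) (hV : claimVar)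
    (Φ G A B Sg : ℝ → Sph p → Sph q → ℝ) (w k1 k2 : ℝ → ℝ) (c1b c1a c2b c2a : ℝ)
    (hwc : ContinuousOn w (Icc a b)) (hw0 : ∀ s ∈ Icc a b, 0 ≤ w s)
    (hk1 : ContinuousOn k1 (Icc a b)) (hk2 : ContinuousOn k2 (Icc a b))
    (hk20 : ∀ s ∈ Icc a b, 0 ≤ k2 s)
    (hsec1 : ∀ u u' : ℝ → ℝ, (∀ s ∈ Icc a b, HasDerivAt u (u' s) s) →
      ContinuousOn u' (Icc a b) → u b ^ 2 * c1b - u a ^ 2 * c1a ≤
        ∫ s in a..b, (u' s ^ 2 + k1 s * u s ^ 2) * w s)
    (hsec2 : ∀ u u' : ℝ → ℝ, (∀ s ∈ Icc a b, HasDerivAt u (u' s) s) →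
      ContinuousOn u' (Icc a b) → u b ^ 2 * c2b - u a ^ 2 * c2a ≤
        ∫ s in a..b, (u' s ^ 2 + k2 s * u s ^ 2) * w s)
    (cΦ : Continuous fun z : ℝ × Sph p × Sph q => Φ z.1 z.2.1 z.2.2)
    (cG : Continuous fun z : ℝ × Sph p × Sph q => G z.1 z.2.1 z.2.2)
    (cA : Continuous fun z : ℝ × Sph p × Sph q => A z.1 z.2.1 z.2.2)
    (cB : Continuous fun z : ℝ × Sph p × Sph q => B z.1 z.2.1 z.2.2)
    (hder : ∀ s θ ω, HasDerivAt (fun t => Φ t θ ω) (G s θ ω) s)
    (hgS : ∀ s ∈ Icc a b, ∀ θ ω, Sg s θ ω = G s θ ω ^ 2 + A s θ ω + B s θ ω)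
    (hA : ∀ s ∈ Icc a b, ∀ ω, k1 s * VV p (fun θ => Φ s θ ω) ≤ ∫ θ, A s θ ω ∂sig p)
    (hB : ∀ s ∈ Icc a b, ∀ θ, k2 s * VV q (Φ s θ) ≤ ∫ ω, B s θ ω ∂sig q) :
    (c1b * (∫ ω, VV p (fun θ => Φ b θ ω) ∂sig q) -
      c1a * (∫ ω, VV p (fun θ => Φ a θ ω) ∂sig q)) +
    ((sig p).real univ)⁻¹ * (c2b * VV q (fun ω => ∫ θ, Φ b θ ω ∂sig p) -
      c2a * VV q (fun ω => ∫ θ, Φ a θ ω ∂sig p)) +
    ((sig p).real univ * (sig q).real univ)⁻¹ *
      (∫ s in a..b, (∫ θ, ∫ ω, G s θ ω ∂sig q ∂sig p) ^ 2 * w s) ≤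
    ∫ s in a..b, (∫ θ, ∫ ω, Sg s θ ω ∂sig q ∂sig p) * w s := by
  have I1 := sec1 hab Φ G w k1 c1b c1a hwc hk1 hsec1 cΦ cG hder
  have I2 := sec2 hab Φ G w k2 c2b c2a hwc hk2 hsec2 cΦ cG hder
  have h1 : 0 < (sig p).real univ := sig_pos hp
  have h2 : 0 < (sig q).real univ := sig_pos hq
  -- slices
  have sl : ∀ (F : ℝ → Sph p → Sph q → ℝ),
      (Continuous fun z : ℝ × Sph p × Sph q => F z.1 z.2.1 z.2.2) →
      ∀ s, Continuous fun z : Sph p × Sph q => F s z.1 z.2 := fun F hF s =>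
    hF.comp (continuous_const.prodMk continuous_id)
  -- continuity of double integrals
  have dbl : ∀ (F : ℝ → Sph p → Sph q → ℝ),
      (Continuous fun z : ℝ × Sph p × Sph q => F z.1 z.2.1 z.2.2) →
      Continuous fun s => ∫ θ, ∫ ω, F s θ ω ∂sig q ∂sig p := by
    intro F hF
    refine cont_int (sig p) (fun s θ => ∫ ω, F s θ ω ∂sig q) ?_
    refine cont_int (sig q) (fun (z : ℝ × Sph p) ω => F z.1 z.2 ω) ?_
    exact hF.comp ((continuous_fst.comp continuous_fst).prodMk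
      ((continuous_snd.comp continuous_fst).prodMk continuous_snd))
  -- other order
  have r3 : ∀ (F : ℝ → Sph p → Sph q → ℝ),
      (Continuous fun z : ℝ × Sph p × Sph q => F z.1 z.2.1 z.2.2) →
      Continuous fun z : (ℝ × Sph q) × Sph p => F z.1.1 z.2 z.1.2 := fun F hF =>
    hF.comp ((continuous_fst.comp continuous_fst).prodMk
      (continuous_snd.prodMk (continuous_snd.comp continuous_fst)))
  have cV : ∀ (F : ℝ → Sph p → Sph q → ℝ),
      (Continuous fun z : ℝ × Sph p × Sph q => F z.1 z.2.1 z.2.2) →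
      Continuous fun s => ∫ ω, VV p (fun θ => F s θ ω) ∂sig q := fun F hF =>
    cont_int (sig q) (fun s ω => VV p (fun θ => F s θ ω))
      (contVV (fun (z : ℝ × Sph q) θ => F z.1 θ z.2) (r3 F hF))
  have cH : ∀ (F : ℝ → Sph p → Sph q → ℝ),
      (Continuous fun z : ℝ × Sph p × Sph q => F z.1 z.2.1 z.2.2) →
      Continuous fun s => VV q (fun ω => ∫ θ, F s θ ω ∂sig p) := fun F hF =>
    contVV (fun s ω => ∫ θ, F s θ ω ∂sig p)
      (cont_int (sig p) (fun (z : ℝ × Sph q) θ => F z.1 θ z.2) (r3 F hF))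
  -- the three integrands
  have j1 : IntervalIntegrable (fun s => ((∫ ω, VV p (fun θ => G s θ ω) ∂sig q) +
      k1 s * ∫ ω, VV p (fun θ => Φ s θ ω) ∂sig q) * w s) volume a b := by
    apply ContinuousOn.intervalIntegrable
    rw [uIcc_of_le hab.le]
    exact ((cV G cG).continuousOn.add (hk1.mul (cV Φ cΦ).continuousOn)).mul hwc
  have j2 : IntervalIntegrable (fun s => (VV q (fun ω => ∫ θ, G s θ ω ∂sig p) +
      k2 s * VV q (fun ω => ∫ θ, Φ s θ ω ∂sig p)) * w s) volume a b := by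
    apply ContinuousOn.intervalIntegrable
    rw [uIcc_of_le hab.le]
    exact ((cH G cG).continuousOn.add (hk2.mul (cH Φ cΦ).continuousOn)).mul hwc
  have j3 : IntervalIntegrable (fun s => (∫ θ, ∫ ω, G s θ ω ∂sig q ∂sig p) ^ 2 * w s)
      volume a b := by
    apply ContinuousOn.intervalIntegrable
    rw [uIcc_of_le hab.le]
    exact ((dbl G cG).continuousOn.pow 2).mul hwc
  -- the right-hand side
  have eS : ∫ s in a..b, (∫ θ, ∫ ω, Sg s θ ω ∂sig q ∂sig p) * w s =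
      ∫ s in a..b, (∫ θ, ∫ ω, (G s θ ω ^ 2 + A s θ ω + B s θ ω) ∂sig q ∂sig p) * w s := by
    refine intervalIntegral.integral_congr fun s hs => ?_
    rw [uIcc_of_le hab.le] at hs
    have e : ∀ θ, ∫ ω, Sg s θ ω ∂sig q = ∫ ω, (G s θ ω ^ 2 + A s θ ω + B s θ ω) ∂sig q :=
      fun θ => integral_congr_ae (Eventually.of_forall fun ω => hgS s hs θ ω)
    simp only [e]
  have cSg : Continuous fun z : ℝ × Sph p × Sph q =>
      G z.1 z.2.1 z.2.2 ^ 2 + A z.1 z.2.1 z.2.2 + B z.1 z.2.1 z.2.2 := ((cG.pow 2).add cA).add cB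
  have j4 : IntervalIntegrable (fun s => (∫ θ, ∫ ω, (G s θ ω ^ 2 + A s θ ω + B s θ ω)
      ∂sig q ∂sig p) * w s) volume a b := by
    apply ContinuousOn.intervalIntegrable
    rw [uIcc_of_le hab.le]
    exact (dbl (fun s θ ω => G s θ ω ^ 2 + A s θ ω + B s θ ω) cSg).continuousOn.mul hwc
  have hmono : ∫ s in a..b, ((((∫ ω, VV p (fun θ => G s θ ω) ∂sig q) +
      k1 s * ∫ ω, VV p (fun θ => Φ s θ ω) ∂sig q) * w s +
      ((sig p).real univ)⁻¹ * ((VV q (fun ω => ∫ θ, G s θ ω ∂sig p) +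
        k2 s * VV q (fun ω => ∫ θ, Φ s θ ω ∂sig p)) * w s)) +
      ((sig p).real univ * (sig q).real univ)⁻¹ *
        ((∫ θ, ∫ ω, G s θ ω ∂sig q ∂sig p) ^ 2 * w s)) ≤
      ∫ s in a..b, (∫ θ, ∫ ω, (G s θ ω ^ 2 + A s θ ω + B s θ ω) ∂sig q ∂sig p) * w s := by
    refine intervalIntegral.integral_mono_on hab.le
      ((j1.add (j2.const_mul _)).add (j3.const_mul _)) j4 fun s hs => ?_
    have h := ptw hp hq hV (Φ s) (G s) (A s) (B s)
      (fun θ ω => G s θ ω ^ 2 + A s θ ω + B s θ ω) (k1 s) (k2 s) (hk20 s hs)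
      (sl Φ cΦ s) (sl G cG s) (sl A cA s) (sl B cB s) (fun _ _ => rfl) (hA s hs) (hB s hs)
    have h' := mul_le_mul_of_nonneg_right h (hw0 s hs)
    refine le_trans (le_of_eq ?_) h'
    ring
  rw [intervalIntegral.integral_add (j1.add (j2.const_mul _)) (j3.const_mul _),
    intervalIntegral.integral_add j1 (j2.const_mul _), intervalIntegral.integral_const_mul,
    intervalIntegral.integral_const_mul] at hmono
  rw [eS]
  have I2' := mul_le_mul_of_nonneg_left I2 (inv_pos.2 h1).le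
  linarith

end IMain

open IMain in
theorem prfMain (hS : claimSym) (hSec : claimSec) (hPt : claimPt) (hSp : claimSph)
    (hV : claimVar) : claimMain := by
  intro p q a b x y f hp hq hab hC hxb hyb hf
  obtain ⟨hx2, hy2, hcu⟩ := hC
  have hC0 : Curve p q a b x y := ⟨hx2, hy2, hcu⟩
  have hC' : Curve q p a b y x := hS.2.1 p q a b x y ⟨hx2, hy2, hcu⟩
  have hp1 : 1 ≤ p := by omega
  have hq1 : 1 ≤ q := by omega
  have hp0 : (0 : ℝ) ≤ (p : ℝ) - 1 := by
    have : (1 : ℝ) ≤ p := by exact_mod_cast hp1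
    linarith
  have hq0 : (0 : ℝ) ≤ (q : ℝ) - 1 := by
    have : (1 : ℝ) ≤ q := by exact_mod_cast hq1
    linarith
  obtain ⟨hgS, hder, cΦ, cG, cA, cB⟩ := hPt p q x y f hx2 hy2 hf
  have hxc : Continuous x := hx2.continuous
  have hyc : Continuous y := hy2.continuous
  have hwc : ContinuousOn (wt p q x y) (Icc a b) := by
    unfold wt
    exact ((hxc.pow _).mul (hyc.pow _)).continuousOn
  have hwt : ∀ s, wt q p y x s = wt p q x y s := fun s => hS.2.2 p q x y s
  have hw0 : ∀ s ∈ Icc a b, 0 ≤ wt p q x y s := fun s hs => by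
    unfold wt
    exact mul_nonneg (pow_nonneg (hcu s hs).1.le _) (pow_nonneg (hcu s hs).2.1.le _)
  have ck1 : ContinuousOn (fun s => ((p : ℝ) - 1) / x s ^ 2) (Icc a b) :=
    continuousOn_const.div (hxc.pow 2).continuousOn fun s hs => (pow_pos (hcu s hs).1 2).ne'
  have ck2 : ContinuousOn (fun s => ((q : ℝ) - 1) / y s ^ 2) (Icc a b) :=
    continuousOn_const.div (hyc.pow 2).continuousOn fun s hs => (pow_pos (hcu s hs).2.1 2).ne'
  have hsec1 : ∀ u u' : ℝ → ℝ, (∀ s ∈ Icc a b, HasDerivAt u (u' s) s) →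
      ContinuousOn u' (Icc a b) → u b ^ 2 * (deriv x b / x b * wt p q x y b) -
        u a ^ 2 * (deriv x a / x a * wt p q x y a) ≤
        ∫ s in a..b, (u' s ^ 2 + ((p : ℝ) - 1) / x s ^ 2 * u s ^ 2) * wt p q x y s := by
    intro u u' hu hu'
    have h := hSec p q a b x y u u' hp hq hab hC0 hu hu'
    refine le_trans (le_of_eq ?_) h
    ring
  have hsec2 : ∀ u u' : ℝ → ℝ, (∀ s ∈ Icc a b, HasDerivAt u (u' s) s) →
      ContinuousOn u' (Icc a b) → u b ^ 2 * (deriv y b / y b * wt p q x y b) -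
        u a ^ 2 * (deriv y a / y a * wt p q x y a) ≤
        ∫ s in a..b, (u' s ^ 2 + ((q : ℝ) - 1) / y s ^ 2 * u s ^ 2) * wt p q x y s := by
    intro u u' hu hu'
    have h := hSec q p a b y x u u' hq hp hab hC' hu hu'
    simp only [hwt] at h
    refine le_trans (le_of_eq ?_) h
    ring
  have hmain := core hp1 hq1 hab hV (fun s θ ω => f (ptc x y s θ ω)) (gT f x y) (gA f x y)
    (gB f x y) (gS f x y) (wt p q x y) (fun s => ((p : ℝ) - 1) / x s ^ 2)
    (fun s => ((q : ℝ) - 1) / y s ^ 2) _ _ _ _ hwc hw0 ck1 ck2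
    (fun s hs => div_nonneg hq0 (pow_pos (hcu s hs).2.1 2).le) hsec1 hsec2 cΦ cG cA cB
    (fun s θ ω => (hder s θ ω).1) (fun s hs θ ω => hgS s θ ω (hcu s hs).2.2.1)
    (fun s hs ω => by
      have h := (hSp p q x y f hp hq hx2 hy2 hf s).1 ω
      rw [div_mul_eq_mul_div, div_le_iff₀ (pow_pos (hcu s hs).1 2), mul_comm (∫ θ, _ ∂_)]
      exact h)
    (fun s hs θ => by
      have h := (hSp p q x y f hp hq hx2 hy2 hf s).2 θ
      rw [div_mul_eq_mul_div, div_le_iff₀ (pow_pos (hcu s hs).2.1 2), mul_comm (∫ ω, _ ∂_)]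
      exact h)
  have hspl := split2 hp1 hq1 (fun θ ω => f (ptc x y b θ ω))
    (cΦ.comp (continuous_const.prodMk continuous_id))
  have hxb1 : deriv x b / x b = 1 := by
    rw [hxb]
    exact div_self (hcu b (right_mem_Icc.2 hab.le)).1.ne'
  have hyb1 : deriv y b / y b = 1 := by
    rw [hyb]
    exact div_self (hcu b (right_mem_Icc.2 hab.le)).2.1.ne'
  rw [hxb1, hyb1] at hmain
  rw [hspl]
  refine le_trans (le_of_eq ?_) hmain
  ring

end Pool.Agent.Work.MP_408f4b_gt
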