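import Pool.Agent.Work.MP_408f4b_gt.Stmts

set_option autoImplicit false

/-!
# The supersolution `√D`
-/

namespace Pool.Agent.Work.MP_408f4b_gt

open MeasureTheory Set

namespace ISuper

variable {p q : ℕ} {a b : ℝ} {x y : ℝ → ℝ}

/-- the derivative of `D` -/
noncomputable def D1 (p q : ℕ) (x y : ℝ → ℝ) (s : ℝ) : ℝ :=
  2 * (((q : ℝ) - 1) * (x s * deriv x s) - ((p : ℝ) - 1) * (y s * deriv y s))

theorem hasDerivAt_x (hx : ContDiff ℝ 2 x) (s : ℝ) : HasDerivAt x (deriv x s) s :=
  (hx.differentiable (by norm_num)).differentiableAt.hasDerivAt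

theorem hasDerivAt_D (hx : ContDiff ℝ 2 x) (hy : ContDiff ℝ 2 y) (s : ℝ) :
    HasDerivAt (DD p q x y) (D1 p q x y s) s := by
  have h1 := hasDerivAt_x hx s
  have h2 := hasDerivAt_x hy s
  have h3 := ((h1.pow 2).const_mul ((q : ℝ) - 1)).sub ((h2.pow 2).const_mul ((p : ℝ) - 1))
  refine HasDerivAt.congr_deriv (f := DD p q x y) h3 ?_
  unfold D1
  push_cast
  ring

theorem cont_D1 (hx : ContDiff ℝ 2 x) (hy : ContDiff ℝ 2 y) : Continuous (D1 p q x y) := by
  have h1 : Continuous (deriv x) := hx.continuous_deriv (by norm_num)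
  have h2 : Continuous (deriv y) := hy.continuous_deriv (by norm_num)
  have h3 := hx.continuous
  have h4 := hy.continuous
  unfold D1
  fun_prop

theorem cont_wt (hx : ContDiff ℝ 2 x) (hy : ContDiff ℝ 2 y) : Continuous (wt p q x y) := by
  have h3 := hx.continuous
  have h4 := hy.continuous
  unfold wt
  fun_prop

theorem wt_pos {s : ℝ} (hx : 0 < x s) (hy : 0 < y s) : 0 < wt p q x y s := by
  unfold wt
  positivity

/-- the derivative of `w D'` -/
theorem hasDerivAt_M (hE : claimEqn) (hp : 2 ≤ p) (hq : 2 ≤ q) (hab : a < b)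
    (hC : Curve p q a b x y) {s : ℝ} (hs : s ∈ Icc a b) :
    HasDerivAt (fun t => wt p q x y t * D1 p q x y t)
      (2 * (wt p q x y s * (((q : ℝ) - 1) * deriv x s ^ 2 - ((p : ℝ) - 1) * deriv y s ^ 2))) s := by
  obtain ⟨-, -, h3, h4, -, -⟩ := hE p q a b x y hp hq hab hC s hs
  obtain ⟨hxs, hys, -, -⟩ := hC.2.2 s hs
  have h1 := hasDerivAt_x hC.1 s
  have h2 := hasDerivAt_x hC.2.1 s
  have h5 := (((h1.mul h3).const_mul ((q : ℝ) - 1)).sub
    ((h2.mul h4).const_mul ((p : ℝ) - 1))).const_mul 2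
  have h6 : (fun t => wt p q x y t * D1 p q x y t) = fun t =>
      2 * (((q : ℝ) - 1) * (x t * (wt p q x y t * deriv x t)) -
        ((p : ℝ) - 1) * (y t * (wt p q x y t * deriv y t))) := by
    funext t
    unfold D1
    ring
  rw [h6]
  refine HasDerivAt.congr_deriv h5 ?_
  field_simp
  ring

/-- the derivative of `G = w F'` -/
theorem hasDerivAt_G (hE : claimEqn) (hp : 2 ≤ p) (hq : 2 ≤ q) (hab : a < b)
    (hC : Curve p q a b x y) {s : ℝ} (hs : s ∈ Icc a b) (hD : 0 < DD p q x y s) :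
    HasDerivAt (fun t => wt p q x y t * D1 p q x y t / (2 * Real.sqrt (DD p q x y t)))
      (-(wt p q x y s * (((p : ℝ) - 1) * ((q : ℝ) - 1)) *
        (x s * deriv y s - y s * deriv x s) ^ 2 /
          (DD p q x y s * Real.sqrt (DD p q x y s)))) s := by
  have h1 := hasDerivAt_M hE hp hq hab hC hs
  have h2 := ((hasDerivAt_D (p := p) (q := q) hC.1 hC.2.1 s).sqrt hD.ne').const_mul 2
  have hF : 0 < Real.sqrt (DD p q x y s) := Real.sqrt_pos.2 hD
  have h3 := h1.div h2 (by positivity)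
  refine HasDerivAt.congr_deriv h3 ?_
  have hF2 : Real.sqrt (DD p q x y s) ^ 2 = DD p q x y s := Real.sq_sqrt hD.le
  set F := Real.sqrt (DD p q x y s) with hFdef
  have hD' : DD p q x y s = F ^ 2 := hF2.symm
  have hDe : F ^ 2 = ((q : ℝ) - 1) * x s ^ 2 - ((p : ℝ) - 1) * y s ^ 2 := hF2
  rw [hD']
  have key : F ^ 2 * (((q : ℝ) - 1) * deriv x s ^ 2 - ((p : ℝ) - 1) * deriv y s ^ 2) * 4 -
      D1 p q x y s ^ 2 =
      -(4 * (((p : ℝ) - 1) * ((q : ℝ) - 1)) * (x s * deriv y s - y s * deriv x s) ^ 2) := by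
    rw [hDe]
    unfold D1
    ring
  have hF0 : F ≠ 0 := hF.ne'
  field_simp
  linear_combination (wt p q x y s) * key

end ISuper

open ISuper in
theorem prfSuper (hE : claimEqn) : claimSuper := by
  intro p q a b x y hp hq hab hC hD hxb hyb
  have hP : (0 : ℝ) < (p : ℝ) - 1 := by
    have : (2 : ℝ) ≤ p := by exact_mod_cast hp
    linarith
  have hQ : (0 : ℝ) < (q : ℝ) - 1 := by
    have : (2 : ℝ) ≤ q := by exact_mod_cast hq
    linarith
  have hder : ∀ s, deriv (DD p q x y) s = D1 p q x y s := fun s =>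
    (hasDerivAt_D hC.1 hC.2.1 s).deriv
  have hw : ∀ s ∈ Icc a b, 0 < wt p q x y s := fun s hs =>
    wt_pos (hC.2.2 s hs).1 (hC.2.2 s hs).2.1
  have hbI : b ∈ Icc a b := ⟨hab.le, le_rfl⟩
  have hDb : 0 < DD p q x y b := hD b ⟨hab, le_rfl⟩
  have hFb : 0 < Real.sqrt (DD p q x y b) := Real.sqrt_pos.2 hDb
  have hwb := hw b hbI
  set G : ℝ → ℝ := fun t => wt p q x y t * D1 p q x y t / (2 * Real.sqrt (DD p q x y t)) with hG
  have hGb : G b = wt p q x y b * Real.sqrt (DD p q x y b) := by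
    have h1 : D1 p q x y b = 2 * DD p q x y b := by
      unfold D1 DD
      rw [hxb, hyb]
      ring
    have h2 : Real.sqrt (DD p q x y b) ^ 2 = DD p q x y b := Real.sq_sqrt hDb.le
    rw [hG]
    simp only
    rw [h1]
    nth_rw 1 [← h2]
    field_simp
  have hanti : ∀ s ∈ Ioc a b, G b ≤ G s := by
    intro s hs
    have hI : ∀ t ∈ Icc s b, t ∈ Icc a b ∧ 0 < DD p q x y t := fun t ht =>
      ⟨⟨hs.1.le.trans ht.1, ht.2⟩, hD t ⟨hs.1.trans_le ht.1, ht.2⟩⟩
    have hA : AntitoneOn G (Icc s b) := by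
      refine antitoneOn_of_deriv_nonpos (convex_Icc s b) ?_ ?_ ?_
      · intro t ht
        exact (hasDerivAt_G hE hp hq hab hC (hI t ht).1 (hI t ht).2).continuousAt.continuousWithinAt
      · intro t ht
        rw [interior_Icc] at ht
        have ht' := hI t ⟨ht.1.le, ht.2.le⟩
        exact (hasDerivAt_G hE hp hq hab hC ht'.1 ht'.2).differentiableAt.differentiableWithinAt
      · intro t ht
        rw [interior_Icc] at ht
        have ht' := hI t ⟨ht.1.le, ht.2.le⟩
        rw [(hasDerivAt_G hE hp hq hab hC ht'.1 ht'.2).deriv]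
        have h1 := hw t ht'.1
        have h2 := ht'.2
        have h3 : 0 < Real.sqrt (DD p q x y t) := Real.sqrt_pos.2 h2
        have h4 : 0 ≤ wt p q x y t * (((p : ℝ) - 1) * ((q : ℝ) - 1)) *
            (x t * deriv y t - y t * deriv x t) ^ 2 /
              (DD p q x y t * Real.sqrt (DD p q x y t)) := by positivity
        linarith
    exact hA ⟨le_rfl, hs.2⟩ ⟨hs.2, le_rfl⟩ hs.2
  have hfirst : ∀ s ∈ Ioc a b, wt p q x y b * Real.sqrt (DD p q x y b) ≤
      wt p q x y s * (deriv (DD p q x y) s / (2 * Real.sqrt (DD p q x y s))) := by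
    intro s hs
    rw [hder, ← hGb, ← mul_div_assoc]
    exact hanti s hs
  refine ⟨hfirst, ?_⟩
  have hwc : ContinuousOn (fun s => (wt p q x y s)⁻¹) (Icc a b) :=
    (cont_wt hC.1 hC.2.1).continuousOn.inv₀ fun s hs => (hw s hs).ne'
  -- the estimate on `[s, b]`
  have hest : ∀ s ∈ Ioo a b, ∫ t in s..b, (wt p q x y t)⁻¹ ≤ (wt p q x y b)⁻¹ := by
    intro s hs
    have hI : ∀ t ∈ Icc s b, t ∈ Ioc a b := fun t ht => ⟨hs.1.trans_le ht.1, ht.2⟩
    have hsub : Icc s b ⊆ Icc a b := Icc_subset_Icc_left hs.1.le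
    have hDc : Continuous (DD p q x y) :=
      continuous_iff_continuousAt.2 fun t => (hasDerivAt_D hC.1 hC.2.1 t).continuousAt
    have hF' : ∀ t ∈ uIcc s b, HasDerivAt (fun t => Real.sqrt (DD p q x y t))
        (D1 p q x y t / (2 * Real.sqrt (DD p q x y t))) t := by
      intro t ht
      rw [uIcc_of_le hs.2.le] at ht
      exact (hasDerivAt_D hC.1 hC.2.1 t).sqrt (hD t (hI t ht)).ne'
    have hcF : ContinuousOn (fun t => D1 p q x y t / (2 * Real.sqrt (DD p q x y t)))
        (Icc s b) := by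
      refine (cont_D1 hC.1 hC.2.1).continuousOn.div
        (continuousOn_const.mul hDc.continuousOn.sqrt) fun t ht => ?_
      have := Real.sqrt_pos.2 (hD t (hI t ht))
      positivity
    have hint1 : IntervalIntegrable (fun t => D1 p q x y t / (2 * Real.sqrt (DD p q x y t)))
        volume s b := (hcF.mono (by rw [uIcc_of_le hs.2.le])).intervalIntegrable
    have hint2 : IntervalIntegrable (fun t => (wt p q x y t)⁻¹) volume s b :=
      ((hwc.mono hsub).mono (by rw [uIcc_of_le hs.2.le])).intervalIntegrable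
    have h1 := intervalIntegral.integral_eq_sub_of_hasDerivAt hF' hint1
    have h2 : ∫ t in s..b, wt p q x y b * Real.sqrt (DD p q x y b) * (wt p q x y t)⁻¹ ≤
        ∫ t in s..b, D1 p q x y t / (2 * Real.sqrt (DD p q x y t)) := by
      refine intervalIntegral.integral_mono_on hs.2.le (hint2.const_mul _) hint1 fun t ht => ?_
      have h3 := hfirst t (hI t ht)
      rw [hder] at h3
      have h4 := hw t (hsub ht)
      rw [← div_eq_mul_inv, div_le_iff₀ h4]
      linarith
    rw [h1, intervalIntegral.integral_const_mul] at h2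
    have h5 : 0 ≤ Real.sqrt (DD p q x y s) := Real.sqrt_nonneg _
    have h6 : wt p q x y b * Real.sqrt (DD p q x y b) * ∫ t in s..b, (wt p q x y t)⁻¹ ≤
        Real.sqrt (DD p q x y b) := by linarith
    have h7 : wt p q x y b * (∫ t in s..b, (wt p q x y t)⁻¹) ≤ 1 := by
      have h8 : Real.sqrt (DD p q x y b) * (wt p q x y b * ∫ t in s..b, (wt p q x y t)⁻¹) ≤
          Real.sqrt (DD p q x y b) * 1 := by linarith
      exact le_of_mul_le_mul_left h8 hFb
    rw [← one_div, le_div_iff₀ hwb]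
    linarith
  -- the limit
  obtain ⟨C, hCb⟩ := isCompact_Icc.exists_bound_of_continuousOn hwc
  by_contra hcon
  push Not at hcon
  set δ := (∫ s in a..b, (wt p q x y s)⁻¹) - (wt p q x y b)⁻¹ with hδ
  have hδ0 : 0 < δ := by linarith
  have hC0 : 0 ≤ C := (norm_nonneg _).trans (hCb b hbI)
  set η := min ((b - a) / 2) (δ / (2 * (C + 1))) with hη
  have hη0 : 0 < η := lt_min (by linarith) (by positivity)
  have hη1 : η ≤ (b - a) / 2 := min_le_left _ _
  have hη2 : η ≤ δ / (2 * (C + 1)) := min_le_right _ _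
  have hs : a + η ∈ Ioo a b := ⟨by linarith, by linarith⟩
  have h1 := hest _ hs
  have hi1 : IntervalIntegrable (fun t => (wt p q x y t)⁻¹) volume a (a + η) :=
    (hwc.mono (by rw [uIcc_of_le hs.1.le]; exact Icc_subset_Icc_right hs.2.le)).intervalIntegrable
  have hi2 : IntervalIntegrable (fun t => (wt p q x y t)⁻¹) volume (a + η) b :=
    (hwc.mono (by rw [uIcc_of_le hs.2.le]; exact Icc_subset_Icc_left hs.1.le)).intervalIntegrable
  have h2 := intervalIntegral.integral_add_adjacent_intervals hi1 hi2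
  have h3 : ‖∫ t in a..(a + η), (wt p q x y t)⁻¹‖ ≤ C * |a + η - a| := by
    refine intervalIntegral.norm_integral_le_of_norm_le_const fun t ht => ?_
    rw [uIoc_of_le hs.1.le] at ht
    exact hCb t ⟨ht.1.le, ht.2.trans hs.2.le⟩
  rw [Real.norm_eq_abs, add_sub_cancel_left, abs_of_pos hη0] at h3
  have h4 := (abs_le.1 h3).2
  have h5 : C * η ≤ δ / 2 := by
    have h6 : (C + 1) * η ≤ (C + 1) * (δ / (2 * (C + 1))) :=
      mul_le_mul_of_nonneg_left hη2 (by linarith)
    have h7 : (C + 1) * (δ / (2 * (C + 1))) = δ / 2 := by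
      field_simp
    linarith
  linarith

end Pool.Agent.Work.MP_408f4b_gt
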